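import Pool.Agent.CyG.Field

set_option autoImplicit false

/-!
# Compactness of the set of unit states over a compact part of the cylinder
-/

namespace Pool.Agent.CyG

open Set Filter Topology
open scoped ContDiff

namespace CylMetric

theorem momenta_sq_le (g : CylMetric) (z : State) :
    z.2.2.1 ^ 2 + z.2.2.2 ^ 2 ≤ (g.E (z.1, z.2.1) + g.G (z.1, z.2.1)) * g.en z := by
  have h := g.det_pos (z.1, z.2.1)
  rw [g.p_eq z, g.q_eq z]
  unfold en
  unfold det at h
  have h1 := mul_nonneg h.le (add_nonneg (sq_nonneg (g.v z)) (sq_nonneg (g.w z)))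
  nlinarith [h1]

theorem isCompact_unit (g : CylMetric) (m M a b : ℝ) :
    IsCompact {z : State | z.1 ∈ Icc m M ∧ z.2.1 ∈ Icc a b ∧ g.en z = 1} := by
  have hK : IsCompact (Icc m M ×ˢ Icc a b : Set (ℝ × ℝ)) := isCompact_Icc.prod isCompact_Icc
  have hc : Continuous fun p : ℝ × ℝ => g.E p + g.G p :=
    g.smooth_E.continuous.add g.smooth_G.continuous
  obtain ⟨C, hC⟩ := hK.exists_bound_of_continuousOn hc.continuousOn
  set R : ℝ := |C| + 1 with hR
  have hbig : IsCompact (Icc m M ×ˢ (Icc a b ×ˢ (Icc (-R) R ×ˢ Icc (-R) R)) : Set State) :=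
    isCompact_Icc.prod (isCompact_Icc.prod (isCompact_Icc.prod isCompact_Icc))
  refine hbig.of_isClosed_subset ?_ ?_
  · have h1 : IsClosed {z : State | z.1 ∈ Icc m M} := isClosed_Icc.preimage continuous_fst
    have h2 : IsClosed {z : State | z.2.1 ∈ Icc a b} :=
      isClosed_Icc.preimage (continuous_fst.comp continuous_snd)
    have h3 : IsClosed {z : State | g.en z = 1} := isClosed_eq g.continuous_en continuous_const
    exact h1.inter (h2.inter h3)
  · rintro z ⟨hz1, hz2, hz3⟩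
    have h1 := g.momenta_sq_le z
    rw [hz3, mul_one] at h1
    have h2 := hC (z.1, z.2.1) ⟨hz1, hz2⟩
    rw [Real.norm_eq_abs] at h2
    have h3 : z.2.2.1 ^ 2 + z.2.2.2 ^ 2 ≤ R ^ 2 := by
      have h4 : g.E (z.1, z.2.1) + g.G (z.1, z.2.1) ≤ |C| :=
        (le_abs_self _).trans (h2.trans (le_abs_self _))
      have h5 : (0 : ℝ) ≤ |C| := abs_nonneg _
      nlinarith
    have hR0 : 0 ≤ R := by positivity
    refine ⟨hz1, hz2, ?_, ?_⟩
    · exact abs_le.1 (abs_le_of_sq_le_sq (by nlinarith [sq_nonneg z.2.2.2]) hR0)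
    · exact abs_le.1 (abs_le_of_sq_le_sq (by nlinarith [sq_nonneg z.2.2.1]) hR0)

end CylMetric

end Pool.Agent.CyG
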