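import Pool.Agent.CyG.Field

set_option autoImplicit false

/-!
# Crossing of transversal curves
-/

namespace Pool.Agent.CyG

open Set Filter Topology
open scoped ContDiff

theorem eventually_slope_pos {f : ℝ → ℝ} {f' s : ℝ} (hf : HasDerivAt f f' s) (h : 0 < f') :
    ∀ᶠ r in 𝓝[>] s, f s < f r := by
  have h1 := hasDerivAt_iff_tendsto_slope.1 hf
  have h2 : ∀ᶠ r in 𝓝[≠] s, 0 < slope f s r := h1.eventually (lt_mem_nhds h)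
  have h3 : ∀ᶠ r in 𝓝[>] s, 0 < slope f s r :=
    h2.filter_mono (nhdsWithin_mono _ fun r hr => ne_of_gt hr)
  filter_upwards [h3, self_mem_nhdsWithin] with r hr hr'
  rw [slope_def_field] at hr
  have h4 : 0 < r - s := sub_pos.2 hr'
  have h5 := mul_pos hr h4
  rw [div_mul_cancel₀ _ h4.ne'] at h5
  linarith

/-- Two curves `(x₁, u₁)`, `(x₂, u₂)` in the plane which pass through the same point at the times
`s₁`, `s₂`, upwards, with slopes `v₁ / w₁ < v₂ / w₂`: shortly after, on a common level, the first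
is to the left of the second. -/
theorem cross_after {u₁ x₁ u₂ x₂ : ℝ → ℝ} {s₁ s₂ v₁ w₁ v₂ w₂ : ℝ} (hc₁ : Continuous u₁)
    (hc₂ : Continuous u₂) (hu₁ : HasDerivAt u₁ w₁ s₁) (hx₁ : HasDerivAt x₁ v₁ s₁)
    (hu₂ : HasDerivAt u₂ w₂ s₂) (hx₂ : HasDerivAt x₂ v₂ s₂) (hw₁ : 0 < w₁) (hw₂ : 0 < w₂)
    (hu : u₁ s₁ = u₂ s₂) (hx : x₁ s₁ = x₂ s₂) (hs : v₁ / w₁ < v₂ / w₂) {ε : ℝ} (hε : 0 < ε) :
    ∃ σ₁ ∈ Ioo s₁ (s₁ + ε), ∃ σ₂ ∈ Ioo s₂ (s₂ + ε), u₁ σ₁ = u₂ σ₂ ∧ x₁ σ₁ < x₂ σ₂ := by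
  obtain ⟨m, hm₁, hm₂⟩ := exists_between hs
  have hm₁' : v₁ < m * w₁ := by rwa [div_lt_iff₀ hw₁] at hm₁
  have hm₂' : m * w₂ < v₂ := by rwa [lt_div_iff₀ hw₂] at hm₂
  have h1 : ∀ᶠ r in 𝓝[>] s₁, u₁ s₁ < u₁ r := eventually_slope_pos hu₁ hw₁
  have h2 : ∀ᶠ r in 𝓝[>] s₂, u₂ s₂ < u₂ r := eventually_slope_pos hu₂ hw₂
  have h3 : ∀ᶠ r in 𝓝[>] s₁, m * u₁ s₁ - x₁ s₁ < m * u₁ r - x₁ r :=
    eventually_slope_pos ((hu₁.const_mul m).sub hx₁) (by linarith)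
  have h4 : ∀ᶠ r in 𝓝[>] s₂, x₂ s₂ - m * u₂ s₂ < x₂ r - m * u₂ r :=
    eventually_slope_pos (hx₂.sub (hu₂.const_mul m)) (by linarith)
  obtain ⟨b₁, hb₁, hb₁'⟩ := (mem_nhdsGT_iff_exists_Ioo_subset).1 (h1.and h3)
  obtain ⟨b₂, hb₂, hb₂'⟩ := (mem_nhdsGT_iff_exists_Ioo_subset).1 (h2.and h4)
  simp only [mem_Ioi] at hb₁ hb₂
  obtain ⟨a₁, ha₁, ha₁'⟩ := exists_between (lt_min hb₁ (show s₁ < s₁ + ε by linarith))
  obtain ⟨a₂, ha₂, ha₂'⟩ := exists_between (lt_min hb₂ (show s₂ < s₂ + ε by linarith))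
  rw [lt_min_iff] at ha₁' ha₂'
  have key₁ : ∀ r, s₁ < r → r ≤ a₁ → u₁ s₁ < u₁ r ∧ m * u₁ s₁ - x₁ s₁ < m * u₁ r - x₁ r :=
    fun r hr hr' => hb₁' ⟨hr, lt_of_le_of_lt hr' ha₁'.1⟩
  have key₂ : ∀ r, s₂ < r → r ≤ a₂ → u₂ s₂ < u₂ r ∧ x₂ s₂ - m * u₂ s₂ < x₂ r - m * u₂ r :=
    fun r hr hr' => hb₂' ⟨hr, lt_of_le_of_lt hr' ha₂'.1⟩
  have hfin : ∀ σ₁ σ₂, s₁ < σ₁ → σ₁ ≤ a₁ → s₂ < σ₂ → σ₂ ≤ a₂ → u₁ σ₁ = u₂ σ₂ →
      x₁ σ₁ < x₂ σ₂ := by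
    intro σ₁ σ₂ g1 g2 g3 g4 g5
    have e1 := (key₁ σ₁ g1 g2).2
    have e2 := (key₂ σ₂ g3 g4).2
    rw [g5, hu, hx] at e1
    linarith
  rcases le_total (u₁ a₁) (u₂ a₂) with hle | hle
  · have hmem : u₁ a₁ ∈ Icc (u₂ s₂) (u₂ a₂) := ⟨by
      rw [← hu]; exact (key₁ a₁ ha₁ le_rfl).1.le, hle⟩
    obtain ⟨σ, hσ, hσ'⟩ := intermediate_value_Icc ha₂.le hc₂.continuousOn hmem
    have hne : s₂ < σ := by
      rcases eq_or_lt_of_le hσ.1 with h | h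
      · exfalso
        rw [← h, ← hu] at hσ'
        exact absurd hσ' (ne_of_lt (key₁ a₁ ha₁ le_rfl).1)
      · exact h
    exact ⟨a₁, ⟨ha₁, ha₁'.2⟩, σ, ⟨hne, lt_of_le_of_lt hσ.2 ha₂'.2⟩, hσ'.symm,
      hfin a₁ σ ha₁ le_rfl hne hσ.2 hσ'.symm⟩
  · have hmem : u₂ a₂ ∈ Icc (u₁ s₁) (u₁ a₁) := ⟨by
      rw [hu]; exact (key₂ a₂ ha₂ le_rfl).1.le, hle⟩
    obtain ⟨σ, hσ, hσ'⟩ := intermediate_value_Icc ha₁.le hc₁.continuousOn hmem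
    have hne : s₁ < σ := by
      rcases eq_or_lt_of_le hσ.1 with h | h
      · exfalso
        rw [← h, hu] at hσ'
        exact absurd hσ' (ne_of_lt (key₂ a₂ ha₂ le_rfl).1)
      · exact h
    exact ⟨σ, ⟨hne, lt_of_le_of_lt hσ.2 ha₁'.2⟩, a₂, ⟨ha₂, ha₂'.2⟩, hσ',
      hfin σ a₂ hne hσ.2 ha₂ le_rfl hσ'⟩

theorem cross_before {u₁ x₁ u₂ x₂ : ℝ → ℝ} {s₁ s₂ v₁ w₁ v₂ w₂ : ℝ} (hc₁ : Continuous u₁)
    (hc₂ : Continuous u₂) (hu₁ : HasDerivAt u₁ w₁ s₁) (hx₁ : HasDerivAt x₁ v₁ s₁)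
    (hu₂ : HasDerivAt u₂ w₂ s₂) (hx₂ : HasDerivAt x₂ v₂ s₂) (hw₁ : 0 < w₁) (hw₂ : 0 < w₂)
    (hu : u₁ s₁ = u₂ s₂) (hx : x₁ s₁ = x₂ s₂) (hs : v₁ / w₁ < v₂ / w₂) {ε : ℝ} (hε : 0 < ε) :
    ∃ σ₁ ∈ Ioo (s₁ - ε) s₁, ∃ σ₂ ∈ Ioo (s₂ - ε) s₂, u₁ σ₁ = u₂ σ₂ ∧ x₂ σ₂ < x₁ σ₁ := by
  have hneg : ∀ {f : ℝ → ℝ} {f' s : ℝ}, HasDerivAt f f' s →
      HasDerivAt (fun r => f (-r)) (-f') (-s) := by
    intro f f' s hf
    have h1 : HasDerivAt f f' (-(-s)) := by rwa [neg_neg]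
    have := h1.scomp (-s) (hasDerivAt_neg (-s))
    simpa [Function.comp_def] using this
  have d1 : HasDerivAt (fun r => - u₁ (-r)) w₁ (-s₁) :=
    (hneg hu₁).neg.congr_deriv (neg_neg _)
  have d2 : HasDerivAt (fun r => - u₂ (-r)) w₂ (-s₂) :=
    (hneg hu₂).neg.congr_deriv (neg_neg _)
  have hs' : (-v₂) / w₂ < (-v₁) / w₁ := by
    rw [neg_div, neg_div]; exact neg_lt_neg hs
  obtain ⟨σ₂, h2, σ₁, h1, he, hlt⟩ := cross_after (u₁ := fun r => - u₂ (-r))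
    (x₁ := fun r => x₂ (-r)) (u₂ := fun r => - u₁ (-r)) (x₂ := fun r => x₁ (-r))
    (hc₂.comp continuous_neg).neg (hc₁.comp continuous_neg).neg d2 (hneg hx₂) d1 (hneg hx₁)
    hw₂ hw₁ (by simp [hu]) (by simp [hx]) hs' hε
  refine ⟨-σ₁, ⟨by linarith [h1.2], by linarith [h1.1]⟩, -σ₂,
    ⟨by linarith [h2.2], by linarith [h2.1]⟩, ?_, hlt⟩
  simpa using he.symm

namespace CylMetric

/-- Two upward unit states at the same position with the same slope are equal. -/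
theorem eq_of_slope (g : CylMetric) {z z' : State} (hen : g.en z = 1) (hen' : g.en z' = 1)
    (hw : 0 < g.w z) (hw' : 0 < g.w z') (hx : z.1 = z'.1) (ht : z.2.1 = z'.2.1)
    (hs : g.v z / g.w z = g.v z' / g.w z') : z = z' := by
  have e1 : g.v z = (g.v z / g.w z) * g.w z := (div_mul_cancel₀ _ hw.ne').symm
  have e2 : g.v z' = (g.v z / g.w z) * g.w z' := by
    rw [hs]; exact (div_mul_cancel₀ _ hw'.ne').symm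
  set m := g.v z / g.w z with hm
  have p1 := g.p_eq z
  have q1 := g.q_eq z
  have p2 := g.p_eq z'
  have q2 := g.q_eq z'
  unfold en at hen hen'
  rw [← hx, ← ht] at hen' p2 q2
  have k1 : (g.E (z.1, z.2.1) * m ^ 2 + 2 * g.F (z.1, z.2.1) * m + g.G (z.1, z.2.1))
      * g.w z ^ 2 = 1 := by
    rw [← hen, e1]; ring
  have k2 : (g.E (z.1, z.2.1) * m ^ 2 + 2 * g.F (z.1, z.2.1) * m + g.G (z.1, z.2.1))
      * g.w z' ^ 2 = 1 := by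
    rw [← hen', e2]; ring
  have hww : g.w z = g.w z' := by
    have hne : (g.E (z.1, z.2.1) * m ^ 2 + 2 * g.F (z.1, z.2.1) * m + g.G (z.1, z.2.1)) ≠ 0 := by
      intro h0
      rw [h0, zero_mul] at k1
      exact zero_ne_one k1
    have h2 : g.w z ^ 2 = g.w z' ^ 2 := mul_left_cancel₀ hne (k1.trans k2.symm)
    exact (sq_eq_sq₀ hw.le hw'.le).1 h2
  have hvv : g.v z = g.v z' := by rw [e1, e2, hww]
  rw [← hvv, ← hww] at p2 q2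
  ext
  · exact hx
  · exact ht
  · rw [p1, p2]
  · rw [q1, q2]

end CylMetric

end Pool.Agent.CyG
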