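import Mathlib

set_option autoImplicit false

/-!
# Geodesic lines on Riemannian cylinders: definitions of the statement

A Riemannian metric on the cylinder `S = (ℝ/ℤ) × ℝ` is written `E dx² + 2 F dx dt + G dt²` with
smooth coefficients on `ℝ²` which have period `1` in `x`.  Curves in `S` are written through their
lifts `(x(s), t(s))` to `ℝ²`.
-/

namespace Pool.Agent.CyG

open scoped ContDiff

/-- The partial derivative of `f` in the first variable `x`. -/
noncomputable def dx (f : ℝ × ℝ → ℝ) (p : ℝ × ℝ) : ℝ := deriv (fun a => f (a, p.2)) p.1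

/-- The partial derivative of `f` in the second variable `t`. -/
noncomputable def dt (f : ℝ × ℝ → ℝ) (p : ℝ × ℝ) : ℝ := deriv (fun b => f (p.1, b)) p.2

/-- A smooth Riemannian metric `E dx² + 2 F dx dt + G dt²` on the cylinder `(ℝ/ℤ) × ℝ`: its
coefficients are smooth functions of `(x, t) ∈ ℝ²` with period `1` in `x`, and the form is
positive definite at every point. -/
structure CylMetric where
  /-- the coefficient of `dx²` -/
  E : ℝ × ℝ → ℝ
  /-- the coefficient of `2 dx dt` -/
  F : ℝ × ℝ → ℝ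
  /-- the coefficient of `dt²` -/
  G : ℝ × ℝ → ℝ
  smooth_E : ContDiff ℝ ∞ E
  smooth_F : ContDiff ℝ ∞ F
  smooth_G : ContDiff ℝ ∞ G
  per_E : ∀ x t, E (x + 1, t) = E (x, t)
  per_F : ∀ x t, F (x + 1, t) = F (x, t)
  per_G : ∀ x t, G (x + 1, t) = G (x, t)
  pos_E : ∀ p, 0 < E p
  pos_det : ∀ p, 0 < E p * G p - F p ^ 2

namespace CylMetric

/-- The smooth curve `s ↦ (x(s), t(s))` is a (possibly constant) geodesic of the metric, i.e. it
satisfies the Euler-Lagrange equations
`(E x' + F t')' = (E_x x'² + 2 F_x x' t' + G_x t'²) / 2` and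
`(F x' + G t')' = (E_t x'² + 2 F_t x' t' + G_t t'²) / 2`. -/
structure IsGeodesic (g : CylMetric) (x t : ℝ → ℝ) : Prop where
  smooth_x : ContDiff ℝ ∞ x
  smooth_t : ContDiff ℝ ∞ t
  eq_x : ∀ s, deriv (fun r => g.E (x r, t r) * deriv x r + g.F (x r, t r) * deriv t r) s =
    (dx g.E (x s, t s) * deriv x s ^ 2 + 2 * dx g.F (x s, t s) * deriv x s * deriv t s
      + dx g.G (x s, t s) * deriv t s ^ 2) / 2
  eq_t : ∀ s, deriv (fun r => g.F (x r, t r) * deriv x r + g.G (x r, t r) * deriv t r) s =
    (dt g.E (x s, t s) * deriv x s ^ 2 + 2 * dt g.F (x s, t s) * deriv x s * deriv t s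
      + dt g.G (x s, t s) * deriv t s ^ 2) / 2

/-- The metric is (geodesically) complete: for every initial point `(x₀, t₀)` and every initial
velocity `(v₀, w₀)` there is a geodesic with these initial data which is defined on all of `ℝ`. -/
def Complete (g : CylMetric) : Prop :=
  ∀ x₀ t₀ v₀ w₀ : ℝ, ∃ x t : ℝ → ℝ, g.IsGeodesic x t ∧
    x 0 = x₀ ∧ t 0 = t₀ ∧ deriv x 0 = v₀ ∧ deriv t 0 = w₀

/-- `c : ℝ → (ℝ/ℤ) × ℝ` is a geodesic line: it is the projection of a curve `(x(s), t(s))` in `ℝ²`
which is a geodesic parametrised by arc length. -/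
def IsLine (g : CylMetric) (c : ℝ → AddCircle (1 : ℝ) × ℝ) : Prop :=
  ∃ x t : ℝ → ℝ, g.IsGeodesic x t ∧
    (∀ s, g.E (x s, t s) * deriv x s ^ 2 + 2 * g.F (x s, t s) * deriv x s * deriv t s
      + g.G (x s, t s) * deriv t s ^ 2 = 1) ∧
    ∀ s, c s = ((x s : AddCircle (1 : ℝ)), t s)

/-- The bending `E E_t + F E_x - 2 E F_x` of the circles `{t = const}`, a positive multiple of
their geodesic curvature towards decreasing `t`: it is `≥ 0` at a point of a circle `{t = t₀}` if
and only if the circle curves weakly towards `{t < t₀}` there (a geodesic tangent to the circle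
there has `t'' ≥ 0`), and it vanishes along a circle if and only if the circle is a geodesic. -/
noncomputable def bend (g : CylMetric) (p : ℝ × ℝ) : ℝ :=
  g.E p * dt g.E p + g.F p * dx g.E p - 2 * g.E p * dx g.F p

end CylMetric

end Pool.Agent.CyG
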