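import Pool.Agent.CyG.FamUniv

set_option autoImplicit false

/-!
# The start family at a geodesic level `α`
-/

namespace Pool.Agent.CyG

open Set Filter Topology
open scoped ContDiff

namespace CylMetric

variable {g : CylMetric} {φ : ℝ → State → State}

/-- States on the level `α` which are nearly tangent to it: if the time to reach `r` were bounded
as the angle goes to `0`, a limit would be a tangent state whose geodesic reaches `r`, but it
stays in the geodesic level `α`. -/
theorem IsFlow.exists_family_level (h : g.IsFlow φ) {α r : ℝ} (hA : g.Region (Ici α))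
    (hα : ∀ x, g.bend (x, α) = 0) (hr : α < r)
    (hΓ : ∀ t, α < t → t ≤ r → ∃ x, g.bend (x, t) ≠ 0) (n : ℝ) :
    ∃ ζ : ℝ → State, g.IsFamily φ (Ici α) α r n ζ := by
  classical
  -- the states, as a function of `e`, and the level reached at time `s`
  let ζ : ℝ → ℝ → State := fun e a => g.famState α √(1 - e ^ 2) e a
  have hζc : Continuous (fun p : ℝ × ℝ => ζ p.1 p.2) :=
    (g.continuous_famState α).comp
      (f := fun p : ℝ × ℝ => (√(1 - p.1 ^ 2), p.1, p.2)) (by fun_prop)
  have hL : Continuous (fun p : ℝ × (ℝ × ℝ) => (φ p.2.1 (ζ p.1 p.2.2)).2.1) := by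
    have h1 : Continuous (fun p : ℝ × (ℝ × ℝ) => φ p.2.1 (ζ p.1 p.2.2)) :=
      h.continuous.comp (f := fun p : ℝ × (ℝ × ℝ) => (p.2.1, ζ p.1 p.2.2))
        ((by fun_prop : Continuous fun p : ℝ × (ℝ × ℝ) => p.2.1).prodMk
          (hζc.comp (f := fun p : ℝ × (ℝ × ℝ) => (p.1, p.2.2)) (by fun_prop)))
    exact continuous_fst.comp (continuous_snd.comp h1)
  have hK : IsCompact ((Icc (0 : ℝ) n) ×ˢ (Icc (0 : ℝ) 1)) := isCompact_Icc.prod isCompact_Icc
  have hzero : ∀ q ∈ (Icc (0 : ℝ) n) ×ˢ (Icc (0 : ℝ) 1),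
      ∀ᶠ p : ℝ × (ℝ × ℝ) in 𝓝 ((0 : ℝ), q), (φ p.2.1 (ζ p.1 p.2.2)).2.1 < r := by
    intro q _
    have hw0 : g.w (ζ 0 q.2) = 0 := by
      change g.w (g.famState α _ 0 q.2) = 0
      rw [famState_w]; simp
    have hst := h.stay_level (z := ζ 0 q.2) hα hw0 q.1
    have hlt : (φ q.1 (ζ 0 q.2)).2.1 < r := by
      rw [hst.2]; exact hr
    exact hL.continuousAt.eventually (gt_mem_nhds hlt)
  have hev : ∀ᶠ e : ℝ in 𝓝 0, ∀ q ∈ (Icc (0 : ℝ) n) ×ˢ (Icc (0 : ℝ) 1),
      (φ q.1 (ζ e q.2)).2.1 < r :=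
    hK.eventually_forall_of_forall_eventually hzero
  obtain ⟨δ, hδ, hδ'⟩ := Metric.eventually_nhds_iff.1 hev
  set e : ℝ := min (δ / 2) 1 with he
  have he0 : 0 < e := lt_min (by linarith) one_pos
  have he1 : e ≤ 1 := min_le_right _ _
  have heδ : dist e 0 < δ := by
    rw [dist_zero_right, Real.norm_eq_abs, abs_of_pos he0]
    exact lt_of_le_of_lt (min_le_left _ _) (by linarith)
  have hbound := hδ' heδ
  have hen : ∀ a, g.en (ζ e a) = 1 := fun a => by
    change g.en (g.famState α _ e a) = 1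
    rw [famState_en, Real.sq_sqrt (by nlinarith)]
    ring
  have hup : ∀ a, 0 < g.w (ζ e a) := fun a => g.famState_w_pos α _ a he0
  have hper : ∀ a, ζ e (a + 1) = CyG.shift (ζ e a) := fun a => g.famState_per α _ e a
  have hperk : ∀ (k : ℤ) (a : ℝ), ζ e (a + k) = CyG.famShift k (ζ e a) := by
    intro k a
    induction k using Int.induction_on with
    | zero => simp [famShift_zero]
    | succ i ih =>
      rw [famShift_add_one, ← ih, ← hper]
      congr 1
      push_cast
      ring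
    | pred i ih =>
      apply shift_injective
      rw [famShift_sub_one, ← ih, ← hper]
      congr 1
      push_cast
      ring
  refine ⟨fun a => ζ e a, ⟨self_mem_Ici, hr,
    hζc.comp (f := fun a : ℝ => (e, a)) (by fun_prop), fun a => rfl, fun a => rfl, hen, hup,
    hper, fun a => ?_⟩⟩
  obtain ⟨s, hs0, hs⟩ := h.reach hA (hen a) (self_mem_Ici : α ∈ Ici α) (hup a) (r := r)
    hr.le (fun t h1 h2 => hΓ t h1 h2)
  refine ⟨s, hs0, ?_, hs⟩
  by_contra hn
  push Not at hn
  set k : ℤ := ⌊a⌋ with hk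
  have ha : a = Int.fract a + (k : ℝ) := (Int.fract_add_floor a).symm
  have hb := hbound (s, Int.fract a) ⟨⟨hs0, hn.le⟩, ⟨Int.fract_nonneg a, (Int.fract_lt_one a).le⟩⟩
  have hs' : (φ s (ζ e (Int.fract a))).2.1 = r := by
    rw [← hs]
    conv_rhs => rw [ha]
    rw [hperk k (Int.fract a), h.famShift]
    rfl
  simp only at hb
  rw [hs'] at hb
  exact lt_irrefl _ hb

end CylMetric

end Pool.Agent.CyG
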