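import Pool.Agent.CyG.Level

set_option autoImplicit false

/-!
# Upward geodesics reach higher levels below the next geodesic level
-/

namespace Pool.Agent.CyG

open Set Filter Topology
open scoped ContDiff

/-- Translation by the integer `k` in the `x` direction. -/
private def shk (k : ℤ) (z : State) : State := (z.1 + k, z.2)

private theorem shk_add_one (k : ℤ) (z : State) : shk (k + 1) z = shift (shk k z) := by
  simp [shk, shift, add_assoc]

private theorem shift_inj {z z' : State} (h : shift z = shift z') : z = z' := by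
  simp only [shift, Prod.mk.injEq, add_left_inj] at h
  exact Prod.ext h.1 h.2

private theorem shk_zero (z : State) : shk 0 z = z := by simp [shk]

namespace CylMetric

variable {g : CylMetric} {φ : ℝ → State → State} {A : Set ℝ}

private theorem flow_shk (h : g.IsFlow φ) (s : ℝ) (k : ℤ) (z : State) :
    φ s (shk k z) = shk k (φ s z) := by
  induction k using Int.induction_on with
  | zero => rw [shk_zero, shk_zero]
  | succ i ih => rw [shk_add_one, h.shift, ih, shk_add_one]
  | pred i ih =>
    apply shift_inj
    rw [← h.shift, ← shk_add_one, ← shk_add_one, sub_add_cancel, ih]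

private theorem en_shk (g : CylMetric) (k : ℤ) (z : State) : g.en (shk k z) = g.en z := by
  induction k using Int.induction_on with
  | zero => rw [shk_zero]
  | succ i ih => rw [shk_add_one, g.en_shift, ih]
  | pred i ih => rw [← ih, ← g.en_shift, ← shk_add_one, sub_add_cancel]

theorem IsFlow.reach (h : g.IsFlow φ) (hA : g.Region A) {z : State} (hen : g.en z = 1)
    (hz : z.2.1 ∈ A) (hw : 0 < g.w z) {r : ℝ} (hr : z.2.1 ≤ r)
    (hΓ : ∀ t, z.2.1 < t → t ≤ r → ∃ x, g.bend (x, t) ≠ 0) :
    ∃ s, 0 ≤ s ∧ (φ s z).2.1 = r := by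
  by_contra hcon
  push Not at hcon
  have hmono := h.t_strictMonoOn hA hz hw
  have hcont : Continuous fun s => (φ s z).2.1 :=
    continuous_fst.comp (continuous_snd.comp (h.continuous_time z))
  have hlt : ∀ s, 0 ≤ s → (φ s z).2.1 < r := by
    intro s hs
    by_contra hge
    push Not at hge
    have h0 : (φ 0 z).2.1 ≤ r := by rw [h.zero]; exact hr
    obtain ⟨s', hs', hs''⟩ := intermediate_value_Icc hs hcont.continuousOn ⟨h0, hge⟩
    exact hcon s' hs'.1 hs''
  -- the limit of `t`
  set f : ℝ → ℝ := fun s => (φ (max s 0) z).2.1 with hf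
  have hfm : Monotone f := fun a b hab =>
    hmono.monotoneOn (le_max_right a 0) (le_max_right b 0) (max_le_max_right 0 hab)
  have hfb : BddAbove (range f) := by
    refine ⟨r, ?_⟩
    rintro _ ⟨s, rfl⟩
    exact (hlt _ (le_max_right s 0)).le
  set T : ℝ := ⨆ s, f s with hT
  have hlim : Tendsto f atTop (𝓝 T) := tendsto_atTop_ciSup hfm hfb
  have hlim' : Tendsto (fun s => (φ s z).2.1) atTop (𝓝 T) := by
    refine hlim.congr' ?_
    filter_upwards [eventually_ge_atTop (0 : ℝ)] with s hs
    simp only [hf, max_eq_left hs]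
  have hTr : T ≤ r := ciSup_le fun s => (hlt _ (le_max_right s 0)).le
  have hTz : z.2.1 < T := by
    have h1 : f 0 < f 1 := by
      simp only [hf, max_self]
      rw [max_eq_left (zero_le_one' ℝ)]
      exact hmono (self_mem_Ici) (mem_Ici.2 (zero_le_one' ℝ)) one_pos
    have h2 : f 0 = z.2.1 := by simp only [hf, max_self, h.zero]
    have h3 : f 1 ≤ T := le_ciSup hfb 1
    linarith
  -- the shifted states
  set Z : ℕ → State := fun n => shk (-⌊(φ n z).1⌋) (φ n z) with hZ
  have hZK : ∀ n, Z n ∈ {z' : State | z'.1 ∈ Icc (0 : ℝ) 1 ∧ z'.2.1 ∈ Icc z.2.1 r ∧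
      g.en z' = 1} := by
    intro n
    have hn : (0 : ℝ) ≤ n := Nat.cast_nonneg n
    refine ⟨?_, ?_, ?_⟩
    · simp only [hZ, shk, Int.cast_neg]
      constructor
      · linarith [Int.floor_le (φ n z).1]
      · linarith [Int.lt_floor_add_one (φ n z).1]
    · simp only [hZ, shk]
      constructor
      · have := hmono.monotoneOn (self_mem_Ici) (mem_Ici.2 hn) hn
        simpa only [h.zero] using this
      · exact (hlt n hn).le
    · simp only [hZ]
      rw [en_shk, h.en_flow, hen]
  obtain ⟨z', hz', k, hk, hkl⟩ := (g.isCompact_unit 0 1 z.2.1 r).tendsto_subseq hZK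
  have hconst : ∀ s, (φ s z').2.1 = T := by
    intro s
    have h1 : Tendsto (fun j => (φ s (Z (k j))).2.1) atTop (𝓝 (φ s z').2.1) := by
      have hc : Continuous fun y => (φ s y).2.1 :=
        continuous_fst.comp (continuous_snd.comp (h.continuous_state s))
      exact (hc.tendsto z').comp hkl
    have h2 : Tendsto (fun j => (φ s (Z (k j))).2.1) atTop (𝓝 T) := by
      have he : ∀ j, (φ s (Z (k j))).2.1 = (φ (s + (k j : ℝ)) z).2.1 := by
        intro j
        simp only [hZ]
        rw [flow_shk h, h.add]
        rfl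
      simp only [he]
      refine hlim'.comp ?_
      refine tendsto_atTop_add_const_left _ _ ?_
      exact tendsto_natCast_atTop_atTop.comp hk.tendsto_atTop
    exact tendsto_nhds_unique h1 h2
  have hw0 : ∀ s, g.w (φ s z') = 0 := by
    intro s
    have h1 := h.hasDerivAt_t z' s
    have h2 : (fun r => (φ r z').2.1) = fun _ => T := funext hconst
    rw [h2] at h1
    exact h1.unique (hasDerivAt_const s T)
  have hT0 : z'.2.1 = T := by
    have := hconst 0
    rwa [h.zero] at this
  obtain ⟨x, hx⟩ := hΓ T hTz hTr
  refine hx ?_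
  have := h.bend_eq_zero hz'.2.2 (fun s _ => hw0 s) x
  rwa [hT0] at this

end CylMetric

end Pool.Agent.CyG
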