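import Pool.Agent.CyG.Family
import Pool.Agent.CyG.Reach

set_option autoImplicit false

/-!
# The start family when there is no geodesic level below `r`
-/

namespace Pool.Agent.CyG

open Set Filter Topology
open scoped ContDiff

/-- Translation by the integer `k` in the `x` direction. -/
def famShift (k : ℤ) (z : State) : State := (z.1 + k, z.2)

theorem famShift_zero (z : State) : famShift 0 z = z := by
  simp [famShift]

theorem famShift_add_one (k : ℤ) (z : State) : famShift (k + 1) z = shift (famShift k z) := by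
  simp only [famShift, shift, Prod.mk.injEq, and_true]
  push_cast
  ring

theorem famShift_sub_one (k : ℤ) (z : State) : shift (famShift (k - 1) z) = famShift k z := by
  simp only [famShift, shift, Prod.mk.injEq, and_true]
  push_cast
  ring

theorem shift_injective : Function.Injective shift := by
  intro z z' h
  simp only [shift, Prod.mk.injEq, add_left_inj] at h
  exact Prod.ext h.1 h.2

namespace CylMetric

variable {g : CylMetric} {φ : ℝ → State → State}

theorem IsFlow.famShift (h : g.IsFlow φ) (s : ℝ) (k : ℤ) (z : State) :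
    φ s (CyG.famShift k z) = CyG.famShift k (φ s z) := by
  induction k using Int.induction_on with
  | zero => simp only [famShift_zero]
  | succ i ih => rw [famShift_add_one, famShift_add_one, h.shift, ih]
  | pred i ih =>
    apply shift_injective
    rw [← h.shift, famShift_sub_one, famShift_sub_one, ih]

theorem en_famShift (g : CylMetric) (k : ℤ) (z : State) : g.en (CyG.famShift k z) = g.en z := by
  induction k using Int.induction_on with
  | zero => rw [famShift_zero]
  | succ i ih => rw [famShift_add_one, g.en_shift, ih]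
  | pred i ih =>
    rw [← ih, ← famShift_sub_one (-(i : ℤ)) z, g.en_shift]

/-- The unit state at `(a, ℓ)` whose velocity is `c` times the unit tangent plus `e` times the
unit normal of the level. -/
noncomputable def famState (g : CylMetric) (ℓ c e a : ℝ) : State :=
  (a, ℓ, c * √(g.E (a, ℓ)), c * g.F (a, ℓ) / √(g.E (a, ℓ)) + e * √(g.det (a, ℓ)) / √(g.E (a, ℓ)))

theorem famState_w (g : CylMetric) (ℓ c e a : ℝ) :
    g.w (g.famState ℓ c e a) = e * √(g.E (a, ℓ)) / √(g.det (a, ℓ)) := by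
  have hE := g.pos_E (a, ℓ)
  have hD := g.det_pos (a, ℓ)
  have hR : 0 < √(g.E (a, ℓ)) := Real.sqrt_pos.2 hE
  have hS : 0 < √(g.det (a, ℓ)) := Real.sqrt_pos.2 hD
  have hR2 : √(g.E (a, ℓ)) ^ 2 = g.E (a, ℓ) := Real.sq_sqrt hE.le
  have hS2 : √(g.det (a, ℓ)) ^ 2 = g.det (a, ℓ) := Real.sq_sqrt hD.le
  unfold w famState
  simp only
  generalize √(g.E (a, ℓ)) = R at *
  generalize √(g.det (a, ℓ)) = S at *
  rw [← hR2, ← hS2]
  field_simp
  ring

theorem famState_w_pos (g : CylMetric) (ℓ c a : ℝ) {e : ℝ} (he : 0 < e) :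
    0 < g.w (g.famState ℓ c e a) := by
  rw [famState_w]
  have := g.pos_E (a, ℓ)
  have := g.det_pos (a, ℓ)
  positivity

theorem famState_en (g : CylMetric) (ℓ c e a : ℝ) :
    g.en (g.famState ℓ c e a) = c ^ 2 + e ^ 2 := by
  have hw := g.famState_w ℓ c e a
  have hE := g.pos_E (a, ℓ)
  have hD := g.det_pos (a, ℓ)
  have hR : 0 < √(g.E (a, ℓ)) := Real.sqrt_pos.2 hE
  have hS : 0 < √(g.det (a, ℓ)) := Real.sqrt_pos.2 hD
  have hR2 : √(g.E (a, ℓ)) ^ 2 = g.E (a, ℓ) := Real.sq_sqrt hE.le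
  have hS2 : √(g.det (a, ℓ)) ^ 2 = g.det (a, ℓ) := Real.sq_sqrt hD.le
  have hv : g.v (g.famState ℓ c e a)
      = c / √(g.E (a, ℓ)) - e * g.F (a, ℓ) / (√(g.E (a, ℓ)) * √(g.det (a, ℓ))) := by
    have hG : g.G (a, ℓ) * √(g.E (a, ℓ)) ^ 2 = √(g.det (a, ℓ)) ^ 2 + g.F (a, ℓ) ^ 2 := by
      rw [hR2, hS2]; unfold det; ring
    unfold v famState
    simp only
    generalize √(g.E (a, ℓ)) = R at *
    generalize √(g.det (a, ℓ)) = S at *
    rw [← hS2]
    generalize g.G (a, ℓ) = G at *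
    generalize g.F (a, ℓ) = F at *
    have hG' : G = (S ^ 2 + F ^ 2) / R ^ 2 := by rw [eq_div_iff (by positivity)]; exact hG
    rw [hG']
    field_simp
    ring
  have hG : g.G (a, ℓ) * √(g.E (a, ℓ)) ^ 2 = √(g.det (a, ℓ)) ^ 2 + g.F (a, ℓ) ^ 2 := by
    rw [hR2, hS2]; unfold det; ring
  unfold en
  rw [hw, hv]
  change g.E (a, ℓ) * _ ^ 2 + 2 * g.F (a, ℓ) * _ * _ + g.G (a, ℓ) * _ ^ 2 = _
  generalize √(g.E (a, ℓ)) = R at *
  generalize √(g.det (a, ℓ)) = S at *
  rw [← hR2]
  generalize g.G (a, ℓ) = G at *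
  generalize g.F (a, ℓ) = F at *
  have hG' : G = (S ^ 2 + F ^ 2) / R ^ 2 := by rw [eq_div_iff (by positivity)]; exact hG
  rw [hG']
  field_simp
  ring

theorem famState_per (g : CylMetric) (ℓ c e a : ℝ) :
    g.famState ℓ c e (a + 1) = shift (g.famState ℓ c e a) := by
  simp only [famState, shift, g.per_E, g.per_F, g.det_per]

theorem continuous_famState (g : CylMetric) (ℓ : ℝ) :
    Continuous (fun p : ℝ × ℝ × ℝ => g.famState ℓ p.1 p.2.1 p.2.2) := by
  have hpos : Continuous (fun p : ℝ × ℝ × ℝ => (p.2.2, ℓ)) := by fun_prop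
  have hE : Continuous (fun p : ℝ × ℝ × ℝ => g.E (p.2.2, ℓ)) :=
    g.smooth_E.continuous.comp hpos
  have hF : Continuous (fun p : ℝ × ℝ × ℝ => g.F (p.2.2, ℓ)) :=
    g.smooth_F.continuous.comp hpos
  have hG : Continuous (fun p : ℝ × ℝ × ℝ => g.G (p.2.2, ℓ)) :=
    g.smooth_G.continuous.comp hpos
  have hD : Continuous (fun p : ℝ × ℝ × ℝ => g.det (p.2.2, ℓ)) := by
    unfold det
    exact (hE.mul hG).sub (hF.pow 2)
  have hR : Continuous (fun p : ℝ × ℝ × ℝ => √(g.E (p.2.2, ℓ))) := hE.sqrt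
  have hS : Continuous (fun p : ℝ × ℝ × ℝ => √(g.det (p.2.2, ℓ))) := hD.sqrt
  have hR0 : ∀ p : ℝ × ℝ × ℝ, √(g.E (p.2.2, ℓ)) ≠ 0 := fun p =>
    (Real.sqrt_pos.2 (g.pos_E _)).ne'
  have h1 : Continuous (fun p : ℝ × ℝ × ℝ => p.1) := continuous_fst
  have h2 : Continuous (fun p : ℝ × ℝ × ℝ => p.2.1) := by fun_prop
  have h3 : Continuous (fun p : ℝ × ℝ × ℝ => p.2.2) := by fun_prop
  unfold famState
  exact h3.prodMk (continuous_const.prodMk ((h1.mul hR).prodMk
    (((h1.mul hF).div hR hR0).add ((h2.mul hS).div hR hR0))))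

/-- Unit normals on the level `-N`, `N` large: if the time to reach `r` were bounded along a
sequence, a limit of the states at level `r` would reach `-∞` in bounded backward time. -/
theorem IsFlow.exists_family_univ (h : g.IsFlow φ) (hA : g.Region univ) {r : ℝ}
    (hΓ : ∀ t, t ≤ r → ∃ x, g.bend (x, t) ≠ 0) (n : ℝ) :
    ∃ (ℓ : ℝ) (ζ : ℝ → State), g.IsFamily φ univ ℓ r n ζ := by
  classical
  let K : Set State := {z : State | z.1 ∈ Icc (0 : ℝ) 1 ∧ z.2.1 ∈ Icc r r ∧ g.en z = 1}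
  have hK : IsCompact K := isCompact_unit g 0 1 r r
  have hcont : Continuous (fun p : ℝ × State => (φ (-p.1) p.2).2.1) := by
    have h1 : Continuous (fun p : ℝ × State => φ (-p.1) p.2) :=
      h.continuous.comp ((continuous_fst.neg).prodMk continuous_snd)
    exact continuous_fst.comp (continuous_snd.comp h1)
  obtain ⟨C, hC⟩ := ((isCompact_Icc (a := (0 : ℝ)) (b := n)).prod hK).exists_bound_of_continuousOn
    hcont.continuousOn
  set ℓ : ℝ := min (r - 1) (-C - 1) with hℓ
  have hℓr : ℓ < r := lt_of_le_of_lt (min_le_left _ _) (by linarith)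
  have hℓC : ℓ < -C := lt_of_le_of_lt (min_le_right _ _) (by linarith)
  have hcst : Continuous (fun a : ℝ => g.famState ℓ 0 1 a) :=
    (g.continuous_famState ℓ).comp
      (f := fun a : ℝ => ((0 : ℝ), (1 : ℝ), a)) (by fun_prop)
  have hen : ∀ a, g.en (g.famState ℓ 0 1 a) = 1 := fun a => by rw [famState_en]; norm_num
  have hup : ∀ a, 0 < g.w (g.famState ℓ 0 1 a) := fun a => g.famState_w_pos ℓ 0 a one_pos
  refine ⟨ℓ, fun a => g.famState ℓ 0 1 a, ⟨mem_univ _, hℓr, hcst, fun a => rfl, fun a => rfl,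
    hen, hup, fun a => g.famState_per ℓ 0 1 a, fun a => ?_⟩⟩
  obtain ⟨s, hs0, hs⟩ := h.reach hA (hen a) (mem_univ _) (hup a) (r := r) hℓr.le
    (fun t _ ht => hΓ t ht)
  refine ⟨s, hs0, ?_, hs⟩
  by_contra hn
  push Not at hn
  set Z : State := φ s (g.famState ℓ 0 1 a) with hZ
  set k : ℤ := -⌊Z.1⌋ with hk
  have hZK : CyG.famShift k Z ∈ K := by
    refine ⟨⟨?_, ?_⟩, ⟨?_, ?_⟩, ?_⟩
    · change 0 ≤ Z.1 + (k : ℝ)
      rw [hk]; push_cast
      linarith [Int.floor_le Z.1]
    · change Z.1 + (k : ℝ) ≤ 1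
      rw [hk]; push_cast
      linarith [Int.lt_floor_add_one Z.1]
    · exact hs.ge
    · exact hs.le
    · rw [en_famShift, hZ, h.en_flow, hen]
  have hb := hC (s, CyG.famShift k Z) ⟨⟨hs0, hn.le⟩, hZK⟩
  have hback : φ (-s) (CyG.famShift k Z) = CyG.famShift k (g.famState ℓ 0 1 a) := by
    rw [h.famShift, hZ, ← h.add, neg_add_cancel, h.zero]
  simp only [hback] at hb
  change ‖ℓ‖ ≤ C at hb
  rw [Real.norm_eq_abs] at hb
  have := neg_abs_le ℓ
  linarith

end CylMetric

end Pool.Agent.CyG
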