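import Pool.Agent.CyG.Field

set_option autoImplicit false

/-!
# Families of upward unit states on one level, and pairs of geodesics that do not meet
-/

namespace Pool.Agent.CyG

open Set Filter Topology
open scoped ContDiff

namespace CylMetric

/-- `ζ a` is an upward unit state at the point `(a, ℓ)`, continuous and equivariant in `a`, whose
geodesic needs at least the time `n` to reach the level `r`. -/
structure IsFamily (g : CylMetric) (φ : ℝ → State → State) (A : Set ℝ) (ℓ r n : ℝ)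
    (ζ : ℝ → State) : Prop where
  mem : ℓ ∈ A
  lt : ℓ < r
  cont : Continuous ζ
  x_eq : ∀ a, (ζ a).1 = a
  t_eq : ∀ a, (ζ a).2.1 = ℓ
  en_eq : ∀ a, g.en (ζ a) = 1
  up : ∀ a, 0 < g.w (ζ a)
  per : ∀ a, ζ (a + 1) = shift (ζ a)
  reach : ∀ a, ∃ s, 0 ≤ s ∧ n ≤ s ∧ (φ s (ζ a)).2.1 = r

/-- Two geodesics through the level `r`, at `x`-distance `1/2` there, which go upwards after the
time `-n` and whose lifts to the plane keep `x`-distances in `(0, 1)` on common levels. -/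
structure IsPair (g : CylMetric) (φ : ℝ → State → State) (A : Set ℝ) (r n : ℝ)
    (z₁ z₂ : State) : Prop where
  en₁ : g.en z₁ = 1
  en₂ : g.en z₂ = 1
  t₁ : z₁.2.1 = r
  t₂ : z₂.2.1 = r
  x_eq : z₂.1 = z₁.1 + 1 / 2
  up₁ : ∀ s, -n ≤ s → 0 < g.w (φ s z₁)
  up₂ : ∀ s, -n ≤ s → 0 < g.w (φ s z₂)
  mem₁ : ∀ s, -n ≤ s → (φ s z₁).2.1 ∈ A
  mem₂ : ∀ s, -n ≤ s → (φ s z₂).2.1 ∈ A
  sep : ∀ s s', -n ≤ s → -n ≤ s' → (φ s z₁).2.1 = (φ s' z₂).2.1 →
    0 < (φ s' z₂).1 - (φ s z₁).1 ∧ (φ s' z₂).1 - (φ s z₁).1 < 1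

end CylMetric

end Pool.Agent.CyG
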