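import Pool.Agent.CyG.Defs

set_option autoImplicit false

/-!
# The geodesic vector field in the variables `(x, t, p, q)`, `p = E x' + F t'`, `q = F x' + G t'`
-/

namespace Pool.Agent.CyG

open scoped ContDiff

/-- The states `(x, t, p, q)`. -/
abbrev State := ℝ × ℝ × ℝ × ℝ

/-- The position of a state. -/
def pos (z : State) : ℝ × ℝ := (z.1, z.2.1)

/-- Translation by `1` in the `x` direction. -/
def shift (z : State) : State := (z.1 + 1, z.2)

theorem contDiff_dx {f : ℝ × ℝ → ℝ} (hf : ContDiff ℝ ∞ f) : ContDiff ℝ ∞ (dx f) := by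
  have h : dx f = fun p => fderiv ℝ f p (1, 0) := by
    funext p
    have h1 : HasDerivAt (fun a : ℝ => (a, p.2)) ((1 : ℝ), (0 : ℝ)) p.1 :=
      (hasDerivAt_id p.1).prodMk (hasDerivAt_const p.1 p.2)
    have h2 : HasFDerivAt f (fderiv ℝ f p) (p.1, p.2) :=
      (hf.differentiable (by simp) p).hasFDerivAt
    exact (h2.comp_hasDerivAt p.1 h1).deriv
  rw [h]
  exact (hf.fderiv_right (m := ∞) (by simp)).clm_apply contDiff_const

theorem contDiff_dt {f : ℝ × ℝ → ℝ} (hf : ContDiff ℝ ∞ f) : ContDiff ℝ ∞ (dt f) := by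
  have h : dt f = fun p => fderiv ℝ f p (0, 1) := by
    funext p
    have h1 : HasDerivAt (fun b : ℝ => (p.1, b)) ((0 : ℝ), (1 : ℝ)) p.2 :=
      (hasDerivAt_const p.2 p.1).prodMk (hasDerivAt_id p.2)
    have h2 : HasFDerivAt f (fderiv ℝ f p) (p.1, p.2) :=
      (hf.differentiable (by simp) p).hasFDerivAt
    exact (h2.comp_hasDerivAt p.2 h1).deriv
  rw [h]
  exact (hf.fderiv_right (m := ∞) (by simp)).clm_apply contDiff_const

/-- The derivative of `f` along a differentiable curve. -/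
theorem hasDerivAt_comp_curve {f : ℝ × ℝ → ℝ} (hf : ContDiff ℝ ∞ f) {x t : ℝ → ℝ} {x' t' s : ℝ}
    (hx : HasDerivAt x x' s) (ht : HasDerivAt t t' s) :
    HasDerivAt (fun r => f (x r, t r)) (dx f (x s, t s) * x' + dt f (x s, t s) * t') s := by
  have hd : HasFDerivAt f (fderiv ℝ f (x s, t s)) (x s, t s) :=
    (hf.differentiable (by simp) _).hasFDerivAt
  have h := hd.comp_hasDerivAt s (hx.prodMk ht)
  have e1 : dx f (x s, t s) = fderiv ℝ f (x s, t s) (1, 0) := by
    have h1 : HasDerivAt (fun a : ℝ => (a, t s)) ((1 : ℝ), (0 : ℝ)) (x s) :=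
      (hasDerivAt_id _).prodMk (hasDerivAt_const _ _)
    exact (hd.comp_hasDerivAt (x s) h1).deriv
  have e2 : dt f (x s, t s) = fderiv ℝ f (x s, t s) (0, 1) := by
    have h1 : HasDerivAt (fun b : ℝ => (x s, b)) ((0 : ℝ), (1 : ℝ)) (t s) :=
      (hasDerivAt_const _ _).prodMk (hasDerivAt_id _)
    exact (hd.comp_hasDerivAt (t s) h1).deriv
  have e3 : ((x', t') : ℝ × ℝ) = x' • ((1 : ℝ), (0 : ℝ)) + t' • ((0 : ℝ), (1 : ℝ)) := by simp
  rw [e3, map_add, map_smul, map_smul, ← e1, ← e2] at h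
  rw [smul_eq_mul, smul_eq_mul, mul_comm x', mul_comm t'] at h
  exact h

theorem dx_per {f : ℝ × ℝ → ℝ} (hf : ∀ x t, f (x + 1, t) = f (x, t)) (x t : ℝ) :
    dx f (x + 1, t) = dx f (x, t) := by
  change deriv (fun a => f (a, t)) (x + 1) = deriv (fun a => f (a, t)) x
  rw [← deriv_comp_add_const (f := fun a => f (a, t)) 1 x]
  congr 1
  funext a
  exact hf a t

theorem dt_per {f : ℝ × ℝ → ℝ} (hf : ∀ x t, f (x + 1, t) = f (x, t)) (x t : ℝ) :
    dt f (x + 1, t) = dt f (x, t) := by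
  change deriv (fun b => f (x + 1, b)) t = deriv (fun b => f (x, b)) t
  simp only [hf]

namespace CylMetric

variable (g : CylMetric)

/-- The determinant `E G - F²`. -/
def det (p : ℝ × ℝ) : ℝ := g.E p * g.G p - g.F p ^ 2

theorem det_pos (p : ℝ × ℝ) : 0 < g.det p := g.pos_det p

theorem det_ne (p : ℝ × ℝ) : g.det p ≠ 0 := (g.pos_det p).ne'

/-- The `x`-velocity `x' = (G p - F q) / (E G - F²)` of a state. -/
noncomputable def v (z : State) : ℝ :=
  (g.G (z.1, z.2.1) * z.2.2.1 - g.F (z.1, z.2.1) * z.2.2.2) / g.det (z.1, z.2.1)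

/-- The `t`-velocity `t' = (E q - F p) / (E G - F²)` of a state. -/
noncomputable def w (z : State) : ℝ :=
  (g.E (z.1, z.2.1) * z.2.2.2 - g.F (z.1, z.2.1) * z.2.2.1) / g.det (z.1, z.2.1)

/-- The geodesic vector field. -/
noncomputable def X (z : State) : State :=
  (g.v z, g.w z,
    (dx g.E (z.1, z.2.1) * g.v z ^ 2 + 2 * dx g.F (z.1, z.2.1) * g.v z * g.w z
      + dx g.G (z.1, z.2.1) * g.w z ^ 2) / 2,
    (dt g.E (z.1, z.2.1) * g.v z ^ 2 + 2 * dt g.F (z.1, z.2.1) * g.v z * g.w z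
      + dt g.G (z.1, z.2.1) * g.w z ^ 2) / 2)

/-- The squared speed `E x'² + 2 F x' t' + G t'²` of a state. -/
noncomputable def en (z : State) : ℝ :=
  g.E (z.1, z.2.1) * g.v z ^ 2 + 2 * g.F (z.1, z.2.1) * g.v z * g.w z
    + g.G (z.1, z.2.1) * g.w z ^ 2

/-- `φ s z` is the state at time `s` of the geodesic with initial state `z`. -/
structure IsFlow (φ : ℝ → State → State) : Prop where
  zero : ∀ z, φ 0 z = z
  deriv : ∀ z s, HasDerivAt (fun r => φ r z) (g.X (φ s z)) s

/-- The levels in `A` bend upwards, and `A` is upward closed. -/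
structure Region (A : Set ℝ) : Prop where
  closed : IsClosed A
  upper : ∀ t ∈ A, ∀ t', t ≤ t' → t' ∈ A
  bend : ∀ x, ∀ t ∈ A, 0 ≤ g.bend (x, t)

theorem contDiff_E : ContDiff ℝ ∞ (fun z : State => g.E (z.1, z.2.1)) :=
  g.smooth_E.comp (contDiff_fst.prodMk (contDiff_fst.comp contDiff_snd))

theorem contDiff_F : ContDiff ℝ ∞ (fun z : State => g.F (z.1, z.2.1)) :=
  g.smooth_F.comp (contDiff_fst.prodMk (contDiff_fst.comp contDiff_snd))

theorem contDiff_G : ContDiff ℝ ∞ (fun z : State => g.G (z.1, z.2.1)) :=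
  g.smooth_G.comp (contDiff_fst.prodMk (contDiff_fst.comp contDiff_snd))

theorem contDiff_det : ContDiff ℝ ∞ (fun z : State => g.det (z.1, z.2.1)) :=
  (g.contDiff_E.mul g.contDiff_G).sub (g.contDiff_F.pow 2)

theorem contDiff_v : ContDiff ℝ ∞ g.v := by
  have hp : ContDiff ℝ ∞ (fun z : State => z.2.2.1) := by fun_prop
  have hq : ContDiff ℝ ∞ (fun z : State => z.2.2.2) := by fun_prop
  exact ((g.contDiff_G.mul hp).sub (g.contDiff_F.mul hq)).div g.contDiff_det
    (fun z => g.det_ne _)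

theorem contDiff_w : ContDiff ℝ ∞ g.w := by
  have hp : ContDiff ℝ ∞ (fun z : State => z.2.2.1) := by fun_prop
  have hq : ContDiff ℝ ∞ (fun z : State => z.2.2.2) := by fun_prop
  exact ((g.contDiff_E.mul hq).sub (g.contDiff_F.mul hp)).div g.contDiff_det
    (fun z => g.det_ne _)

theorem continuous_v : Continuous g.v := g.contDiff_v.continuous

theorem continuous_w : Continuous g.w := g.contDiff_w.continuous

theorem contDiff_X : ContDiff ℝ ∞ g.X := by
  have hpos : ContDiff ℝ ∞ (fun z : State => (z.1, z.2.1)) :=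
    contDiff_fst.prodMk (contDiff_fst.comp contDiff_snd)
  have h1 : ∀ f : ℝ × ℝ → ℝ, ContDiff ℝ ∞ f → ContDiff ℝ ∞ (fun z : State => f (z.1, z.2.1)) :=
    fun f hf => hf.comp hpos
  have hv := g.contDiff_v
  have hw := g.contDiff_w
  have hxE := h1 _ (contDiff_dx g.smooth_E)
  have hxF := h1 _ (contDiff_dx g.smooth_F)
  have hxG := h1 _ (contDiff_dx g.smooth_G)
  have htE := h1 _ (contDiff_dt g.smooth_E)
  have htF := h1 _ (contDiff_dt g.smooth_F)
  have htG := h1 _ (contDiff_dt g.smooth_G)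
  refine hv.prodMk (hw.prodMk (ContDiff.prodMk ?_ ?_))
  · exact (((hxE.mul (hv.pow 2)).add (((contDiff_const.mul hxF).mul hv).mul hw)).add
      (hxG.mul (hw.pow 2))).div_const 2
  · exact (((htE.mul (hv.pow 2)).add (((contDiff_const.mul htF).mul hv).mul hw)).add
      (htG.mul (hw.pow 2))).div_const 2

theorem contDiff_en : ContDiff ℝ ∞ g.en := by
  have hv := g.contDiff_v
  have hw := g.contDiff_w
  exact ((g.contDiff_E.mul (hv.pow 2)).add (((contDiff_const.mul g.contDiff_F).mul hv).mul hw)).add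
      (g.contDiff_G.mul (hw.pow 2))

theorem continuous_en : Continuous g.en := g.contDiff_en.continuous

/-- `p = E v + F w`. -/
theorem p_eq (z : State) : z.2.2.1 = g.E (z.1, z.2.1) * g.v z + g.F (z.1, z.2.1) * g.w z := by
  have h := g.det_ne (z.1, z.2.1)
  unfold v w
  rw [mul_div_assoc', mul_div_assoc', ← add_div, eq_div_iff h]
  unfold det
  ring

/-- `q = F v + G w`. -/
theorem q_eq (z : State) : z.2.2.2 = g.F (z.1, z.2.1) * g.v z + g.G (z.1, z.2.1) * g.w z := by
  have h := g.det_ne (z.1, z.2.1)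
  unfold v w
  rw [mul_div_assoc', mul_div_assoc', ← add_div, eq_div_iff h]
  unfold det
  ring

theorem det_per (x t : ℝ) : g.det (x + 1, t) = g.det (x, t) := by
  simp only [det, g.per_E, g.per_F, g.per_G]

theorem bend_per (x t : ℝ) : g.bend (x + 1, t) = g.bend (x, t) := by
  simp only [CylMetric.bend, g.per_E, g.per_F, dx_per g.per_E, dx_per g.per_F, dt_per g.per_E]

theorem v_shift (z : State) : g.v (shift z) = g.v z := by
  simp only [v, shift, g.per_F, g.per_G, g.det_per]

theorem w_shift (z : State) : g.w (shift z) = g.w z := by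
  simp only [w, shift, g.per_E, g.per_F, g.det_per]

theorem en_shift (z : State) : g.en (shift z) = g.en z := by
  simp only [en, g.v_shift, g.w_shift]
  simp only [shift, g.per_E, g.per_F, g.per_G]

theorem X_shift (z : State) : g.X (shift z) = g.X z := by
  simp only [X, g.v_shift, g.w_shift]
  simp only [shift, dx_per g.per_E, dx_per g.per_F, dx_per g.per_G, dt_per g.per_E,
    dt_per g.per_F, dt_per g.per_G]

end CylMetric

end Pool.Agent.CyG
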