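import Pool.Agent.CyG.Level
import Pool.Agent.CyG.FamUniv

set_option autoImplicit false

/-!
# All levels are geodesics: upward geodesics go upward forever, and nearly tangent geodesics
-/

namespace Pool.Agent.CyG

open Set Filter Topology
open scoped ContDiff

namespace CylMetric

variable {g : CylMetric} {φ : ℝ → State → State}

theorem IsFlow.w_pos_of_flat (h : g.IsFlow φ) (hb : ∀ p, g.bend p = 0) {z : State}
    (hw : 0 < g.w z) (s : ℝ) : 0 < g.w (φ s z) := by
  obtain ⟨m, hm, hder⟩ := h.exists_factor z
  have hconst := is_const_of_deriv_eq_zero (fun s => (hder s).differentiableAt)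
    (fun s => by rw [(hder s).deriv, hb]; ring) s 0
  simp only [h.zero] at hconst
  rw [← g.y_pos_iff]
  have h1 : 0 < g.y z * m 0 := mul_pos ((g.y_pos_iff z).2 hw) (hm 0)
  rw [← hconst] at h1
  exact (mul_pos_iff_of_pos_right (hm s)).1 h1

end CylMetric

end Pool.Agent.CyG
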