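import Pool.Agent.CyG.Top

set_option autoImplicit false

/-!
# The topological lemma for two pairs of open sets exchanged by `(x, m) ↦ (x + 1/2, -m)`
-/

namespace Pool.Agent.CyG

open Set Filter Topology

private theorem four_isometry : Isometry fun p : ℝ × ℝ => (p.1 + 1 / 2, -p.2) := by
  refine Isometry.of_dist_eq fun p q => ?_
  rw [Prod.dist_eq, Prod.dist_eq]
  simp only [dist_add_right, dist_neg_neg]

private theorem four_image {A B : Set (ℝ × ℝ)} (h : ∀ x m, (x, m) ∈ A ↔ (x + 1 / 2, -m) ∈ B) :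
    (fun p : ℝ × ℝ => (p.1 + 1 / 2, -p.2)) '' Aᶜ = Bᶜ := by
  ext ⟨x, m⟩
  constructor
  · rintro ⟨⟨y, n⟩, hy, he⟩
    rw [← he]
    exact fun hB => hy ((h y n).2 hB)
  · intro hx
    refine ⟨(x - 1 / 2, -m), fun hA => hx ?_, ?_⟩
    · have := (h (x - 1 / 2) (-m)).1 hA
      simpa using this
    · simp

theorem exists_not_mem_four {M : ℝ} (hM : 0 < M) {P Q P' Q' : Set (ℝ × ℝ)} (hP : IsOpen P)
    (hQ : IsOpen Q) (hP' : IsOpen P') (hQ' : IsOpen Q') (hPQ : Disjoint P Q)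
    (hPQ' : Disjoint P' Q') (h1 : ∀ x m, (x, m) ∈ P ↔ (x + 1 / 2, -m) ∈ Q)
    (h2 : ∀ x m, (x, m) ∈ Q ↔ (x + 1 / 2, -m) ∈ P)
    (h3 : ∀ x m, (x, m) ∈ P' ↔ (x + 1 / 2, -m) ∈ Q')
    (h4 : ∀ x m, (x, m) ∈ Q' ↔ (x + 1 / 2, -m) ∈ P') (h0 : ∀ x, (x, -M) ∈ P') :
    ∃ x m, (x, m) ∉ P ∧ (x, m) ∉ Q ∧ (x, m) ∉ P' ∧ (x, m) ∉ Q' := by
  have hM0 : M ≠ 0 := hM.ne'
  have hQne : (0 + 1 / 2, - -M) ∈ Q' := (h3 0 (-M)).1 (h0 0)
  have hP'c : (P'ᶜ).Nonempty := ⟨_, fun h => (Set.disjoint_left.1 hPQ') h hQne⟩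
  have hQ'c : (Q'ᶜ).Nonempty := ⟨_, (Set.disjoint_left.1 hPQ') (h0 0)⟩
  set f0 : ℝ × ℝ → ℝ := fun q => Metric.infDist q Q'ᶜ - Metric.infDist q P'ᶜ with hf0
  have hf0c : Continuous f0 :=
    (Metric.continuous_infDist_pt _).sub (Metric.continuous_infDist_pt _)
  have hf0odd : ∀ x m, f0 (x + 1 / 2, -m) = - f0 (x, m) := by
    intro x m
    have e1 := Metric.infDist_image (x := (x, m)) (t := P'ᶜ) four_isometry
    have e2 := Metric.infDist_image (x := (x, m)) (t := Q'ᶜ) four_isometry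
    rw [four_image h3] at e1
    rw [four_image h4] at e2
    simp only at e1 e2
    simp only [hf0]
    rw [e1, e2]
    ring
  have hnegP : ∀ q ∈ P', f0 q < 0 := by
    intro q hq
    have e1 : Metric.infDist q Q'ᶜ = 0 :=
      Metric.infDist_zero_of_mem ((Set.disjoint_left.1 hPQ') hq)
    have e2 : 0 < Metric.infDist q P'ᶜ :=
      (hP'.isClosed_compl.notMem_iff_infDist_pos hP'c).1 (fun h => h hq)
    simp only [hf0]
    linarith
  have hposQ : ∀ q ∈ Q', 0 < f0 q := by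
    intro q hq
    have e1 : Metric.infDist q P'ᶜ = 0 :=
      Metric.infDist_zero_of_mem ((Set.disjoint_right.1 hPQ') hq)
    have e2 : 0 < Metric.infDist q Q'ᶜ :=
      (hQ'.isClosed_compl.notMem_iff_infDist_pos hQ'c).1 (fun h => h hq)
    simp only [hf0]
    linarith
  set T : ℝ × ℝ → ℝ × ℝ := fun p => (p.1 + p.2 / 2, M * (2 * p.2 - 1)) with hT
  have hTc : Continuous T := by
    rw [hT]
    fun_prop
  have hTg : ∀ a d, T (a + d, 1 - d) = ((T (a, d)).1 + 1 / 2, -(T (a, d)).2) := by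
    intro a d
    simp only [hT, Prod.mk.injEq]
    constructor <;> ring
  obtain ⟨a, d, -, hz, hnP, hnQ⟩ := exists_zero_not_mem (f := fun a d => f0 (T (a, d)))
    (hf0c.comp hTc)
    (fun a d => by
      show f0 (T (a + d, 1 - d)) = - f0 (T (a, d))
      rw [hTg, hf0odd])
    (fun a => by
      have : T (a, 0) = (a, -M) := by
        simp only [hT, Prod.mk.injEq]
        constructor <;> ring
      show f0 (T (a, 0)) < 0
      rw [this]
      exact hnegP _ (h0 a))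
    (P := T ⁻¹' P) (Q := T ⁻¹' Q) (hP.preimage hTc) (hQ.preimage hTc)
    (hPQ.preimage T)
    (fun a d => by
      show T (a, d) ∈ P ↔ T (a + d, 1 - d) ∈ Q
      rw [hTg]
      exact h1 _ _)
    (fun a d => by
      show T (a, d) ∈ Q ↔ T (a + d, 1 - d) ∈ P
      rw [hTg]
      exact h2 _ _)
  refine ⟨(T (a, d)).1, (T (a, d)).2, hnP, hnQ, fun h => ?_, fun h => ?_⟩
  · exact (hnegP _ h).ne hz
  · exact (hposQ _ h).ne' hz

end Pool.Agent.CyG
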