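import Pool.Agent.CyG.Flat

set_option autoImplicit false

/-!
# All levels are geodesics: nearly tangent geodesics
-/

namespace Pool.Agent.CyG

open Set Filter Topology
open scoped ContDiff

/-- A continuous function with `c ≤ |f|` and `0 < f 0` is `≥ c`. -/
private theorem tangent_sign {f : ℝ → ℝ} (hf : Continuous f) {c : ℝ} (hc : 0 < c)
    (h : ∀ s, c ≤ |f s|) (h0 : 0 < f 0) (s : ℝ) : c ≤ f s := by
  have hpos : 0 < f s := by
    by_contra hn
    push Not at hn
    have h1 : (0 : ℝ) ∈ uIcc (f 0) (f s) := by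
      rw [uIcc_of_ge (hn.trans h0.le)]
      exact ⟨hn, h0.le⟩
    obtain ⟨u, -, hu⟩ := intermediate_value_uIcc (a := (0 : ℝ)) (b := s) hf.continuousOn h1
    have h2 := h u
    rw [hu, abs_zero] at h2
    linarith
  have := h s
  rwa [abs_of_pos hpos] at this

/-- A function with derivative at least `c` grows at least with speed `c`. -/
private theorem tangent_growth {f f' : ℝ → ℝ} (hf : ∀ s, HasDerivAt f (f' s) s) {c : ℝ}
    (h : ∀ s, c ≤ f' s) {a b : ℝ} (hab : a ≤ b) : c * (b - a) ≤ f b - f a := by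
  have hm : Monotone (fun s => f s - c * s) := by
    refine monotone_of_deriv_nonneg (fun s => ?_) (fun s => ?_)
    · exact ((hf s).sub ((hasDerivAt_id s).const_mul c)).differentiableAt
    · have h1 := ((hf s).sub ((hasDerivAt_id s).const_mul c)).deriv
      simp only [id, mul_one] at h1
      have h2 : deriv (fun s => f s - c * s) s = f' s - c := h1
      rw [h2]
      linarith [h s]
  have := hm hab
  simp only at this
  linarith

namespace CylMetric

variable {g : CylMetric} {φ : ℝ → State → State}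

/-- The coefficient `E` is bounded on a level. -/
private theorem tangent_E_le (g : CylMetric) (r : ℝ) : ∃ C : ℝ, 0 < C ∧ ∀ x, g.E (x, r) ≤ C := by
  have hc : Continuous fun x : ℝ => g.E (x, r) :=
    g.smooth_E.continuous.comp (by fun_prop : Continuous fun x : ℝ => (x, r))
  obtain ⟨C, hC⟩ := (isCompact_Icc (a := (0 : ℝ)) (b := 1)).exists_bound_of_continuousOn
    hc.continuousOn
  have hper : Function.Periodic (fun x : ℝ => g.E (x, r)) 1 := fun x => g.per_E x r
  have hle : ∀ x, g.E (x, r) ≤ C := by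
    intro x
    have h1 : g.E (x - ⌊x⌋, r) = g.E (x, r) := by
      have := hper.sub_int_mul_eq (x := x) ⌊x⌋
      simpa using this
    have h2 : x - ⌊x⌋ ∈ Icc (0 : ℝ) 1 :=
      ⟨by linarith [Int.floor_le x], by linarith [Int.lt_floor_add_one x]⟩
    have h3 := hC _ h2
    rw [Real.norm_eq_abs] at h3
    rw [← h1]
    exact (le_abs_self _).trans h3
  exact ⟨C, (g.pos_E (0, r)).trans_le (hle 0), hle⟩

/-- The velocity of a tangent state on a geodesic level is bounded below. -/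
private theorem tangent_abs_v (h : g.IsFlow φ) {r : ℝ} (hb : ∀ x, g.bend (x, r) = 0) {c : ℝ}
    (hc : 0 < c) (hcE : ∀ x, g.E (x, r) * c ^ 2 ≤ 1) {z : State} (hz : z.2.1 = r)
    (hw : g.w z = 0) (hen : g.en z = 1) (s : ℝ) : c ≤ |g.v (φ s z)| := by
  obtain ⟨h1, h2⟩ := h.stay_level (z := z) (by rw [hz]; exact hb) hw s
  have h3 := h.en_flow s z
  rw [hen] at h3
  unfold en at h3
  rw [h1, h2, hz] at h3
  have h4 := hcE (φ s z).1
  have hE := g.pos_E ((φ s z).1, r)
  have h5 : c ^ 2 ≤ g.v (φ s z) ^ 2 := by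
    have h6 : g.E ((φ s z).1, r) * c ^ 2 ≤ g.E ((φ s z).1, r) * g.v (φ s z) ^ 2 := by
      linarith
    exact le_of_mul_le_mul_left h6 hE
  have h7 := sq_le_sq.1 h5
  rwa [abs_of_pos hc] at h7

private theorem famState_v_zero (g : CylMetric) (r c x : ℝ) :
    g.v (g.famState r c 0 x) = c / √(g.E (x, r)) := by
  have hE := g.pos_E (x, r)
  have hR : 0 < √(g.E (x, r)) := Real.sqrt_pos.2 hE
  have hR2 : √(g.E (x, r)) ^ 2 = g.E (x, r) := Real.sq_sqrt hE.le
  have hw : g.w (g.famState r c 0 x) = 0 := by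
    rw [famState_w]; simp
  have h1 := g.p_eq (g.famState r c 0 x)
  rw [hw, mul_zero, add_zero] at h1
  have h2 : c * √(g.E (x, r)) = g.E (x, r) * g.v (g.famState r c 0 x) := h1
  rw [eq_div_iff hR.ne']
  have h3 : √(g.E (x, r)) * (g.v (g.famState r c 0 x) * √(g.E (x, r))) =
      √(g.E (x, r)) * c := by
    calc √(g.E (x, r)) * (g.v (g.famState r c 0 x) * √(g.E (x, r)))
        = √(g.E (x, r)) ^ 2 * g.v (g.famState r c 0 x) := by ring
      _ = g.E (x, r) * g.v (g.famState r c 0 x) := by rw [hR2]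
      _ = c * √(g.E (x, r)) := h2.symm
      _ = √(g.E (x, r)) * c := mul_comm _ _
  exact mul_left_cancel₀ hR.ne' h3

private theorem famState_int (g : CylMetric) (r c e : ℝ) (k : ℤ) (a : ℝ) :
    g.famState r c e (a + k) = CyG.famShift k (g.famState r c e a) := by
  induction k using Int.induction_on with
  | zero => simp [famShift_zero]
  | succ i ih =>
    rw [famShift_add_one, ← ih, ← famState_per]
    congr 1
    push_cast
    ring
  | pred i ih =>
    apply shift_injective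
    rw [famShift_sub_one, ← ih, ← famState_per]
    congr 1
    push_cast
    ring

/-- A geodesic which starts nearly tangent to the level `r` to the right runs to the right for a
time in which it passes more than a full turn, in both time directions, uniformly in the starting
point; similarly to the left. -/
theorem IsFlow.exists_tangent (h : g.IsFlow φ) {r : ℝ} (hb : ∀ x, g.bend (x, r) = 0) :
    ∃ M S : ℝ, 0 < M ∧ M < 1 ∧ 0 < S ∧ ∀ x,
      (∀ s ∈ Icc (-S) S, 0 < g.v (φ s (g.famState r M (√(1 - M ^ 2)) x))) ∧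
      (∀ s ∈ Icc (-S) S, g.v (φ s (g.famState r (-M) (√(1 - M ^ 2)) x)) < 0) ∧
      x + 1 < (φ S (g.famState r M (√(1 - M ^ 2)) x)).1 ∧
      (φ (-S) (g.famState r M (√(1 - M ^ 2)) x)).1 < x - 1 ∧
      (φ S (g.famState r (-M) (√(1 - M ^ 2)) x)).1 < x - 1 ∧
      x + 1 < (φ (-S) (g.famState r (-M) (√(1 - M ^ 2)) x)).1 := by
  obtain ⟨C, hC0, hC⟩ := tangent_E_le g r
  -- the minimal speed
  set c : ℝ := 1 / √C with hc
  have hsC : 0 < √C := Real.sqrt_pos.2 hC0
  have hc0 : 0 < c := by positivity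
  have hc2 : c ^ 2 = 1 / C := by
    rw [hc, div_pow, one_pow, Real.sq_sqrt hC0.le]
  have hcE : ∀ x, g.E (x, r) * c ^ 2 ≤ 1 := by
    intro x
    rw [hc2, mul_one_div, div_le_one hC0]
    exact hC x
  set S : ℝ := 2 / c with hS
  have hS0 : 0 < S := by positivity
  have hcS : c * S = 2 := by
    rw [hS]; field_simp
  -- the two families
  let ζ : ℝ → ℝ → ℝ → State := fun σ M x => g.famState r (σ * M) (√(1 - M ^ 2)) x
  have hζc : ∀ σ, Continuous (fun p : ℝ × ℝ => ζ σ p.1 p.2) := fun σ =>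
    (g.continuous_famState r).comp
      (f := fun p : ℝ × ℝ => (σ * p.1, √(1 - p.1 ^ 2), p.2)) (by fun_prop)
  have hL : ∀ σ, Continuous (fun p : ℝ × (ℝ × ℝ) => φ p.2.1 (ζ σ p.1 p.2.2)) := fun σ =>
    h.continuous.comp (f := fun p : ℝ × (ℝ × ℝ) => (p.2.1, ζ σ p.1 p.2.2))
      ((by fun_prop : Continuous fun p : ℝ × (ℝ × ℝ) => p.2.1).prodMk
        ((hζc σ).comp (f := fun p : ℝ × (ℝ × ℝ) => (p.1, p.2.2)) (by fun_prop)))
  have hLs : ∀ σ s, Continuous (fun p : ℝ × (ℝ × ℝ) => φ s (ζ σ p.1 p.2.2)) := fun σ s =>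
    (h.continuous_state s).comp
      ((hζc σ).comp (f := fun p : ℝ × (ℝ × ℝ) => (p.1, p.2.2)) (by fun_prop))
  -- the tangent states
  have htan : ∀ σ : ℝ, |σ| = 1 → ∀ x, ζ σ 1 x = g.famState r σ 0 x := by
    intro σ _ x
    simp only [ζ]
    norm_num
  have hw1 : ∀ σ : ℝ, |σ| = 1 → ∀ x, g.w (ζ σ 1 x) = 0 := by
    intro σ hσ x
    rw [htan σ hσ, famState_w]; simp
  have he1 : ∀ σ : ℝ, |σ| = 1 → ∀ x, g.en (ζ σ 1 x) = 1 := by
    intro σ hσ x
    rw [htan σ hσ, famState_en, ← sq_abs, hσ]; norm_num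
  have habs : ∀ σ : ℝ, |σ| = 1 → ∀ x s, c ≤ |g.v (φ s (ζ σ 1 x))| := fun σ hσ x s =>
    tangent_abs_v h hb hc0 hcE rfl (hw1 σ hσ x) (he1 σ hσ x) s
  have hvp : ∀ x s, c ≤ g.v (φ s (ζ 1 1 x)) := by
    intro x s
    refine tangent_sign (g.continuous_v.comp (h.continuous_time _)) hc0
      (fun s => habs 1 (by norm_num) x s) ?_ s
    change 0 < g.v (φ 0 (ζ 1 1 x))
    rw [h.zero, htan 1 (by norm_num), famState_v_zero]
    have := g.pos_E (x, r)
    positivity
  have hvm : ∀ x s, c ≤ - g.v (φ s (ζ (-1) 1 x)) := by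
    intro x s
    refine tangent_sign (f := fun s => - g.v (φ s (ζ (-1) 1 x)))
      (g.continuous_v.comp (h.continuous_time _)).neg hc0
      (fun s => by rw [abs_neg]; exact habs (-1) (by norm_num) x s) ?_ s
    rw [h.zero, htan (-1) (by norm_num), famState_v_zero]
    have := g.pos_E (x, r)
    have h2 : 0 < 1 / √(g.E (x, r)) := by positivity
    rw [neg_div, neg_neg]
    exact h2
  have hx0 : ∀ σ x, (φ 0 (ζ σ 1 x)).1 = x := by
    intro σ x
    rw [h.zero]
    rfl
  have hgp : ∀ x {a b : ℝ}, a ≤ b → c * (b - a) ≤ (φ b (ζ 1 1 x)).1 - (φ a (ζ 1 1 x)).1 :=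
    fun x a b hab => tangent_growth (f := fun s => (φ s (ζ 1 1 x)).1)
      (fun s => h.hasDerivAt_x _ s) (hvp x) hab
  have hgm : ∀ x {a b : ℝ}, a ≤ b →
      c * (b - a) ≤ -(φ b (ζ (-1) 1 x)).1 - -(φ a (ζ (-1) 1 x)).1 :=
    fun x a b hab => tangent_growth (f := fun s => -(φ s (ζ (-1) 1 x)).1)
      (fun s => (h.hasDerivAt_x _ s).neg) (hvm x) hab
  -- the tube
  have hK : IsCompact ((Icc (-S) S) ×ˢ (Icc (0 : ℝ) 1)) := isCompact_Icc.prod isCompact_Icc
  have hev : ∀ᶠ M : ℝ in 𝓝 1, ∀ q ∈ (Icc (-S) S) ×ˢ (Icc (0 : ℝ) 1),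
      0 < g.v (φ q.1 (ζ 1 M q.2)) ∧ g.v (φ q.1 (ζ (-1) M q.2)) < 0 ∧
      q.2 + 1 < (φ S (ζ 1 M q.2)).1 ∧ (φ (-S) (ζ 1 M q.2)).1 < q.2 - 1 ∧
      (φ S (ζ (-1) M q.2)).1 < q.2 - 1 ∧ q.2 + 1 < (φ (-S) (ζ (-1) M q.2)).1 := by
    refine hK.eventually_forall_of_forall_eventually
      (P := fun M q => 0 < g.v (φ q.1 (ζ 1 M q.2)) ∧ g.v (φ q.1 (ζ (-1) M q.2)) < 0 ∧
      q.2 + 1 < (φ S (ζ 1 M q.2)).1 ∧ (φ (-S) (ζ 1 M q.2)).1 < q.2 - 1 ∧
      (φ S (ζ (-1) M q.2)).1 < q.2 - 1 ∧ q.2 + 1 < (φ (-S) (ζ (-1) M q.2)).1)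
      (fun q _ => ?_)
    have hq2 : Continuous (fun p : ℝ × (ℝ × ℝ) => p.2.2) := by fun_prop
    refine Filter.Eventually.and ?_ (Filter.Eventually.and ?_ (Filter.Eventually.and ?_
      (Filter.Eventually.and ?_ (Filter.Eventually.and ?_ ?_))))
    · refine (g.continuous_v.comp (hL 1)).continuousAt.eventually (lt_mem_nhds ?_)
      exact hc0.trans_le (hvp q.2 q.1)
    · refine (g.continuous_v.comp (hL (-1))).continuousAt.eventually (gt_mem_nhds ?_)
      have := hvm q.2 q.1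
      change g.v (φ q.1 (ζ (-1) 1 q.2)) < 0
      linarith
    · refine (hq2.add continuous_const).continuousAt.eventually_lt
        (continuous_fst.comp (hLs 1 S)).continuousAt ?_
      have := hgp q.2 hS0.le
      rw [hx0, sub_zero, hcS] at this
      change q.2 + 1 < (φ S (ζ 1 1 q.2)).1
      linarith
    · refine (continuous_fst.comp (hLs 1 (-S))).continuousAt.eventually_lt
        (hq2.sub continuous_const).continuousAt ?_
      have := hgp q.2 (a := -S) (b := 0) (by linarith)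
      rw [hx0, zero_sub, neg_neg, hcS] at this
      change (φ (-S) (ζ 1 1 q.2)).1 < q.2 - 1
      linarith
    · refine (continuous_fst.comp (hLs (-1) S)).continuousAt.eventually_lt
        (hq2.sub continuous_const).continuousAt ?_
      have := hgm q.2 hS0.le
      rw [hx0, sub_zero, hcS] at this
      change (φ S (ζ (-1) 1 q.2)).1 < q.2 - 1
      linarith
    · refine (hq2.add continuous_const).continuousAt.eventually_lt
        (continuous_fst.comp (hLs (-1) (-S))).continuousAt ?_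
      have := hgm q.2 (a := -S) (b := 0) (by linarith)
      rw [hx0, zero_sub, neg_neg, hcS] at this
      change q.2 + 1 < (φ (-S) (ζ (-1) 1 q.2)).1
      linarith
  obtain ⟨δ, hδ, hδ'⟩ := Metric.eventually_nhds_iff.1 hev
  set M : ℝ := max (1 - δ / 2) (1 / 2) with hM
  have hM0 : 0 < M := lt_of_lt_of_le (by norm_num) (le_max_right _ _)
  have hM1 : M < 1 := max_lt (by linarith) (by norm_num)
  have hMδ : dist M 1 < δ := by
    rw [Real.dist_eq, abs_sub_comm, abs_of_pos (by linarith)]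
    have := le_max_left (1 - δ / 2) (1 / 2)
    linarith
  have hfin := hδ' hMδ
  refine ⟨M, S, hM0, hM1, hS0, fun x => ?_⟩
  -- reduce to `x ∈ [0, 1]`
  set k : ℤ := ⌊x⌋ with hk
  set y : ℝ := Int.fract x with hy
  have hxk : x = y + (k : ℝ) := (Int.fract_add_floor x).symm
  have hyI : y ∈ Icc (0 : ℝ) 1 := ⟨Int.fract_nonneg x, (Int.fract_lt_one x).le⟩
  have hζk : ∀ σ s, φ s (g.famState r σ (√(1 - M ^ 2)) x) =
      CyG.famShift k (φ s (g.famState r σ (√(1 - M ^ 2)) y)) := by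
    intro σ s
    rw [← h.famShift, ← famState_int, ← hxk]
  have hvk : ∀ z : State, g.v (CyG.famShift k z) = g.v z := by
    intro z
    generalize k = j
    induction j using Int.induction_on with
    | zero => rw [famShift_zero]
    | succ i ih => rw [famShift_add_one, g.v_shift, ih]
    | pred i ih =>
      rw [← ih, ← famShift_sub_one (-(i : ℤ)) z, g.v_shift]
  have hone : ∀ a, ζ 1 M a = g.famState r M (√(1 - M ^ 2)) a := fun a => by
    simp only [ζ, one_mul]
  have hneg : ∀ a, ζ (-1) M a = g.famState r (-M) (√(1 - M ^ 2)) a := fun a => by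
    simp only [ζ, neg_one_mul]
  have hk1 : ∀ z : State, (CyG.famShift k z).1 = z.1 + k := fun z => rfl
  simp only [hone, hneg] at hfin
  have hfy : ∀ s ∈ Icc (-S) S, _ := fun s hs => hfin (s, y) ⟨hs, hyI⟩
  have hf0 := hfy 0 ⟨by linarith, hS0.le⟩
  simp only at hfy hf0
  refine ⟨fun s hs => ?_, fun s hs => ?_, ?_, ?_, ?_, ?_⟩
  · rw [hζk, hvk]; exact (hfy s hs).1
  · rw [hζk, hvk]; exact (hfy s hs).2.1
  · rw [hζk, hk1, hxk]; linarith [hf0.2.2.1]
  · rw [hζk, hk1, hxk]; linarith [hf0.2.2.2.1]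
  · rw [hζk, hk1, hxk]; linarith [hf0.2.2.2.2.1]
  · rw [hζk, hk1, hxk]; linarith [hf0.2.2.2.2.2]

end CylMetric

end Pool.Agent.CyG
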