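import Mathlib

set_option autoImplicit false

/-!
# Two continuous families of curves in the plane with increasing levels: the two kinds of events

`(Y₁ q s, U₁ q s)` and `(Y₂ q s, U₂ q s)` are curves in the plane (horizontal coordinate `Y`, level
`U`, strictly increasing in `s`), which start at `s = 0` on the level `r`, the second to the right
of the first and to the left of the translate of the first by `1`.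
-/

namespace Pool.Agent.CyG

open Set Filter Topology

variable {Q : Type} [TopologicalSpace Q]

/-- The second curve gets to the left of the first one (before the difference was `≥ 1`). -/
def typeP (U₁ Y₁ U₂ Y₂ : Q → ℝ → ℝ) : Set Q :=
  {q | ∃ s₁ s₂, 0 ≤ s₁ ∧ 0 ≤ s₂ ∧ U₁ q s₁ = U₂ q s₂ ∧ Y₂ q s₂ < Y₁ q s₁ ∧
    ∀ σ₁ σ₂, 0 ≤ σ₁ → 0 ≤ σ₂ → σ₁ ≤ s₁ → σ₂ ≤ s₂ → U₁ q σ₁ = U₂ q σ₂ → Y₂ q σ₂ < Y₁ q σ₁ + 1}

/-- The second curve gets to the right of the translate by `1` of the first one (before the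
difference was `≤ 0`). -/
def typeQ (U₁ Y₁ U₂ Y₂ : Q → ℝ → ℝ) : Set Q :=
  {q | ∃ s₁ s₂, 0 ≤ s₁ ∧ 0 ≤ s₂ ∧ U₁ q s₁ = U₂ q s₂ ∧ Y₁ q s₁ + 1 < Y₂ q s₂ ∧
    ∀ σ₁ σ₂, 0 ≤ σ₁ → 0 ≤ σ₂ → σ₁ ≤ s₁ → σ₂ ≤ s₂ → U₁ q σ₁ = U₂ q σ₂ → Y₁ q σ₁ < Y₂ q σ₂}

private theorem typ_hit {U : Q → ℝ → ℝ} (hU : Continuous fun p : Q × ℝ => U p.1 p.2)
    (hmono : ∀ a, StrictMono (U a)) :
    ∃ S : Q → ℝ → ℝ, (∀ a s, S a (U a s) = s) ∧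
      IsOpen {p : Q × ℝ | ∃ s, U p.1 s = p.2} ∧
      ∀ p : Q × ℝ, (∃ s, U p.1 s = p.2) → ContinuousAt (fun p : Q × ℝ => S p.1 p.2) p := by
  classical
  have hS1 : ∀ a s, Function.invFun (U a) (U a s) = s := fun a s =>
    Function.leftInverse_invFun (hmono a).injective s
  have key : ∀ a₀ s₀ ε, 0 < ε → ∀ᶠ p : Q × ℝ in 𝓝 (a₀, U a₀ s₀),
      ∃ s ∈ Ioo (s₀ - ε) (s₀ + ε), U p.1 s = p.2 := by
    intro a₀ s₀ ε hε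
    have h1 : ∀ᶠ p : Q × ℝ in 𝓝 (a₀, U a₀ s₀), U p.1 (s₀ - ε) < p.2 := by
      have c1 : Continuous fun p : Q × ℝ => U p.1 (s₀ - ε) :=
        hU.comp (continuous_fst.prodMk continuous_const)
      exact c1.continuousAt.eventually_lt continuous_snd.continuousAt
        (hmono a₀ (by linarith : s₀ - ε < s₀))
    have h2 : ∀ᶠ p : Q × ℝ in 𝓝 (a₀, U a₀ s₀), p.2 < U p.1 (s₀ + ε) := by
      have c1 : Continuous fun p : Q × ℝ => U p.1 (s₀ + ε) :=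
        hU.comp (continuous_fst.prodMk continuous_const)
      exact continuous_snd.continuousAt.eventually_lt c1.continuousAt
        (hmono a₀ (by linarith : s₀ < s₀ + ε))
    filter_upwards [h1, h2] with p hp1 hp2
    have hc : ContinuousOn (U p.1) (Icc (s₀ - ε) (s₀ + ε)) :=
      (hU.comp (continuous_const.prodMk continuous_id)).continuousOn
    exact intermediate_value_Ioo (by linarith) hc ⟨hp1, hp2⟩
  refine ⟨fun a => Function.invFun (U a), hS1, ?_, ?_⟩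
  · rw [isOpen_iff_mem_nhds]
    rintro ⟨a₀, t₀⟩ ⟨s₀, hs₀⟩
    simp only at hs₀
    subst hs₀
    filter_upwards [key a₀ s₀ 1 one_pos] with p hp
    obtain ⟨s, -, hs⟩ := hp
    exact ⟨s, hs⟩
  · rintro ⟨a₀, t₀⟩ ⟨s₀, hs₀⟩
    simp only at hs₀
    subst hs₀
    rw [Metric.continuousAt_iff']
    intro ε hε
    filter_upwards [key a₀ s₀ ε hε] with p hp
    obtain ⟨s, hs, hsp⟩ := hp
    have e1 : Function.invFun (U p.1) p.2 = s := by rw [← hsp]; exact hS1 _ _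
    have e2 : Function.invFun (U a₀) (U a₀ s₀) = s₀ := hS1 _ _
    simp only [e1, e2]
    rw [Real.dist_eq, abs_lt]
    constructor <;> linarith [hs.1, hs.2]

private theorem typ_data {U₁ Y₁ U₂ Y₂ : Q → ℝ → ℝ}
    (hU₁ : Continuous fun p : Q × ℝ => U₁ p.1 p.2)
    (hY₁ : Continuous fun p : Q × ℝ => Y₁ p.1 p.2) (hU₂ : Continuous fun p : Q × ℝ => U₂ p.1 p.2)
    (hY₂ : Continuous fun p : Q × ℝ => Y₂ p.1 p.2) (hm₁ : ∀ q, StrictMono (U₁ q))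
    (hm₂ : ∀ q, StrictMono (U₂ q)) {r : ℝ} (h0₁ : ∀ q, U₁ q 0 = r) (h0₂ : ∀ q, U₂ q 0 = r) :
    ∃ (D2 : Set (Q × ℝ)) (δ : Q × ℝ → ℝ), IsOpen D2 ∧ (∀ p ∈ D2, ContinuousAt δ p) ∧
      (∀ q t, (q, t) ∈ D2 ↔ (∃ s, U₁ q s = t) ∧ ∃ s, U₂ q s = t) ∧
      (∀ q s₁ s₂, U₁ q s₁ = U₂ q s₂ → δ (q, U₁ q s₁) = Y₂ q s₂ - Y₁ q s₁) ∧
      ∀ q t t', (q, t) ∈ D2 → r ≤ t' → t' ≤ t → (q, t') ∈ D2 := by
  obtain ⟨S₁, hS₁, ho₁, hc₁⟩ := typ_hit hU₁ hm₁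
  obtain ⟨S₂, hS₂, ho₂, hc₂⟩ := typ_hit hU₂ hm₂
  refine ⟨{p : Q × ℝ | ∃ s, U₁ p.1 s = p.2} ∩ {p : Q × ℝ | ∃ s, U₂ p.1 s = p.2},
    fun p => Y₂ p.1 (S₂ p.1 p.2) - Y₁ p.1 (S₁ p.1 p.2), ho₁.inter ho₂, ?_, ?_, ?_, ?_⟩
  · rintro p ⟨hp1, hp2⟩
    have a1 : ContinuousAt (fun p : Q × ℝ => Y₁ p.1 (S₁ p.1 p.2)) p :=
      ContinuousAt.comp (g := fun p : Q × ℝ => Y₁ p.1 p.2)
        (f := fun p : Q × ℝ => (p.1, S₁ p.1 p.2)) hY₁.continuousAt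
        (continuousAt_fst.prodMk (hc₁ p hp1))
    have a2 : ContinuousAt (fun p : Q × ℝ => Y₂ p.1 (S₂ p.1 p.2)) p :=
      ContinuousAt.comp (g := fun p : Q × ℝ => Y₂ p.1 p.2)
        (f := fun p : Q × ℝ => (p.1, S₂ p.1 p.2)) hY₂.continuousAt
        (continuousAt_fst.prodMk (hc₂ p hp2))
    exact a2.sub a1
  · intro q t
    exact Iff.rfl
  · intro q s₁ s₂ h
    simp only
    rw [hS₁]
    congr 1
    rw [h, hS₂]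
  · rintro q t t' ⟨⟨s₁, hs₁⟩, ⟨s₂, hs₂⟩⟩ h1 h2
    simp only at hs₁ hs₂
    have g1 : ∃ s, U₁ q s = t' := by
      have := mem_range_of_exists_le_of_exists_ge (f := U₁ q) (c := t')
        (hU₁.comp (continuous_const.prodMk continuous_id))
        ⟨0, by rw [h0₁]; exact h1⟩ ⟨s₁, by rw [hs₁]; exact h2⟩
      exact this
    have g2 : ∃ s, U₂ q s = t' := by
      have := mem_range_of_exists_le_of_exists_ge (f := U₂ q) (c := t')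
        (hU₂.comp (continuous_const.prodMk continuous_id))
        ⟨0, by rw [h0₂]; exact h1⟩ ⟨s₂, by rw [hs₂]; exact h2⟩
      exact this
    exact ⟨g1, g2⟩

private theorem typ_P {U₁ Y₁ U₂ Y₂ : Q → ℝ → ℝ} (hm₁ : ∀ q, StrictMono (U₁ q))
    (hm₂ : ∀ q, StrictMono (U₂ q)) {r : ℝ} (h0₁ : ∀ q, U₁ q 0 = r) (h0₂ : ∀ q, U₂ q 0 = r)
    {D2 : Set (Q × ℝ)} {δ : Q × ℝ → ℝ}
    (hD2m : ∀ q t, (q, t) ∈ D2 ↔ (∃ s, U₁ q s = t) ∧ ∃ s, U₂ q s = t)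
    (hδv : ∀ q s₁ s₂, U₁ q s₁ = U₂ q s₂ → δ (q, U₁ q s₁) = Y₂ q s₂ - Y₁ q s₁)
    (hdown : ∀ q t t', (q, t) ∈ D2 → r ≤ t' → t' ≤ t → (q, t') ∈ D2) {q : Q} :
    q ∈ typeP U₁ Y₁ U₂ Y₂ ↔ ∃ t, r ≤ t ∧ (q, t) ∈ D2 ∧ δ (q, t) < 0 ∧
      ∀ t' ∈ Icc r t, δ (q, t') < 1 := by
  constructor
  · rintro ⟨s₁, s₂, h1, h2, he, hlt, hall⟩
    have hD : (q, U₁ q s₁) ∈ D2 := (hD2m _ _).2 ⟨⟨s₁, rfl⟩, ⟨s₂, he.symm⟩⟩
    refine ⟨U₁ q s₁, ?_, hD, ?_, ?_⟩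
    · rw [← h0₁ q]; exact (hm₁ q).monotone h1
    · rw [hδv q s₁ s₂ he]; linarith
    · rintro t' ⟨ht1, ht2⟩
      obtain ⟨⟨σ₁, hσ₁⟩, ⟨σ₂, hσ₂⟩⟩ := (hD2m _ _).1 (hdown _ _ _ hD ht1 ht2)
      have g1 : 0 ≤ σ₁ := by
        rw [← (hm₁ q).le_iff_le, h0₁, hσ₁]; exact ht1
      have g2 : 0 ≤ σ₂ := by
        rw [← (hm₂ q).le_iff_le, h0₂, hσ₂]; exact ht1
      have g3 : σ₁ ≤ s₁ := by
        rw [← (hm₁ q).le_iff_le, hσ₁]; exact ht2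
      have g4 : σ₂ ≤ s₂ := by
        rw [← (hm₂ q).le_iff_le, hσ₂, ← he]; exact ht2
      have h5 := hall σ₁ σ₂ g1 g2 g3 g4 (hσ₁.trans hσ₂.symm)
      have h6 := hδv q σ₁ σ₂ (hσ₁.trans hσ₂.symm)
      rw [hσ₁] at h6
      rw [h6]
      linarith
  · rintro ⟨t, ht, hD, hlt, hall⟩
    obtain ⟨⟨s₁, hs₁⟩, ⟨s₂, hs₂⟩⟩ := (hD2m _ _).1 hD
    refine ⟨s₁, s₂, ?_, ?_, hs₁.trans hs₂.symm, ?_, ?_⟩
    · rw [← (hm₁ q).le_iff_le, h0₁, hs₁]; exact ht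
    · rw [← (hm₂ q).le_iff_le, h0₂, hs₂]; exact ht
    · have h6 := hδv q s₁ s₂ (hs₁.trans hs₂.symm)
      rw [hs₁] at h6
      linarith
    · intro σ₁ σ₂ g1 g2 g3 g4 he
      have h6 := hδv q σ₁ σ₂ he
      have h7 := hall (U₁ q σ₁) ⟨by rw [← h0₁ q]; exact (hm₁ q).monotone g1,
        by rw [← hs₁]; exact (hm₁ q).monotone g3⟩
      linarith

private theorem typ_Q {U₁ Y₁ U₂ Y₂ : Q → ℝ → ℝ} (hm₁ : ∀ q, StrictMono (U₁ q))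
    (hm₂ : ∀ q, StrictMono (U₂ q)) {r : ℝ} (h0₁ : ∀ q, U₁ q 0 = r) (h0₂ : ∀ q, U₂ q 0 = r)
    {D2 : Set (Q × ℝ)} {δ : Q × ℝ → ℝ}
    (hD2m : ∀ q t, (q, t) ∈ D2 ↔ (∃ s, U₁ q s = t) ∧ ∃ s, U₂ q s = t)
    (hδv : ∀ q s₁ s₂, U₁ q s₁ = U₂ q s₂ → δ (q, U₁ q s₁) = Y₂ q s₂ - Y₁ q s₁)
    (hdown : ∀ q t t', (q, t) ∈ D2 → r ≤ t' → t' ≤ t → (q, t') ∈ D2) {q : Q} :
    q ∈ typeQ U₁ Y₁ U₂ Y₂ ↔ ∃ t, r ≤ t ∧ (q, t) ∈ D2 ∧ 1 < δ (q, t) ∧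
      ∀ t' ∈ Icc r t, 0 < δ (q, t') := by
  constructor
  · rintro ⟨s₁, s₂, h1, h2, he, hlt, hall⟩
    have hD : (q, U₁ q s₁) ∈ D2 := (hD2m _ _).2 ⟨⟨s₁, rfl⟩, ⟨s₂, he.symm⟩⟩
    refine ⟨U₁ q s₁, ?_, hD, ?_, ?_⟩
    · rw [← h0₁ q]; exact (hm₁ q).monotone h1
    · rw [hδv q s₁ s₂ he]; linarith
    · rintro t' ⟨ht1, ht2⟩
      obtain ⟨⟨σ₁, hσ₁⟩, ⟨σ₂, hσ₂⟩⟩ := (hD2m _ _).1 (hdown _ _ _ hD ht1 ht2)
      have g1 : 0 ≤ σ₁ := by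
        rw [← (hm₁ q).le_iff_le, h0₁, hσ₁]; exact ht1
      have g2 : 0 ≤ σ₂ := by
        rw [← (hm₂ q).le_iff_le, h0₂, hσ₂]; exact ht1
      have g3 : σ₁ ≤ s₁ := by
        rw [← (hm₁ q).le_iff_le, hσ₁]; exact ht2
      have g4 : σ₂ ≤ s₂ := by
        rw [← (hm₂ q).le_iff_le, hσ₂, ← he]; exact ht2
      have h5 := hall σ₁ σ₂ g1 g2 g3 g4 (hσ₁.trans hσ₂.symm)
      have h6 := hδv q σ₁ σ₂ (hσ₁.trans hσ₂.symm)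
      rw [hσ₁] at h6
      rw [h6]
      linarith
  · rintro ⟨t, ht, hD, hlt, hall⟩
    obtain ⟨⟨s₁, hs₁⟩, ⟨s₂, hs₂⟩⟩ := (hD2m _ _).1 hD
    refine ⟨s₁, s₂, ?_, ?_, hs₁.trans hs₂.symm, ?_, ?_⟩
    · rw [← (hm₁ q).le_iff_le, h0₁, hs₁]; exact ht
    · rw [← (hm₂ q).le_iff_le, h0₂, hs₂]; exact ht
    · have h6 := hδv q s₁ s₂ (hs₁.trans hs₂.symm)
      rw [hs₁] at h6
      linarith
    · intro σ₁ σ₂ g1 g2 g3 g4 he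
      have h6 := hδv q σ₁ σ₂ he
      have h7 := hall (U₁ q σ₁) ⟨by rw [← h0₁ q]; exact (hm₁ q).monotone g1,
        by rw [← hs₁]; exact (hm₁ q).monotone g3⟩
      linarith

theorem isOpen_typeP {U₁ Y₁ U₂ Y₂ : Q → ℝ → ℝ} (hU₁ : Continuous fun p : Q × ℝ => U₁ p.1 p.2)
    (hY₁ : Continuous fun p : Q × ℝ => Y₁ p.1 p.2) (hU₂ : Continuous fun p : Q × ℝ => U₂ p.1 p.2)
    (hY₂ : Continuous fun p : Q × ℝ => Y₂ p.1 p.2) (hm₁ : ∀ q, StrictMono (U₁ q))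
    (hm₂ : ∀ q, StrictMono (U₂ q)) {r : ℝ} (h0₁ : ∀ q, U₁ q 0 = r) (h0₂ : ∀ q, U₂ q 0 = r)
    (hl : ∀ q, Y₁ q 0 < Y₂ q 0) (hr : ∀ q, Y₂ q 0 < Y₁ q 0 + 1) :
    IsOpen (typeP U₁ Y₁ U₂ Y₂) := by
  obtain ⟨D2, δ, hD2o, hδca, hD2m, hδv, hdown⟩ := typ_data hU₁ hY₁ hU₂ hY₂ hm₁ hm₂ h0₁ h0₂
  rw [isOpen_iff_mem_nhds]
  intro q₀ h
  rw [typ_P hm₁ hm₂ h0₁ h0₂ hD2m hδv hdown] at h
  obtain ⟨t₀, h3, h4, h5, h6⟩ := h
  have hc : Continuous fun q : Q => (q, t₀) := continuous_id.prodMk continuous_const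
  have e3 : ∀ᶠ q : Q in 𝓝 q₀, (q, t₀) ∈ D2 := hc.continuousAt.eventually (hD2o.mem_nhds h4)
  have e4 : ∀ᶠ q : Q in 𝓝 q₀, δ (q, t₀) < 0 :=
    (hc.continuousAt (x := q₀)).eventually ((hδca _ h4).eventually_lt_const h5)
  have e5 : ∀ᶠ q : Q in 𝓝 q₀, ∀ t' ∈ Icc r t₀, δ (q, t') < 1 := by
    refine isCompact_Icc.eventually_forall_of_forall_eventually (fun t' ht' => ?_)
    exact (hδca _ (hdown _ _ _ h4 ht'.1 ht'.2)).eventually_lt_const (h6 t' ht')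
  filter_upwards [e3, e4, e5] with q f3 f4 f5
  rw [typ_P hm₁ hm₂ h0₁ h0₂ hD2m hδv hdown]
  exact ⟨t₀, h3, f3, f4, f5⟩

theorem isOpen_typeQ {U₁ Y₁ U₂ Y₂ : Q → ℝ → ℝ} (hU₁ : Continuous fun p : Q × ℝ => U₁ p.1 p.2)
    (hY₁ : Continuous fun p : Q × ℝ => Y₁ p.1 p.2) (hU₂ : Continuous fun p : Q × ℝ => U₂ p.1 p.2)
    (hY₂ : Continuous fun p : Q × ℝ => Y₂ p.1 p.2) (hm₁ : ∀ q, StrictMono (U₁ q))
    (hm₂ : ∀ q, StrictMono (U₂ q)) {r : ℝ} (h0₁ : ∀ q, U₁ q 0 = r) (h0₂ : ∀ q, U₂ q 0 = r)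
    (hl : ∀ q, Y₁ q 0 < Y₂ q 0) (hr : ∀ q, Y₂ q 0 < Y₁ q 0 + 1) :
    IsOpen (typeQ U₁ Y₁ U₂ Y₂) := by
  obtain ⟨D2, δ, hD2o, hδca, hD2m, hδv, hdown⟩ := typ_data hU₁ hY₁ hU₂ hY₂ hm₁ hm₂ h0₁ h0₂
  rw [isOpen_iff_mem_nhds]
  intro q₀ h
  rw [typ_Q hm₁ hm₂ h0₁ h0₂ hD2m hδv hdown] at h
  obtain ⟨t₀, h3, h4, h5, h6⟩ := h
  have hc : Continuous fun q : Q => (q, t₀) := continuous_id.prodMk continuous_const
  have e3 : ∀ᶠ q : Q in 𝓝 q₀, (q, t₀) ∈ D2 := hc.continuousAt.eventually (hD2o.mem_nhds h4)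
  have e4 : ∀ᶠ q : Q in 𝓝 q₀, 1 < δ (q, t₀) :=
    (hc.continuousAt (x := q₀)).eventually ((hδca _ h4).eventually_const_lt h5)
  have e5 : ∀ᶠ q : Q in 𝓝 q₀, ∀ t' ∈ Icc r t₀, 0 < δ (q, t') := by
    refine isCompact_Icc.eventually_forall_of_forall_eventually (fun t' ht' => ?_)
    exact (hδca _ (hdown _ _ _ h4 ht'.1 ht'.2)).eventually_const_lt (h6 t' ht')
  filter_upwards [e3, e4, e5] with q f3 f4 f5
  rw [typ_Q hm₁ hm₂ h0₁ h0₂ hD2m hδv hdown]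
  exact ⟨t₀, h3, f3, f4, f5⟩

theorem disjoint_types {U₁ Y₁ U₂ Y₂ : Q → ℝ → ℝ} (hm₁ : ∀ q, StrictMono (U₁ q))
    (hm₂ : ∀ q, StrictMono (U₂ q)) : Disjoint (typeP U₁ Y₁ U₂ Y₂) (typeQ U₁ Y₁ U₂ Y₂) := by
  rw [Set.disjoint_left]
  rintro q ⟨s₁, s₂, h1, h2, he, hlt, hall⟩ ⟨z₁, z₂, k1, k2, ke, klt, kall⟩
  rcases le_total s₁ z₁ with h | h
  · have h' : s₂ ≤ z₂ := by
      rw [← (hm₂ q).le_iff_le, ← he, ← ke]
      exact (hm₁ q).monotone h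
    exact absurd (kall s₁ s₂ h1 h2 h h' he) (not_lt.2 hlt.le)
  · have h' : z₂ ≤ s₂ := by
      rw [← (hm₂ q).le_iff_le, ← he, ← ke]
      exact (hm₁ q).monotone h
    exact absurd (hall z₁ z₂ k1 k2 h h' ke) (not_lt.2 klt.le)

/-- `hC`: the curve 2 and the curve 1 translated by `k ∈ {0, 1}` cross transversally wherever they
meet. If no event of the two kinds happens then the difference stays in `(0, 1)`. -/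
theorem sep_of_not_mem {U₁ Y₁ U₂ Y₂ : Q → ℝ → ℝ} (hU₁ : Continuous fun p : Q × ℝ => U₁ p.1 p.2)
    (hY₁ : Continuous fun p : Q × ℝ => Y₁ p.1 p.2) (hU₂ : Continuous fun p : Q × ℝ => U₂ p.1 p.2)
    (hY₂ : Continuous fun p : Q × ℝ => Y₂ p.1 p.2) (hm₁ : ∀ q, StrictMono (U₁ q))
    (hm₂ : ∀ q, StrictMono (U₂ q)) {r : ℝ} (h0₁ : ∀ q, U₁ q 0 = r) (h0₂ : ∀ q, U₂ q 0 = r)
    (hl : ∀ q, Y₁ q 0 < Y₂ q 0) (hr : ∀ q, Y₂ q 0 < Y₁ q 0 + 1)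
    (hC : ∀ q s₁ s₂ (k : ℝ), (k = 0 ∨ k = 1) → U₁ q s₁ = U₂ q s₂ → Y₂ q s₂ = Y₁ q s₁ + k →
      ((∀ ε > 0, ∃ σ₁ ∈ Ioo (s₁ - ε) s₁, ∃ σ₂ ∈ Ioo (s₂ - ε) s₂,
          U₁ q σ₁ = U₂ q σ₂ ∧ Y₂ q σ₂ < Y₁ q σ₁ + k) ∧
        (∀ ε > 0, ∃ σ₁ ∈ Ioo s₁ (s₁ + ε), ∃ σ₂ ∈ Ioo s₂ (s₂ + ε),
          U₁ q σ₁ = U₂ q σ₂ ∧ Y₁ q σ₁ + k < Y₂ q σ₂)) ∨
      ((∀ ε > 0, ∃ σ₁ ∈ Ioo (s₁ - ε) s₁, ∃ σ₂ ∈ Ioo (s₂ - ε) s₂,
          U₁ q σ₁ = U₂ q σ₂ ∧ Y₁ q σ₁ + k < Y₂ q σ₂) ∧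
        (∀ ε > 0, ∃ σ₁ ∈ Ioo s₁ (s₁ + ε), ∃ σ₂ ∈ Ioo s₂ (s₂ + ε),
          U₁ q σ₁ = U₂ q σ₂ ∧ Y₂ q σ₂ < Y₁ q σ₁ + k)))
    {q : Q} (hP : q ∉ typeP U₁ Y₁ U₂ Y₂) (hQ : q ∉ typeQ U₁ Y₁ U₂ Y₂) {s₁ s₂ : ℝ}
    (h₁ : 0 ≤ s₁) (h₂ : 0 ≤ s₂) (he : U₁ q s₁ = U₂ q s₂) :
    0 < Y₂ q s₂ - Y₁ q s₁ ∧ Y₂ q s₂ - Y₁ q s₁ < 1 := by
  obtain ⟨D2, δ, hD2o, hδca, hD2m, hδv, hdown⟩ := typ_data hU₁ hY₁ hU₂ hY₂ hm₁ hm₂ h0₁ h0₂
  rw [typ_P hm₁ hm₂ h0₁ h0₂ hD2m hδv hdown] at hP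
  rw [typ_Q hm₁ hm₂ h0₁ h0₂ hD2m hδv hdown] at hQ
  have hUc : Continuous (U₁ q) := hU₁.comp (continuous_const.prodMk continuous_id)
  have hδr : δ (q, r) = Y₂ q 0 - Y₁ q 0 := by
    have := hδv q 0 0 (by rw [h0₁, h0₂])
    rw [h0₁] at this
    exact this
  have main : ∀ t, r ≤ t → (q, t) ∈ D2 → 0 < δ (q, t) ∧ δ (q, t) < 1 := by
    intro t₁ hrt ht₁
    by_contra hcon
    have hcI : ContinuousOn (fun t => δ (q, t)) (Icc r t₁) := by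
      intro t ht
      have hc : Continuous fun t : ℝ => (q, t) := continuous_const.prodMk continuous_id
      have h1 : ContinuousAt (fun t : ℝ => δ (q, t)) t :=
        ContinuousAt.comp (g := δ) (f := fun t : ℝ => (q, t))
          (hδca _ (hdown _ _ _ ht₁ ht.1 ht.2)) hc.continuousAt
      exact h1.continuousWithinAt
    obtain ⟨B, hB⟩ : ∃ B : Set ℝ, B = Icc r t₁ ∩ (fun t => δ (q, t)) ⁻¹' (Ioo 0 1)ᶜ :=
      ⟨_, rfl⟩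
    have hBc : IsCompact B := by
      rw [hB]
      exact isCompact_Icc.of_isClosed_subset
        (hcI.preimage_isClosed_of_isClosed isClosed_Icc isOpen_Ioo.isClosed_compl)
        inter_subset_left
    have hBm : ∀ t, t ∈ B ↔ (r ≤ t ∧ t ≤ t₁) ∧ ¬ (0 < δ (q, t) ∧ δ (q, t) < 1) := by
      intro t
      rw [hB]
      exact Iff.rfl
    have hBne : B.Nonempty := ⟨t₁, (hBm t₁).2 ⟨⟨hrt, le_rfl⟩, hcon⟩⟩
    obtain ⟨t₀, ht₀B, ht₀min⟩ := hBc.exists_isLeast hBne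
    have ht₀ := (hBm t₀).1 ht₀B
    have hd0 := hl q
    have hd1 := hr q
    have hrt₀ : r < t₀ := by
      rcases ht₀.1.1.lt_or_eq with h | h
      · exact h
      · exfalso
        apply ht₀.2
        rw [← h, hδr]
        constructor <;> linarith
    have hlt : ∀ t, r ≤ t → t < t₀ → 0 < δ (q, t) ∧ δ (q, t) < 1 := by
      intro t h1 h2
      by_contra h3
      have := ht₀min ((hBm t).2 ⟨⟨h1, h2.le.trans ht₀.1.2⟩, h3⟩)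
      linarith
    have hD0 : (q, t₀) ∈ D2 := hdown _ _ _ ht₁ ht₀.1.1 ht₀.1.2
    have hcI0 : ContinuousOn (fun t => δ (q, t)) (Icc r t₀) :=
      hcI.mono (Icc_subset_Icc le_rfl ht₀.1.2)
    obtain ⟨⟨z₁, hz₁⟩, ⟨z₂, hz₂⟩⟩ := (hD2m _ _).1 hD0
    have hz₁0 : 0 < z₁ := by
      rw [← (hm₁ q).lt_iff_lt, h0₁, hz₁]; exact hrt₀
    have hz₂0 : 0 < z₂ := by
      rw [← (hm₂ q).lt_iff_lt, h0₂, hz₂]; exact hrt₀
    have hze : U₁ q z₁ = U₂ q z₂ := hz₁.trans hz₂.symm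
    have hδ0 : δ (q, t₀) = Y₂ q z₂ - Y₁ q z₁ := by
      have := hδv q z₁ z₂ hze
      rw [hz₁] at this
      exact this
    have hcδ : ContinuousAt (fun t : ℝ => δ (q, t)) t₀ := by
      have hc : Continuous fun t : ℝ => (q, t) := continuous_const.prodMk continuous_id
      exact ContinuousAt.comp (g := δ) (f := fun t : ℝ => (q, t)) (hδca _ hD0) hc.continuousAt
    have h01 : δ (q, t₀) = 0 ∨ δ (q, t₀) = 1 := by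
      rcases le_or_gt (δ (q, t₀)) 0 with h | h
      · left
        have h1 : (0 : ℝ) ∈ (fun t => δ (q, t)) '' Icc r t₀ := by
          apply intermediate_value_Icc' hrt₀.le hcI0
          exact ⟨h, by simp only [hδr]; linarith⟩
        obtain ⟨t, ht, hte⟩ := h1
        rcases ht.2.lt_or_eq with h2 | h2
        · have := (hlt t ht.1 h2).1
          simp only at hte
          linarith
        · rw [← h2]
          exact hte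
      · right
        have h' : 1 ≤ δ (q, t₀) := by
          by_contra h3
          exact ht₀.2 ⟨h, not_le.1 h3⟩
        have h1 : (1 : ℝ) ∈ (fun t => δ (q, t)) '' Icc r t₀ := by
          apply intermediate_value_Icc hrt₀.le hcI0
          exact ⟨by simp only [hδr]; linarith, h'⟩
        obtain ⟨t, ht, hte⟩ := h1
        rcases ht.2.lt_or_eq with h2 | h2
        · have := (hlt t ht.1 h2).2
          simp only at hte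
          linarith
        · rw [← h2]
          exact hte
    -- an event before
    have before : ∀ σ₁ ∈ Ioo (z₁ - min z₁ z₂) z₁, ∀ σ₂ ∈ Ioo (z₂ - min z₁ z₂) z₂,
        U₁ q σ₁ = U₂ q σ₂ → 0 < Y₂ q σ₂ - Y₁ q σ₁ ∧ Y₂ q σ₂ - Y₁ q σ₁ < 1 := by
      intro σ₁ hσ₁ σ₂ hσ₂ he
      have g1 : 0 ≤ σ₁ := by
        have := hσ₁.1
        have := min_le_left z₁ z₂
        linarith
      have g3 := hlt (U₁ q σ₁) (by rw [← h0₁ q]; exact (hm₁ q).monotone g1)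
        (by rw [← hz₁]; exact hm₁ q hσ₁.2)
      rw [hδv q σ₁ σ₂ he] at g3
      exact g3
    have hmin : 0 < min z₁ z₂ := lt_min hz₁0 hz₂0
    -- an event after
    have after : ∀ c : ℝ → Prop, (∀ᶠ t in 𝓝 t₀, c (δ (q, t))) →
        ∃ ε > 0, ∀ σ₁ ∈ Ioo z₁ (z₁ + ε), ∀ t, t₀ ≤ t → t ≤ U₁ q σ₁ → c (δ (q, t)) := by
      intro c hc
      obtain ⟨η, hη, hηt⟩ := Metric.eventually_nhds_iff.1 hc
      have hUη : ∀ᶠ s in 𝓝 z₁, U₁ q s < t₀ + η :=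
        hUc.continuousAt.eventually_lt_const (by rw [hz₁]; linarith)
      obtain ⟨ε, hε, hεs⟩ := Metric.eventually_nhds_iff.1 hUη
      refine ⟨ε, hε, ?_⟩
      intro σ₁ hσ₁ t h1 h2
      have h3 : U₁ q σ₁ < t₀ + η := by
        apply hεs
        rw [Real.dist_eq, abs_lt]
        constructor <;> linarith [hσ₁.1, hσ₁.2]
      apply hηt
      rw [Real.dist_eq, abs_lt]
      constructor <;> linarith
    rcases h01 with h | h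
    · have hY : Y₂ q z₂ = Y₁ q z₁ + 0 := by linarith
      rcases hC q z₁ z₂ 0 (Or.inl rfl) hze hY with hb | ha
      · obtain ⟨σ₁, hσ₁, σ₂, hσ₂, hu, hy⟩ := hb.1 _ hmin
        have := (before σ₁ hσ₁ σ₂ hσ₂ hu).1
        linarith
      · obtain ⟨ε, hε, hεt⟩ := after (fun x => x < 1)
          (hcδ.eventually_lt_const (by simp only [h]; norm_num))
        obtain ⟨σ₁, hσ₁, σ₂, hσ₂, hu, hy⟩ := ha.2 ε hε
        have hlev : t₀ < U₁ q σ₁ := by rw [← hz₁]; exact hm₁ q hσ₁.1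
        apply hP
        refine ⟨U₁ q σ₁, by linarith, (hD2m _ _).2 ⟨⟨σ₁, rfl⟩, ⟨σ₂, hu.symm⟩⟩, ?_, ?_⟩
        · rw [hδv q σ₁ σ₂ hu]; linarith
        · intro t' ht'
          rcases lt_or_ge t' t₀ with h7 | h7
          · exact (hlt t' ht'.1 h7).2
          · exact hεt σ₁ hσ₁ t' h7 ht'.2
    · have hY : Y₂ q z₂ = Y₁ q z₁ + 1 := by linarith
      rcases hC q z₁ z₂ 1 (Or.inr rfl) hze hY with ha | hb
      · obtain ⟨ε, hε, hεt⟩ := after (fun x => 0 < x)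
          (hcδ.eventually_const_lt (by simp only [h]; norm_num))
        obtain ⟨σ₁, hσ₁, σ₂, hσ₂, hu, hy⟩ := ha.2 ε hε
        have hlev : t₀ < U₁ q σ₁ := by rw [← hz₁]; exact hm₁ q hσ₁.1
        apply hQ
        refine ⟨U₁ q σ₁, by linarith, (hD2m _ _).2 ⟨⟨σ₁, rfl⟩, ⟨σ₂, hu.symm⟩⟩, ?_, ?_⟩
        · rw [hδv q σ₁ σ₂ hu]; linarith
        · intro t' ht'
          rcases lt_or_ge t' t₀ with h7 | h7
          · exact (hlt t' ht'.1 h7).1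
          · exact hεt σ₁ hσ₁ t' h7 ht'.2
      · obtain ⟨σ₁, hσ₁, σ₂, hσ₂, hu, hy⟩ := hb.1 _ hmin
        have := (before σ₁ hσ₁ σ₂ hσ₂ hu).2
        linarith
  have hD : (q, U₁ q s₁) ∈ D2 := (hD2m _ _).2 ⟨⟨s₁, rfl⟩, ⟨s₂, he.symm⟩⟩
  have := main _ (by rw [← h0₁ q]; exact (hm₁ q).monotone h₁) hD
  rw [hδv q s₁ s₂ he] at this
  exact this

end Pool.Agent.CyG
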