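import Pool.Agent.CyG.Main
import Pool.Agent.CyG.Tangent
import Pool.Agent.CyG.Four
import Pool.Agent.CyG.Types

set_option autoImplicit false

/-!
# Two disjoint embedded geodesic lines when all circles `{t = const}` are geodesics
-/

namespace Pool.Agent.CyG

open Set Filter Topology
open scoped ContDiff

/-- The projection to `[-M, M]`. -/
noncomputable def clampM (M m : ℝ) : ℝ := max (-M) (min M m)

theorem clampM_neg {M : ℝ} (hM : 0 ≤ M) (m : ℝ) : clampM M (-m) = -clampM M m := by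
  unfold clampM
  rcases le_total m (-M) with h1 | h1
  · rw [min_eq_left (by linarith : M ≤ -m), max_eq_right (by linarith : -M ≤ M),
      min_eq_right (by linarith : m ≤ M), max_eq_left h1]
    ring
  · rcases le_total m M with h2 | h2
    · rw [min_eq_right (by linarith : -m ≤ M), max_eq_right (by linarith : -M ≤ -m),
        min_eq_right h2, max_eq_right h1]
    · rw [min_eq_right (by linarith : -m ≤ M), max_eq_left (by linarith : -m ≤ -M),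
        min_eq_left h2, max_eq_right (by linarith : -M ≤ M)]

theorem clampM_self {M : ℝ} (hM : 0 ≤ M) : clampM M (-M) = -M := by
  unfold clampM
  rw [min_eq_right (by linarith : -M ≤ M), max_self]

theorem abs_clampM_le {M : ℝ} (hM : 0 ≤ M) (m : ℝ) : |clampM M m| ≤ M := by
  unfold clampM
  rw [abs_le]
  exact ⟨le_max_left _ _, max_le (by linarith) (min_le_left _ _)⟩

theorem continuous_clampM (M : ℝ) : Continuous (clampM M) := by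
  unfold clampM
  fun_prop

namespace CylMetric

variable {g : CylMetric} {φ : ℝ → State → State}

/-- The first state: at `(x, 0)` with the direction `m e₁ + √(1 - m²) n`. -/
noncomputable def flatA (g : CylMetric) (M : ℝ) (q : ℝ × ℝ) : State :=
  g.famState 0 (clampM M q.2) (√(1 - clampM M q.2 ^ 2)) q.1

/-- The second state: at `(x + 1/2, 0)` with the direction `-m e₁ + √(1 - m²) n`. -/
noncomputable def flatB (g : CylMetric) (M : ℝ) (q : ℝ × ℝ) : State :=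
  g.famState 0 (-clampM M q.2) (√(1 - clampM M q.2 ^ 2)) (q.1 + 1 / 2)

theorem flatA_glide (g : CylMetric) {M : ℝ} (hM : 0 ≤ M) (x m : ℝ) :
    g.flatA M (x + 1 / 2, -m) = g.flatB M (x, m) := by
  simp only [flatA, flatB, clampM_neg hM, neg_sq]

theorem flatB_glide (g : CylMetric) {M : ℝ} (hM : 0 ≤ M) (x m : ℝ) :
    g.flatB M (x + 1 / 2, -m) = shift (g.flatA M (x, m)) := by
  simp only [flatA, flatB, clampM_neg hM, neg_sq, neg_neg]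
  rw [← famState_per]
  congr 1
  ring

theorem en_flat_aux {M : ℝ} (hM : 0 ≤ M) (hM1 : M < 1) (m : ℝ) :
    clampM M m ^ 2 + √(1 - clampM M m ^ 2) ^ 2 = 1 ∧ 0 < √(1 - clampM M m ^ 2) := by
  have h1 : clampM M m ^ 2 < 1 := by
    have := abs_clampM_le hM m
    have h2 : |clampM M m| < 1 := lt_of_le_of_lt this hM1
    have := abs_lt.1 h2
    nlinarith
  refine ⟨?_, Real.sqrt_pos.2 (by linarith)⟩
  rw [Real.sq_sqrt (by linarith)]
  ring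

theorem en_flatA (g : CylMetric) {M : ℝ} (hM : 0 ≤ M) (hM1 : M < 1) (q : ℝ × ℝ) :
    g.en (g.flatA M q) = 1 := by
  unfold flatA
  rw [famState_en]
  exact (en_flat_aux hM hM1 q.2).1

theorem en_flatB (g : CylMetric) {M : ℝ} (hM : 0 ≤ M) (hM1 : M < 1) (q : ℝ × ℝ) :
    g.en (g.flatB M q) = 1 := by
  unfold flatB
  rw [famState_en, neg_sq]
  exact (en_flat_aux hM hM1 q.2).1

theorem w_flatA (g : CylMetric) {M : ℝ} (hM : 0 ≤ M) (hM1 : M < 1) (q : ℝ × ℝ) :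
    0 < g.w (g.flatA M q) :=
  g.famState_w_pos _ _ _ (en_flat_aux hM hM1 q.2).2

theorem w_flatB (g : CylMetric) {M : ℝ} (hM : 0 ≤ M) (hM1 : M < 1) (q : ℝ × ℝ) :
    0 < g.w (g.flatB M q) :=
  g.famState_w_pos _ _ _ (en_flat_aux hM hM1 q.2).2

theorem continuous_flatA (g : CylMetric) (M : ℝ) : Continuous (g.flatA M) := by
  have h1 : Continuous fun q : ℝ × ℝ => clampM M q.2 :=
    (continuous_clampM M).comp continuous_snd
  exact (g.continuous_famState 0).comp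
    (h1.prodMk ((Real.continuous_sqrt.comp (continuous_const.sub (h1.pow 2))).prodMk
      continuous_fst))

theorem continuous_flatB (g : CylMetric) (M : ℝ) : Continuous (g.flatB M) := by
  have h1 : Continuous fun q : ℝ × ℝ => clampM M q.2 :=
    (continuous_clampM M).comp continuous_snd
  exact (g.continuous_famState 0).comp
    (h1.neg.prodMk ((Real.continuous_sqrt.comp (continuous_const.sub (h1.pow 2))).prodMk
      (continuous_fst.add continuous_const)))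

/-- Where the second orbit meets the first one translated by `k`, they cross transversally. -/
theorem IsFlow.crossing (h : g.IsFlow φ) {z z' : State} (hen : g.en z = 1) (hen' : g.en z' = 1)
    (hw : ∀ s, 0 < g.w (φ s z)) (hw' : ∀ s, 0 < g.w (φ s z')) {k : ℝ} {s₁ s₂ : ℝ}
    (hsh : ∀ a b, φ s₁ z = a → φ s₂ z' = b → b ≠ (a.1 + k, a.2))
    (hk : ∀ a : State, g.en (a.1 + k, a.2) = g.en a ∧ g.v (a.1 + k, a.2) = g.v a ∧
      g.w (a.1 + k, a.2) = g.w a)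
    (hu : (φ s₁ z).2.1 = (φ s₂ z').2.1) (hx : (φ s₂ z').1 = (φ s₁ z).1 + k) :
    ((∀ ε > 0, ∃ σ₁ ∈ Ioo (s₁ - ε) s₁, ∃ σ₂ ∈ Ioo (s₂ - ε) s₂,
          (φ σ₁ z).2.1 = (φ σ₂ z').2.1 ∧ (φ σ₂ z').1 < (φ σ₁ z).1 + k) ∧
        (∀ ε > 0, ∃ σ₁ ∈ Ioo s₁ (s₁ + ε), ∃ σ₂ ∈ Ioo s₂ (s₂ + ε),
          (φ σ₁ z).2.1 = (φ σ₂ z').2.1 ∧ (φ σ₁ z).1 + k < (φ σ₂ z').1)) ∨
      ((∀ ε > 0, ∃ σ₁ ∈ Ioo (s₁ - ε) s₁, ∃ σ₂ ∈ Ioo (s₂ - ε) s₂,
          (φ σ₁ z).2.1 = (φ σ₂ z').2.1 ∧ (φ σ₁ z).1 + k < (φ σ₂ z').1) ∧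
        (∀ ε > 0, ∃ σ₁ ∈ Ioo s₁ (s₁ + ε), ∃ σ₂ ∈ Ioo s₂ (s₂ + ε),
          (φ σ₁ z).2.1 = (φ σ₂ z').2.1 ∧ (φ σ₂ z').1 < (φ σ₁ z).1 + k)) := by
  have hc : ∀ a : State, Continuous fun s => (φ s a).2.1 := fun a =>
    continuous_fst.comp (continuous_snd.comp (h.continuous_time a))
  have d1 : HasDerivAt (fun s => (φ s z).1 + k) (g.v (φ s₁ z)) s₁ :=
    (h.hasDerivAt_x z s₁).add_const k
  have hne : g.v (φ s₁ z) / g.w (φ s₁ z) ≠ g.v (φ s₂ z') / g.w (φ s₂ z') := by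
    intro he
    have h1 := g.eq_of_slope (z := φ s₂ z') (z' := ((φ s₁ z).1 + k, (φ s₁ z).2))
      (by rw [h.en_flow, hen']) (by rw [(hk _).1, h.en_flow, hen]) (hw' s₂)
      (by rw [(hk _).2.2]; exact hw s₁) hx hu.symm
      (by rw [(hk _).2.1, (hk _).2.2]; exact he.symm)
    exact hsh _ _ rfl rfl h1
  rcases lt_or_gt_of_ne hne with hlt | hgt
  · left
    refine ⟨fun ε hε => ?_, fun ε hε => ?_⟩
    · obtain ⟨σ₁, h1, σ₂, h2, h3, h4⟩ := cross_before (x₁ := fun s => (φ s z).1 + k) (hc z) (hc z')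
        (h.hasDerivAt_t z s₁) d1 (h.hasDerivAt_t z' s₂) (h.hasDerivAt_x z' s₂) (hw s₁) (hw' s₂)
        hu hx.symm hlt hε
      exact ⟨σ₁, h1, σ₂, h2, h3, h4⟩
    · obtain ⟨σ₁, h1, σ₂, h2, h3, h4⟩ := cross_after (x₁ := fun s => (φ s z).1 + k) (hc z) (hc z')
        (h.hasDerivAt_t z s₁) d1 (h.hasDerivAt_t z' s₂) (h.hasDerivAt_x z' s₂) (hw s₁) (hw' s₂)
        hu hx.symm hlt hε
      exact ⟨σ₁, h1, σ₂, h2, h3, h4⟩
  · right
    refine ⟨fun ε hε => ?_, fun ε hε => ?_⟩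
    · obtain ⟨σ₂, h2, σ₁, h1, h3, h4⟩ := cross_before (x₂ := fun s => (φ s z).1 + k) (hc z') (hc z)
        (h.hasDerivAt_t z' s₂) (h.hasDerivAt_x z' s₂) (h.hasDerivAt_t z s₁) d1 (hw' s₂) (hw s₁)
        hu.symm hx hgt hε
      exact ⟨σ₁, h1, σ₂, h2, h3.symm, h4⟩
    · obtain ⟨σ₂, h2, σ₁, h1, h3, h4⟩ := cross_after (x₂ := fun s => (φ s z).1 + k) (hc z') (hc z)
        (h.hasDerivAt_t z' s₂) (h.hasDerivAt_x z' s₂) (h.hasDerivAt_t z s₁) d1 (hw' s₂) (hw s₁)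
        hu.symm hx hgt hε
      exact ⟨σ₁, h1, σ₂, h2, h3.symm, h4⟩

/-- Orbits through different points of one level never coincide. -/
theorem IsFlow.flow_ne (h : g.IsFlow φ) {z z' : State} (hw : ∀ s, 0 < g.w (φ s z))
    (ht : z.2.1 = z'.2.1) (hx : z.1 ≠ z'.1) (s₁ s₂ : ℝ) : φ s₂ z' ≠ φ s₁ z := by
  intro he
  have h1 : z' = φ (s₁ - s₂) z := by
    have h2 : φ (-s₂) (φ s₂ z') = φ (-s₂) (φ s₁ z) := by rw [he]
    rw [← h.add, ← h.add, neg_add_cancel, h.zero] at h2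
    rw [h2]
    congr 1
    ring
  have hmono := (h.isEmbedding hw).1
  have h2 : s₁ - s₂ = 0 := by
    apply hmono.injective
    simp only [h.zero]
    rw [← h1, ht]
  rw [h2, h.zero] at h1
  exact hx (by rw [h1])

theorem typeP_glide {U₁ Y₁ U₂ Y₂ : ℝ × ℝ → ℝ → ℝ} {q q' : ℝ × ℝ} (hU₁ : ∀ s, U₁ q' s = U₂ q s)
    (hY₁ : ∀ s, Y₁ q' s = Y₂ q s) (hU₂ : ∀ s, U₂ q' s = U₁ q s)
    (hY₂ : ∀ s, Y₂ q' s = Y₁ q s + 1) : q ∈ typeP U₁ Y₁ U₂ Y₂ ↔ q' ∈ typeQ U₁ Y₁ U₂ Y₂ := by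
  constructor
  · rintro ⟨s₁, s₂, h1, h2, h3, h4, h5⟩
    refine ⟨s₂, s₁, h2, h1, by rw [hU₁, hU₂, h3], by rw [hY₁, hY₂]; linarith, ?_⟩
    intro σ₁ σ₂ g1 g2 g3 g4 g5
    rw [hU₁, hU₂] at g5
    rw [hY₁, hY₂]
    exact h5 σ₂ σ₁ g2 g1 g4 g3 g5.symm
  · rintro ⟨s₁, s₂, h1, h2, h3, h4, h5⟩
    rw [hU₁, hU₂] at h3
    rw [hY₁, hY₂] at h4
    refine ⟨s₂, s₁, h2, h1, h3.symm, by linarith, ?_⟩
    intro σ₁ σ₂ g1 g2 g3 g4 g5
    have := h5 σ₂ σ₁ g2 g1 g4 g3 (by rw [hU₁, hU₂]; exact g5.symm)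
    rw [hY₁, hY₂] at this
    exact this

theorem typeQ_glide {U₁ Y₁ U₂ Y₂ : ℝ × ℝ → ℝ → ℝ} {q q' : ℝ × ℝ} (hU₁ : ∀ s, U₁ q' s = U₂ q s)
    (hY₁ : ∀ s, Y₁ q' s = Y₂ q s) (hU₂ : ∀ s, U₂ q' s = U₁ q s)
    (hY₂ : ∀ s, Y₂ q' s = Y₁ q s + 1) : q ∈ typeQ U₁ Y₁ U₂ Y₂ ↔ q' ∈ typeP U₁ Y₁ U₂ Y₂ := by
  constructor
  · rintro ⟨s₁, s₂, h1, h2, h3, h4, h5⟩
    refine ⟨s₂, s₁, h2, h1, by rw [hU₁, hU₂, h3], by rw [hY₁, hY₂]; linarith, ?_⟩
    intro σ₁ σ₂ g1 g2 g3 g4 g5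
    rw [hU₁, hU₂] at g5
    rw [hY₁, hY₂]
    have := h5 σ₂ σ₁ g2 g1 g4 g3 g5.symm
    linarith
  · rintro ⟨s₁, s₂, h1, h2, h3, h4, h5⟩
    rw [hU₁, hU₂] at h3
    rw [hY₁, hY₂] at h4
    refine ⟨s₂, s₁, h2, h1, h3.symm, by linarith, ?_⟩
    intro σ₁ σ₂ g1 g2 g3 g4 g5
    have := h5 σ₂ σ₁ g2 g1 g4 g3 (by rw [hU₁, hU₂]; exact g5.symm)
    rw [hY₁, hY₂] at this
    linarith

theorem IsFlow.exists_flat (h : g.IsFlow φ) (hb : ∀ p, g.bend p = 0) :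
    ∃ z₁ z₂ : State, g.en z₁ = 1 ∧ g.en z₂ = 1 ∧
      (∀ s, 0 < g.w (φ s z₁)) ∧ (∀ s, 0 < g.w (φ s z₂)) ∧
      ∀ s s', (φ s z₁).2.1 = (φ s' z₂).2.1 →
        0 < (φ s' z₂).1 - (φ s z₁).1 ∧ (φ s' z₂).1 - (φ s z₁).1 < 1 := by
  obtain ⟨M, S, hM, hM1, hS, hT⟩ := h.exists_tangent (r := 0) (fun x => hb _)
  have wA : ∀ q s, 0 < g.w (φ s (g.flatA M q)) := fun q s =>
    h.w_pos_of_flat hb (g.w_flatA hM.le hM1 q) s
  have wB : ∀ q s, 0 < g.w (φ s (g.flatB M q)) := fun q s =>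
    h.w_pos_of_flat hb (g.w_flatB hM.le hM1 q) s
  have eA := g.en_flatA hM.le hM1
  have eB := g.en_flatB hM.le hM1
  obtain ⟨U₁, hU₁⟩ : ∃ U : ℝ × ℝ → ℝ → ℝ, ∀ q s, U q s = (φ s (g.flatA M q)).2.1 :=
    ⟨_, fun _ _ => rfl⟩
  obtain ⟨Y₁, hY₁⟩ : ∃ U : ℝ × ℝ → ℝ → ℝ, ∀ q s, U q s = (φ s (g.flatA M q)).1 :=
    ⟨_, fun _ _ => rfl⟩
  obtain ⟨U₂, hU₂⟩ : ∃ U : ℝ × ℝ → ℝ → ℝ, ∀ q s, U q s = (φ s (g.flatB M q)).2.1 :=
    ⟨_, fun _ _ => rfl⟩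
  obtain ⟨Y₂, hY₂⟩ : ∃ U : ℝ × ℝ → ℝ → ℝ, ∀ q s, U q s = (φ s (g.flatB M q)).1 :=
    ⟨_, fun _ _ => rfl⟩
  have cA : Continuous fun p : (ℝ × ℝ) × ℝ => φ p.2 (g.flatA M p.1) :=
    h.continuous.comp (continuous_snd.prodMk ((g.continuous_flatA M).comp continuous_fst))
  have cB : Continuous fun p : (ℝ × ℝ) × ℝ => φ p.2 (g.flatB M p.1) :=
    h.continuous.comp (continuous_snd.prodMk ((g.continuous_flatB M).comp continuous_fst))
  have cU₁ : Continuous fun p : (ℝ × ℝ) × ℝ => U₁ p.1 p.2 := by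
    simp only [hU₁]; exact continuous_fst.comp (continuous_snd.comp cA)
  have cY₁ : Continuous fun p : (ℝ × ℝ) × ℝ => Y₁ p.1 p.2 := by
    simp only [hY₁]; exact continuous_fst.comp cA
  have cU₂ : Continuous fun p : (ℝ × ℝ) × ℝ => U₂ p.1 p.2 := by
    simp only [hU₂]; exact continuous_fst.comp (continuous_snd.comp cB)
  have cY₂ : Continuous fun p : (ℝ × ℝ) × ℝ => Y₂ p.1 p.2 := by
    simp only [hY₂]; exact continuous_fst.comp cB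
  have mA : ∀ q, StrictMono (U₁ q) := fun q s s' hss => by
    rw [hU₁, hU₁]; exact (h.isEmbedding (wA q)).1 hss
  have mB : ∀ q, StrictMono (U₂ q) := fun q s s' hss => by
    rw [hU₂, hU₂]; exact (h.isEmbedding (wB q)).1 hss
  have lA : ∀ q, U₁ q 0 = 0 := fun q => by rw [hU₁, h.zero]; rfl
  have lB : ∀ q, U₂ q 0 = 0 := fun q => by rw [hU₂, h.zero]; rfl
  have xA : ∀ q, Y₁ q 0 = q.1 := fun q => by rw [hY₁, h.zero]; rfl
  have xB : ∀ q, Y₂ q 0 = q.1 + 1 / 2 := fun q => by rw [hY₂, h.zero]; rfl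
  have hC : ∀ q s₁ s₂ (k : ℝ), (k = 0 ∨ k = 1) → U₁ q s₁ = U₂ q s₂ → Y₂ q s₂ = Y₁ q s₁ + k →
      ((∀ ε > 0, ∃ σ₁ ∈ Ioo (s₁ - ε) s₁, ∃ σ₂ ∈ Ioo (s₂ - ε) s₂,
          U₁ q σ₁ = U₂ q σ₂ ∧ Y₂ q σ₂ < Y₁ q σ₁ + k) ∧
        (∀ ε > 0, ∃ σ₁ ∈ Ioo s₁ (s₁ + ε), ∃ σ₂ ∈ Ioo s₂ (s₂ + ε),
          U₁ q σ₁ = U₂ q σ₂ ∧ Y₁ q σ₁ + k < Y₂ q σ₂)) ∨
      ((∀ ε > 0, ∃ σ₁ ∈ Ioo (s₁ - ε) s₁, ∃ σ₂ ∈ Ioo (s₂ - ε) s₂,
          U₁ q σ₁ = U₂ q σ₂ ∧ Y₁ q σ₁ + k < Y₂ q σ₂) ∧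
        (∀ ε > 0, ∃ σ₁ ∈ Ioo s₁ (s₁ + ε), ∃ σ₂ ∈ Ioo s₂ (s₂ + ε),
          U₁ q σ₁ = U₂ q σ₂ ∧ Y₂ q σ₂ < Y₁ q σ₁ + k)) := by
    intro q s₁ s₂ k hk hu hy
    simp only [hU₁, hU₂, hY₁, hY₂] at hu hy ⊢
    rcases hk with rfl | rfl
    · refine h.crossing (eA q) (eB q) (wA q) (wB q) ?_ ?_ hu hy
      · rintro a b rfl rfl
        have h1 := h.flow_ne (z := g.flatA M q) (z' := g.flatB M q) (wA q) rfl
          (by change q.1 ≠ q.1 + 1 / 2; intro h2; linarith) s₁ s₂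
        simp only [add_zero]
        exact h1
      · intro a
        simp only [add_zero, Prod.mk.eta, and_self]
    · refine h.crossing (eA q) (eB q) (wA q) (wB q) ?_ ?_ hu hy
      · rintro a b rfl rfl
        have h1 := h.flow_ne (z := CyG.shift (g.flatA M q)) (z' := g.flatB M q)
          (fun s => by rw [h.shift, g.w_shift]; exact wA q s) rfl
          (by change q.1 + 1 ≠ q.1 + 1 / 2; intro h2; linarith) s₁ s₂
        rw [h.shift] at h1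
        exact h1
      · intro a
        exact ⟨g.en_shift a, g.v_shift a, g.w_shift a⟩
  -- the backward curves
  have hC' : ∀ q s₁ s₂ (k : ℝ), (k = 0 ∨ k = 1) → -U₁ q (-s₁) = -U₂ q (-s₂) →
      Y₂ q (-s₂) = Y₁ q (-s₁) + k →
      ((∀ ε > 0, ∃ σ₁ ∈ Ioo (s₁ - ε) s₁, ∃ σ₂ ∈ Ioo (s₂ - ε) s₂,
          -U₁ q (-σ₁) = -U₂ q (-σ₂) ∧ Y₂ q (-σ₂) < Y₁ q (-σ₁) + k) ∧
        (∀ ε > 0, ∃ σ₁ ∈ Ioo s₁ (s₁ + ε), ∃ σ₂ ∈ Ioo s₂ (s₂ + ε),
          -U₁ q (-σ₁) = -U₂ q (-σ₂) ∧ Y₁ q (-σ₁) + k < Y₂ q (-σ₂))) ∨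
      ((∀ ε > 0, ∃ σ₁ ∈ Ioo (s₁ - ε) s₁, ∃ σ₂ ∈ Ioo (s₂ - ε) s₂,
          -U₁ q (-σ₁) = -U₂ q (-σ₂) ∧ Y₁ q (-σ₁) + k < Y₂ q (-σ₂)) ∧
        (∀ ε > 0, ∃ σ₁ ∈ Ioo s₁ (s₁ + ε), ∃ σ₂ ∈ Ioo s₂ (s₂ + ε),
          -U₁ q (-σ₁) = -U₂ q (-σ₂) ∧ Y₂ q (-σ₂) < Y₁ q (-σ₁) + k)) := by
    intro q s₁ s₂ k hk hu hy
    rcases hC q (-s₁) (-s₂) k hk (neg_inj.1 hu) hy with ⟨hb, ha⟩ | ⟨hb, ha⟩
    · right
      refine ⟨fun ε hε => ?_, fun ε hε => ?_⟩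
      · obtain ⟨σ₁, h1, σ₂, h2, h3, h4⟩ := ha ε hε
        exact ⟨-σ₁, ⟨by linarith [h1.2], by linarith [h1.1]⟩, -σ₂,
          ⟨by linarith [h2.2], by linarith [h2.1]⟩, by rw [neg_neg, neg_neg, h3],
          by rw [neg_neg, neg_neg]; exact h4⟩
      · obtain ⟨σ₁, h1, σ₂, h2, h3, h4⟩ := hb ε hε
        exact ⟨-σ₁, ⟨by linarith [h1.2], by linarith [h1.1]⟩, -σ₂,
          ⟨by linarith [h2.2], by linarith [h2.1]⟩, by rw [neg_neg, neg_neg, h3],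
          by rw [neg_neg, neg_neg]; exact h4⟩
    · left
      refine ⟨fun ε hε => ?_, fun ε hε => ?_⟩
      · obtain ⟨σ₁, h1, σ₂, h2, h3, h4⟩ := ha ε hε
        exact ⟨-σ₁, ⟨by linarith [h1.2], by linarith [h1.1]⟩, -σ₂,
          ⟨by linarith [h2.2], by linarith [h2.1]⟩, by rw [neg_neg, neg_neg, h3],
          by rw [neg_neg, neg_neg]; exact h4⟩
      · obtain ⟨σ₁, h1, σ₂, h2, h3, h4⟩ := hb ε hε
        exact ⟨-σ₁, ⟨by linarith [h1.2], by linarith [h1.1]⟩, -σ₂,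
          ⟨by linarith [h2.2], by linarith [h2.1]⟩, by rw [neg_neg, neg_neg, h3],
          by rw [neg_neg, neg_neg]; exact h4⟩
  have hnegc : Continuous fun p : (ℝ × ℝ) × ℝ => (p.1, -p.2) :=
    continuous_fst.prodMk continuous_snd.neg
  have cV₁ : Continuous fun p : (ℝ × ℝ) × ℝ => -U₁ p.1 (-p.2) := (cU₁.comp hnegc).neg
  have cZ₁ : Continuous fun p : (ℝ × ℝ) × ℝ => Y₁ p.1 (-p.2) := cY₁.comp hnegc
  have cV₂ : Continuous fun p : (ℝ × ℝ) × ℝ => -U₂ p.1 (-p.2) := (cU₂.comp hnegc).neg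
  have cZ₂ : Continuous fun p : (ℝ × ℝ) × ℝ => Y₂ p.1 (-p.2) := cY₂.comp hnegc
  have mV₁ : ∀ q, StrictMono fun s => -U₁ q (-s) := fun q s s' hss =>
    neg_lt_neg (mA q (neg_lt_neg hss))
  have mV₂ : ∀ q, StrictMono fun s => -U₂ q (-s) := fun q s s' hss =>
    neg_lt_neg (mB q (neg_lt_neg hss))
  -- the glide
  have gU₁ : ∀ x m s, U₁ (x + 1 / 2, -m) s = U₂ (x, m) s := fun x m s => by
    rw [hU₁, hU₂, g.flatA_glide hM.le]
  have gY₁ : ∀ x m s, Y₁ (x + 1 / 2, -m) s = Y₂ (x, m) s := fun x m s => by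
    rw [hY₁, hY₂, g.flatA_glide hM.le]
  have gU₂ : ∀ x m s, U₂ (x + 1 / 2, -m) s = U₁ (x, m) s := fun x m s => by
    rw [hU₁, hU₂, g.flatB_glide hM.le, h.shift]; rfl
  have gY₂ : ∀ x m s, Y₂ (x + 1 / 2, -m) s = Y₁ (x, m) s + 1 := fun x m s => by
    rw [hY₁, hY₂, g.flatB_glide hM.le, h.shift]; rfl
  -- at `m = -M` the backward orbits cross
  have hbd : ∀ x, (x, -M) ∈ typeP (fun q s => -U₁ q (-s)) (fun q s => Y₁ q (-s))
      (fun q s => -U₂ q (-s)) (fun q s => Y₂ q (-s)) := by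
    intro x
    have fA : g.flatA M (x, -M) = g.famState 0 (-M) (√(1 - M ^ 2)) x := by
      simp only [flatA, clampM_self hM.le, neg_sq]
    have fB : g.flatB M (x, -M) = g.famState 0 M (√(1 - M ^ 2)) (x + 1 / 2) := by
      simp only [flatB, clampM_self hM.le, neg_sq, neg_neg]
    obtain ⟨-, a1, -, -, -, a2⟩ := hT x
    obtain ⟨b1, -, -, b2, -, -⟩ := hT (x + 1 / 2)
    rw [← fA] at a1 a2
    rw [← fB] at b1 b2
    have antiA : AntitoneOn (fun s => Y₁ (x, -M) s) (Icc (-S) S) := by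
      simp only [hY₁]
      refine antitoneOn_of_deriv_nonpos (convex_Icc _ _) ?_ ?_ ?_
      · exact (continuous_fst.comp (h.continuous_time _)).continuousOn
      · exact fun s _ => (h.hasDerivAt_x _ s).differentiableAt.differentiableWithinAt
      · intro s hs
        rw [interior_Icc] at hs
        rw [(h.hasDerivAt_x _ s).deriv]
        exact (a1 s ⟨hs.1.le, hs.2.le⟩).le
    have monoB : MonotoneOn (fun s => Y₂ (x, -M) s) (Icc (-S) S) := by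
      simp only [hY₂]
      refine monotoneOn_of_deriv_nonneg (convex_Icc _ _) ?_ ?_ ?_
      · exact (continuous_fst.comp (h.continuous_time _)).continuousOn
      · exact fun s _ => (h.hasDerivAt_x _ s).differentiableAt.differentiableWithinAt
      · intro s hs
        rw [interior_Icc] at hs
        rw [(h.hasDerivAt_x _ s).deriv]
        exact (b1 s ⟨hs.1.le, hs.2.le⟩).le
    have lowA : ∀ s, 0 ≤ s → s ≤ S → x ≤ Y₁ (x, -M) (-s) := by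
      intro s h1 h2
      have := antiA (a := -s) (b := 0) ⟨by linarith, by linarith⟩ ⟨by linarith, hS.le⟩
        (by linarith)
      simp only [xA] at this
      exact this
    have uppB : ∀ s, 0 ≤ s → s ≤ S → Y₂ (x, -M) (-s) ≤ x + 1 / 2 := by
      intro s h1 h2
      have := monoB (a := -s) (b := 0) ⟨by linarith, by linarith⟩ ⟨by linarith, hS.le⟩
        (by linarith)
      simp only [xB] at this
      exact this
    have endA : x + 1 < Y₁ (x, -M) (-S) := by rw [hY₁]; exact a2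
    have endB : Y₂ (x, -M) (-S) < x + 1 / 2 - 1 := by rw [hY₂]; exact b2
    have cv₁ : Continuous fun s => -U₁ (x, -M) (-s) :=
      cV₁.comp (continuous_const.prodMk continuous_id)
    have cv₂ : Continuous fun s => -U₂ (x, -M) (-s) :=
      cV₂.comp (continuous_const.prodMk continuous_id)
    rcases le_total (-U₁ (x, -M) (-S)) (-U₂ (x, -M) (-S)) with hle | hle
    · have hmem : -U₁ (x, -M) (-S) ∈ Icc (-U₂ (x, -M) (-0)) (-U₂ (x, -M) (-S)) := by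
        refine ⟨?_, hle⟩
        have := (mV₁ (x, -M)).monotone hS.le
        simp only [neg_zero, lA] at this
        rw [neg_zero, lB, neg_zero]
        exact this
      obtain ⟨s₂, hs₂, hs₂e⟩ := intermediate_value_Icc hS.le cv₂.continuousOn hmem
      refine ⟨S, s₂, hS.le, hs₂.1, hs₂e.symm, ?_, ?_⟩
      · have := uppB s₂ hs₂.1 hs₂.2
        simp only
        linarith
      · intro σ₁ σ₂ g1 g2 g3 g4 _
        have e1 := lowA σ₁ g1 g3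
        have e2 := uppB σ₂ g2 (g4.trans hs₂.2)
        simp only
        linarith
    · have hmem : -U₂ (x, -M) (-S) ∈ Icc (-U₁ (x, -M) (-0)) (-U₁ (x, -M) (-S)) := by
        refine ⟨?_, hle⟩
        have := (mV₂ (x, -M)).monotone hS.le
        simp only [neg_zero, lB] at this
        rw [neg_zero, lA, neg_zero]
        exact this
      obtain ⟨s₁, hs₁, hs₁e⟩ := intermediate_value_Icc hS.le cv₁.continuousOn hmem
      refine ⟨s₁, S, hs₁.1, hS.le, hs₁e, ?_, ?_⟩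
      · have := lowA s₁ hs₁.1 hs₁.2
        simp only
        linarith
      · intro σ₁ σ₂ g1 g2 g3 g4 _
        have e1 := lowA σ₁ g1 (g3.trans hs₁.2)
        have e2 := uppB σ₂ g2 g4
        simp only
        linarith
  have hl : ∀ q : ℝ × ℝ, Y₁ q 0 < Y₂ q 0 := fun q => by rw [xA, xB]; linarith
  have hr : ∀ q : ℝ × ℝ, Y₂ q 0 < Y₁ q 0 + 1 := fun q => by rw [xA, xB]; linarith
  have hl' : ∀ q : ℝ × ℝ, Y₁ q (-0) < Y₂ q (-0) := fun q => by rw [neg_zero]; exact hl q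
  have hr' : ∀ q : ℝ × ℝ, Y₂ q (-0) < Y₁ q (-0) + 1 := fun q => by rw [neg_zero]; exact hr q
  have lA' : ∀ q, -U₁ q (-0) = 0 := fun q => by rw [neg_zero, lA, neg_zero]
  have lB' : ∀ q, -U₂ q (-0) = 0 := fun q => by rw [neg_zero, lB, neg_zero]
  obtain ⟨x, m, n1, n2, n3, n4⟩ := exists_not_mem_four hM
    (isOpen_typeP cU₁ cY₁ cU₂ cY₂ mA mB lA lB hl hr)
    (isOpen_typeQ cU₁ cY₁ cU₂ cY₂ mA mB lA lB hl hr)
    (isOpen_typeP cV₁ cZ₁ cV₂ cZ₂ mV₁ mV₂ lA' lB' hl' hr')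
    (isOpen_typeQ cV₁ cZ₁ cV₂ cZ₂ mV₁ mV₂ lA' lB' hl' hr')
    (disjoint_types mA mB) (disjoint_types mV₁ mV₂)
    (fun x m => typeP_glide (gU₁ x m) (gY₁ x m) (gU₂ x m) (gY₂ x m))
    (fun x m => typeQ_glide (gU₁ x m) (gY₁ x m) (gU₂ x m) (gY₂ x m))
    (fun x m => typeP_glide (fun s => by simp only [gU₁]) (fun s => by simp only [gY₁])
      (fun s => by simp only [gU₂]) (fun s => by simp only [gY₂]))
    (fun x m => typeQ_glide (fun s => by simp only [gU₁]) (fun s => by simp only [gY₁])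
      (fun s => by simp only [gU₂]) (fun s => by simp only [gY₂])) hbd
  refine ⟨g.flatA M (x, m), g.flatB M (x, m), eA _, eB _, wA _, wB _, fun s s' he => ?_⟩
  rw [← hU₁, ← hU₂] at he
  rw [← hY₁, ← hY₂]
  rcases le_total 0 s with hs | hs
  · have hs' : 0 ≤ s' := by
      have h1 := (mA (x, m)).monotone hs
      rw [lA, he, ← lB (x, m)] at h1
      exact (mB (x, m)).le_iff_le.1 h1
    exact sep_of_not_mem cU₁ cY₁ cU₂ cY₂ mA mB lA lB hl hr hC n1 n2 hs hs' he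
  · have hs' : s' ≤ 0 := by
      have h1 := (mA (x, m)).monotone hs
      rw [lA, he, ← lB (x, m)] at h1
      exact (mB (x, m)).le_iff_le.1 h1
    have := sep_of_not_mem cV₁ cZ₁ cV₂ cZ₂ mV₁ mV₂ lA' lB' hl' hr' hC' n3 n4
      (s₁ := -s) (s₂ := -s') (by linarith) (by linarith) (by rw [neg_neg, neg_neg, he])
    rw [neg_neg, neg_neg] at this
    exact this

end CylMetric

end Pool.Agent.CyG
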