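import Mathlib

set_option autoImplicit false

/-!
# Ordinary differential equations: uniqueness and continuity of a global flow
-/

namespace Pool.Agent.CyG

open Set Filter Topology Metric
open scoped NNReal

theorem ode_unique {V : Type} [NormedAddCommGroup V] [NormedSpace ℝ V] [FiniteDimensional ℝ V]
    {X : V → V} (hX : ContDiff ℝ 1 X) {c d : ℝ → V} (hc : ∀ t, HasDerivAt c (X (c t)) t)
    (hd : ∀ t, HasDerivAt d (X (d t)) t) {t₀ : ℝ} (h : c t₀ = d t₀) : c = d := by
  have hcc : Continuous c := continuous_iff_continuousAt.2 fun t => (hc t).continuousAt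
  have hdc : Continuous d := continuous_iff_continuousAt.2 fun t => (hd t).continuousAt
  have hclosed : IsClosed {t | c t = d t} := isClosed_eq hcc hdc
  have hopen : IsOpen {t | c t = d t} := by
    rw [isOpen_iff_mem_nhds]
    intro t ht
    obtain ⟨K, s, hs, hK⟩ := (hX.contDiffAt (x := c t)).exists_lipschitzOnWith
    have h1 : ∀ᶠ τ in 𝓝 t, HasDerivAt c (X (c τ)) τ ∧ c τ ∈ s :=
      (Eventually.of_forall hc).and (hcc.continuousAt.eventually hs)
    have h2 : ∀ᶠ τ in 𝓝 t, HasDerivAt d (X (d τ)) τ ∧ d τ ∈ s := by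
      have hs' : s ∈ 𝓝 (d t) := by rw [← (show c t = d t from ht)]; exact hs
      exact (Eventually.of_forall hd).and (hdc.continuousAt.eventually hs')
    exact ODE_solution_unique_of_eventually (v := fun _ => X) (s := fun _ => s)
      (Eventually.of_forall fun _ => hK) h1 h2 ht
  have huniv : {t | c t = d t} = univ := IsClopen.eq_univ ⟨hclosed, hopen⟩ ⟨t₀, h⟩
  funext t
  have : t ∈ {t | c t = d t} := by rw [huniv]; trivial
  exact this

theorem lipschitzOn_ball {V W : Type*} [NormedAddCommGroup V] [NormedSpace ℝ V]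
    [FiniteDimensional ℝ V] [NormedAddCommGroup W] [NormedSpace ℝ W] {X : V → W}
    (hX : ContDiff ℝ 1 X) (x : V) (R : ℝ) : ∃ K : ℝ≥0, LipschitzOnWith K X (closedBall x R) := by
  have : ProperSpace V := FiniteDimensional.proper ℝ V
  have hc : Continuous fun y => fderiv ℝ X y := hX.continuous_fderiv one_ne_zero
  obtain ⟨C, hC⟩ := (isCompact_closedBall x R).exists_bound_of_continuousOn hc.continuousOn
  refine ⟨⟨max C 0, le_max_right _ _⟩, ?_⟩
  refine (convex_closedBall x R).lipschitzOnWith_of_nnnorm_fderiv_le (𝕜 := ℝ)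
    (fun y _ => hX.differentiable one_ne_zero y) (fun y hy => ?_)
  exact (hC y hy).trans (le_max_left _ _)

/-- Gronwall forward in time: if `f` stays in the closed ball of radius `R` about `0` on
`[0, T]` and `g` starts close to `f`, then `g` stays close to `f`. -/
theorem dist_forward_of_close {V : Type} [NormedAddCommGroup V] [NormedSpace ℝ V]
    {X : V → V} {K : ℝ≥0} {R : ℝ} (hK : LipschitzOnWith K X (closedBall 0 (R + 1)))
    {f g : ℝ → V} (hf : ∀ t, HasDerivAt f (X (f t)) t) (hg : ∀ t, HasDerivAt g (X (g t)) t)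
    {T : ℝ} (hT : 0 ≤ T) (hfR : ∀ t ∈ Icc 0 T, ‖f t‖ ≤ R)
    (h0 : dist (f 0) (g 0) * Real.exp (K * T) < 1) :
    ∀ t ∈ Icc 0 T, dist (f t) (g t) ≤ dist (f 0) (g 0) * Real.exp (K * T) := by
  have hcf : Continuous f := continuous_iff_continuousAt.2 fun t => (hf t).continuousAt
  have hcg : Continuous g := continuous_iff_continuousAt.2 fun t => (hg t).continuousAt
  -- if `dist ≤ 1` on `[0, t]` then Gronwall applies on `[0, t]`
  have key : ∀ t ∈ Icc 0 T, (∀ r ∈ Icc 0 t, dist (f r) (g r) ≤ 1) →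
      dist (f t) (g t) ≤ dist (f 0) (g 0) * Real.exp (K * T) := by
    intro t ht h1
    have hfs : ∀ r ∈ Ico 0 t, f r ∈ closedBall (0 : V) (R + 1) := fun r hr => by
      rw [mem_closedBall, dist_zero_right]
      linarith [hfR r ⟨hr.1, hr.2.le.trans ht.2⟩]
    have hgs : ∀ r ∈ Ico 0 t, g r ∈ closedBall (0 : V) (R + 1) := fun r hr => by
      rw [mem_closedBall]
      calc dist (g r) 0 ≤ dist (g r) (f r) + dist (f r) 0 := dist_triangle _ _ _
        _ ≤ 1 + R := by
          refine add_le_add ?_ ?_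
          · rw [dist_comm]; exact h1 r ⟨hr.1, hr.2.le⟩
          · rw [dist_zero_right]; exact hfR r ⟨hr.1, hr.2.le.trans ht.2⟩
        _ = R + 1 := by ring
    have := dist_le_of_trajectories_ODE_of_mem (v := fun _ => X)
      (s := fun _ => closedBall (0 : V) (R + 1)) (K := K)
      (a := 0) (b := t) (fun _ _ => hK) (f := f) (g := g)
      hcf.continuousOn (fun r _ => (hf r).hasDerivWithinAt) hfs
      hcg.continuousOn (fun r _ => (hg r).hasDerivWithinAt) hgs le_rfl t ⟨ht.1, le_rfl⟩
    refine this.trans ?_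
    refine mul_le_mul_of_nonneg_left ?_ dist_nonneg
    rw [Real.exp_le_exp, sub_zero]
    exact mul_le_mul_of_nonneg_left ht.2 K.2
  have hsub : ∀ t ∈ Icc 0 T, dist (f t) (g t) < 1 := by
    by_contra hcon
    push Not at hcon
    obtain ⟨t₁, ht₁, hd₁⟩ := hcon
    let B : Set ℝ := {t | t ∈ Icc 0 T ∧ 1 ≤ dist (f t) (g t)}
    have hBc : IsClosed B := by
      refine isClosed_Icc.inter ?_
      exact isClosed_le continuous_const (hcf.dist hcg)
    have hBne : B.Nonempty := ⟨t₁, ht₁, hd₁⟩
    have hBb : BddBelow B := ⟨0, fun t ht => ht.1.1⟩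
    have hmem := hBc.csInf_mem hBne hBb
    set t₂ := sInf B with ht₂
    have hle : ∀ r ∈ Icc 0 t₂, dist (f r) (g r) ≤ 1 := by
      intro r hr
      rcases eq_or_lt_of_le hr.2 with h | h
      · -- at `t₂`: by continuity
        by_contra hgt
        push Not at hgt
        rcases eq_or_lt_of_le hmem.1.1 with h0' | h0'
        · have : dist (f 0) (g 0) < 1 := by
            refine lt_of_le_of_lt ?_ h0
            have : (1 : ℝ) ≤ Real.exp (K * T) := Real.one_le_exp (mul_nonneg K.2 hT)
            nlinarith [dist_nonneg (x := f 0) (y := g 0)]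
          rw [h, ← h0'] at hgt
          linarith
        · have hev : ∀ᶠ y in 𝓝[<] t₂, 1 < dist (f y) (g y) := by
            have : ∀ᶠ y in 𝓝 t₂, 1 < dist (f y) (g y) := by
              rw [h] at hgt
              exact (hcf.dist hcg).continuousAt.eventually (lt_mem_nhds hgt)
            exact this.filter_mono nhdsWithin_le_nhds
          have hev2 : ∀ᶠ y in 𝓝[<] t₂, y ∈ Ioo 0 t₂ := Ioo_mem_nhdsLT h0'
          obtain ⟨y, hy1, hy2⟩ := (hev.and hev2).exists
          have : t₂ ≤ y := csInf_le hBb ⟨⟨hy2.1.le, hy2.2.le.trans hmem.1.2⟩, hy1.le⟩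
          linarith [hy2.2]
      · by_contra hgt
        push Not at hgt
        have : t₂ ≤ r := csInf_le hBb ⟨⟨hr.1, h.le.trans hmem.1.2⟩, hgt.le⟩
        linarith
    have := key t₂ hmem.1 hle
    linarith [hmem.2]
  intro t ht
  exact key t ht fun r hr => (hsub r ⟨hr.1, hr.2.trans ht.2⟩).le

/-- A globally defined flow of a `C¹` vector field is jointly continuous. -/
theorem continuous_flow {V : Type} [NormedAddCommGroup V] [NormedSpace ℝ V]
    [FiniteDimensional ℝ V] {X : V → V} (hX : ContDiff ℝ 1 X) {φ : ℝ → V → V}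
    (h0 : ∀ z, φ 0 z = z) (hd : ∀ z s, HasDerivAt (fun r => φ r z) (X (φ s z)) s) :
    Continuous (fun p : ℝ × V => φ p.1 p.2) := by
  rw [continuous_iff_continuousAt]
  rintro ⟨s₀, z₀⟩
  have hcz : Continuous fun s => φ s z₀ :=
    continuous_iff_continuousAt.2 fun t => (hd z₀ t).continuousAt
  set T : ℝ := |s₀| + 1 with hT
  have hT0 : 0 ≤ T := by positivity
  obtain ⟨R, hR⟩ := (isCompact_Icc (a := -T) (b := T)).exists_bound_of_continuousOn
    hcz.continuousOn
  obtain ⟨K, hK⟩ := lipschitzOn_ball hX (0 : V) (R + 1)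
  have hK' : LipschitzOnWith K (fun z => - X z) (closedBall 0 (R + 1)) := by
    intro x hx y hy
    have := hK hx hy
    simpa [edist_neg_neg] using this
  have hrev : ∀ z s, HasDerivAt (fun r => φ (-r) z) (- X (φ (-s) z)) s := by
    intro z s
    have := (hd z (-s)).scomp s (hasDerivAt_neg s)
    simpa [Function.comp_def] using this
  have hbound : ∀ z, dist z₀ z * Real.exp (K * T) < 1 → ∀ s ∈ Icc (-T) T,
      dist (φ s z₀) (φ s z) ≤ dist z₀ z * Real.exp (K * T) := by
    intro z hz s hs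
    rcases le_total 0 s with h | h
    · have := dist_forward_of_close (f := fun r => φ r z₀) (g := fun r => φ r z) hK (hd z₀)
        (hd z) hT0 (fun t ht => hR t ⟨by linarith [ht.1], ht.2⟩) (by simpa [h0] using hz)
        s ⟨h, hs.2⟩
      simpa [h0] using this
    · have := dist_forward_of_close (f := fun r => φ (-r) z₀) (g := fun r => φ (-r) z) hK'
        (hrev z₀) (hrev z) hT0 (fun t ht => hR (-t) ⟨by linarith [ht.2], by linarith [ht.1]⟩)
        (by simpa [h0] using hz) (-s) ⟨by linarith, by linarith [hs.1]⟩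
      simpa [h0] using this
  rw [ContinuousAt, tendsto_iff_dist_tendsto_zero]
  have hlim : Tendsto (fun p : ℝ × V => dist z₀ p.2 * Real.exp (K * T)
      + dist (φ p.1 z₀) (φ s₀ z₀)) (𝓝 (s₀, z₀)) (𝓝 0) := by
    have hc : Continuous fun p : ℝ × V => dist z₀ p.2 * Real.exp (K * T)
      + dist (φ p.1 z₀) (φ s₀ z₀) := by
      have h4 : Continuous fun p : ℝ × V => φ p.1 z₀ := hcz.comp continuous_fst
      fun_prop
    have := hc.tendsto (s₀, z₀)
    simpa using this
  refine squeeze_zero' (Eventually.of_forall fun _ => dist_nonneg) ?_ hlim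
  have h1 : ∀ᶠ p : ℝ × V in 𝓝 (s₀, z₀), dist z₀ p.2 * Real.exp (K * T) < 1 := by
    have hc : Continuous fun p : ℝ × V => dist z₀ p.2 * Real.exp (K * T) := by fun_prop
    refine hc.continuousAt.eventually (gt_mem_nhds ?_)
    simp
  have h2 : ∀ᶠ p : ℝ × V in 𝓝 (s₀, z₀), p.1 ∈ Icc (-T) T := by
    refine continuous_fst.continuousAt.eventually (Icc_mem_nhds ?_ ?_)
    · simp only [hT]; linarith [neg_abs_le s₀]
    · simp only [hT]; linarith [le_abs_self s₀]
  filter_upwards [h1, h2] with p hp1 hp2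
  calc dist (φ p.1 p.2) (φ s₀ z₀) ≤ dist (φ p.1 p.2) (φ p.1 z₀) + dist (φ p.1 z₀) (φ s₀ z₀) :=
        dist_triangle _ _ _
    _ ≤ _ := by
      refine add_le_add ?_ le_rfl
      rw [dist_comm]
      exact hbound p.2 hp1 p.1 hp2

end Pool.Agent.CyG
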