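import Pool.Agent.CyG.Field
import Pool.Agent.CyG.Ode

set_option autoImplicit false

/-!
# The geodesic flow
-/

namespace Pool.Agent.CyG

open Set Filter Topology
open scoped ContDiff

namespace CylMetric

variable {g : CylMetric} {φ : ℝ → State → State}

theorem contDiff_one_X (g : CylMetric) : ContDiff ℝ 1 g.X := g.contDiff_X.of_le (by simp)

namespace IsFlow

theorem eq_flow (h : g.IsFlow φ) {c : ℝ → State} (hc : ∀ s, HasDerivAt c (g.X (c s)) s) (s : ℝ) :
    c s = φ s (c 0) := by
  have := ode_unique g.contDiff_one_X hc (h.deriv (c 0)) (t₀ := 0) (h.zero _).symm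
  exact congrFun this s

theorem add (h : g.IsFlow φ) (s r : ℝ) (z : State) : φ (s + r) z = φ s (φ r z) := by
  have := h.eq_flow (c := fun s => φ (s + r) z) (fun s => by
    have := (h.deriv z (s + r)).comp_add_const s r
    exact this) s
  simpa using this

theorem shift (h : g.IsFlow φ) (s : ℝ) (z : State) :
    φ s (CyG.shift z) = CyG.shift (φ s z) := by
  have := h.eq_flow (c := fun s => CyG.shift (φ s z)) (fun s => by
    have h1 := h.deriv z s
    have h2 : HasDerivAt (fun r => φ r z + ((1 : ℝ), (0 : ℝ × ℝ × ℝ))) (g.X (φ s z)) s :=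
      h1.add_const _
    have h3 : (fun r => φ r z + ((1 : ℝ), (0 : ℝ × ℝ × ℝ))) = fun r => CyG.shift (φ r z) := by
      funext r
      simp [CyG.shift, Prod.ext_iff]
    rw [h3] at h2
    rw [g.X_shift]
    exact h2) s
  simp only [h.zero] at this
  exact this.symm

theorem continuous (h : g.IsFlow φ) : Continuous (fun p : ℝ × State => φ p.1 p.2) :=
  continuous_flow g.contDiff_one_X h.zero h.deriv

theorem continuous_time (h : g.IsFlow φ) (z : State) : Continuous (fun s => φ s z) :=
  h.continuous.comp (continuous_id.prodMk continuous_const)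

theorem continuous_state (h : g.IsFlow φ) (s : ℝ) : Continuous (fun z => φ s z) :=
  h.continuous.comp (continuous_const.prodMk continuous_id)

theorem hasDerivAt_x (h : g.IsFlow φ) (z : State) (s : ℝ) :
    HasDerivAt (fun r => (φ r z).1) (g.v (φ s z)) s := (h.deriv z s).fst

theorem hasDerivAt_t (h : g.IsFlow φ) (z : State) (s : ℝ) :
    HasDerivAt (fun r => (φ r z).2.1) (g.w (φ s z)) s := (h.deriv z s).snd.fst

theorem hasDerivAt_p (h : g.IsFlow φ) (z : State) (s : ℝ) :
    HasDerivAt (fun r => (φ r z).2.2.1) (g.X (φ s z)).2.2.1 s := (h.deriv z s).snd.snd.fst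

theorem hasDerivAt_q (h : g.IsFlow φ) (z : State) (s : ℝ) :
    HasDerivAt (fun r => (φ r z).2.2.2) (g.X (φ s z)).2.2.2 s := (h.deriv z s).snd.snd.snd

/-- Conservation of the speed. -/
theorem en_flow (h : g.IsFlow φ) (s : ℝ) (z : State) : g.en (φ s z) = g.en z := by
  have hen : ∀ z : State, g.en z = (g.G (z.1, z.2.1) * z.2.2.1 ^ 2
      - 2 * g.F (z.1, z.2.1) * z.2.2.1 * z.2.2.2 + g.E (z.1, z.2.1) * z.2.2.2 ^ 2)
      / g.det (z.1, z.2.1) := by
    intro z
    have hd := g.det_ne (z.1, z.2.1)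
    rw [eq_div_iff hd]
    unfold en
    have hv : g.v z * g.det (z.1, z.2.1) = g.G (z.1, z.2.1) * z.2.2.1
        - g.F (z.1, z.2.1) * z.2.2.2 := div_mul_cancel₀ _ hd
    have hw : g.w z * g.det (z.1, z.2.1) = g.E (z.1, z.2.1) * z.2.2.2
        - g.F (z.1, z.2.1) * z.2.2.1 := div_mul_cancel₀ _ hd
    have hp := g.p_eq z
    have hq := g.q_eq z
    rw [hp, hq]
    unfold det
    ring
  have key : ∀ s, HasDerivAt (fun r => g.en (φ r z)) 0 s := by
    intro s
    have hE := hasDerivAt_comp_curve g.smooth_E (h.hasDerivAt_x z s) (h.hasDerivAt_t z s)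
    have hF := hasDerivAt_comp_curve g.smooth_F (h.hasDerivAt_x z s) (h.hasDerivAt_t z s)
    have hG := hasDerivAt_comp_curve g.smooth_G (h.hasDerivAt_x z s) (h.hasDerivAt_t z s)
    have hp := h.hasDerivAt_p z s
    have hq := h.hasDerivAt_q z s
    have hdet := (hE.mul hG).sub (hF.pow 2)
    have hnum := ((hG.mul (hp.pow 2)).sub (((hF.const_mul 2).mul hp).mul hq)).add
      (hE.mul (hq.pow 2))
    have hne := g.det_ne ((φ s z).1, (φ s z).2.1)
    have hquot := hnum.div hdet hne
    have hfun : (fun r => g.en (φ r z)) = fun r =>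
        ((g.G ((φ r z).1, (φ r z).2.1) * (φ r z).2.2.1 ^ 2
      - 2 * g.F ((φ r z).1, (φ r z).2.1) * (φ r z).2.2.1 * (φ r z).2.2.2
      + g.E ((φ r z).1, (φ r z).2.1) * (φ r z).2.2.2 ^ 2)
      / g.det ((φ r z).1, (φ r z).2.1)) := funext fun r => hen _
    rw [hfun]
    refine hquot.congr_deriv ?_
    have hv : g.v (φ s z) * g.det ((φ s z).1, (φ s z).2.1) = g.G ((φ s z).1, (φ s z).2.1)
        * (φ s z).2.2.1 - g.F ((φ s z).1, (φ s z).2.1) * (φ s z).2.2.2 := div_mul_cancel₀ _ hne
    have hw : g.w (φ s z) * g.det ((φ s z).1, (φ s z).2.1) = g.E ((φ s z).1, (φ s z).2.1)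
        * (φ s z).2.2.2 - g.F ((φ s z).1, (φ s z).2.1) * (φ s z).2.2.1 := div_mul_cancel₀ _ hne
    have hpp := g.p_eq (φ s z)
    have hqq := g.q_eq (φ s z)
    simp only [X, Pi.mul_apply, Pi.pow_apply, Pi.sub_apply, Pi.add_apply]
    generalize g.v (φ s z) = v at *
    generalize g.w (φ s z) = w at *
    rw [div_eq_zero_iff]
    left
    rw [hpp, hqq]
    unfold det at *
    generalize g.E ((φ s z).1, (φ s z).2.1) = E at *
    generalize g.F ((φ s z).1, (φ s z).2.1) = F at *
    generalize g.G ((φ s z).1, (φ s z).2.1) = G at *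
    push_cast
    ring
  have := is_const_of_deriv_eq_zero (fun s => (key s).differentiableAt)
    (fun s => (key s).deriv) s 0
  simpa [h.zero] using this

end IsFlow

end CylMetric

end Pool.Agent.CyG
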