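import Pool.Agent.CyG.Flow

set_option autoImplicit false

/-!
# Existence of the geodesic flow, and its orbits are geodesics
-/

namespace Pool.Agent.CyG

open Set Filter Topology
open scoped ContDiff

/-- Integral curves of a smooth vector field are smooth. -/
theorem contDiff_of_integral {V : Type} [NormedAddCommGroup V] [NormedSpace ℝ V] {X : V → V}
    (hX : ContDiff ℝ ∞ X) {c : ℝ → V} (hc : ∀ s, HasDerivAt c (X (c s)) s) : ContDiff ℝ ∞ c := by
  have hdiff : Differentiable ℝ c := fun s => (hc s).differentiableAt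
  have hder : deriv c = fun s => X (c s) := funext fun s => (hc s).deriv
  rw [contDiff_infty]
  intro n
  induction n with
  | zero => exact contDiff_zero.2 hdiff.continuous
  | succ n ih =>
    have : ContDiff ℝ ((n : WithTop ℕ∞) + 1) c := by
      rw [contDiff_succ_iff_deriv]
      refine ⟨hdiff, fun h => ?_, ?_⟩
      · exact absurd h (by simp)
      · rw [hder]
        exact (hX.of_le (by exact_mod_cast le_top)).comp ih
    exact_mod_cast this

namespace CylMetric

variable {g : CylMetric} {φ : ℝ → State → State}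

theorem v_of_momenta (g : CylMetric) (x t a b : ℝ) :
    g.v (x, t, g.E (x, t) * a + g.F (x, t) * b, g.F (x, t) * a + g.G (x, t) * b) = a := by
  have h := g.det_ne (x, t)
  unfold v
  rw [div_eq_iff h]
  unfold det
  ring

theorem w_of_momenta (g : CylMetric) (x t a b : ℝ) :
    g.w (x, t, g.E (x, t) * a + g.F (x, t) * b, g.F (x, t) * a + g.G (x, t) * b) = b := by
  have h := g.det_ne (x, t)
  unfold w
  rw [div_eq_iff h]
  unfold det
  ring

theorem exists_flow (hc : g.Complete) : ∃ φ : ℝ → State → State, g.IsFlow φ := by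
  have key : ∀ z : State, ∃ c : ℝ → State, c 0 = z ∧ ∀ s, HasDerivAt c (g.X (c s)) s := by
    intro z
    obtain ⟨x, t, hg, hx0, ht0, hv0, hw0⟩ := hc z.1 z.2.1 (g.v z) (g.w z)
    have hx1 := (contDiff_infty_iff_deriv.1 hg.smooth_x)
    have ht1 := (contDiff_infty_iff_deriv.1 hg.smooth_t)
    have hxt : ContDiff ℝ ∞ (fun r => (x r, t r)) := hg.smooth_x.prodMk hg.smooth_t
    have hE : ContDiff ℝ ∞ (fun r => g.E (x r, t r)) := g.smooth_E.comp hxt
    have hF : ContDiff ℝ ∞ (fun r => g.F (x r, t r)) := g.smooth_F.comp hxt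
    have hG : ContDiff ℝ ∞ (fun r => g.G (x r, t r)) := g.smooth_G.comp hxt
    have hp : ContDiff ℝ ∞ (fun r => g.E (x r, t r) * deriv x r + g.F (x r, t r) * deriv t r) :=
      (hE.mul hx1.2).add (hF.mul ht1.2)
    have hq : ContDiff ℝ ∞ (fun r => g.F (x r, t r) * deriv x r + g.G (x r, t r) * deriv t r) :=
      (hF.mul hx1.2).add (hG.mul ht1.2)
    refine ⟨fun s => (x s, t s, g.E (x s, t s) * deriv x s + g.F (x s, t s) * deriv t s,
      g.F (x s, t s) * deriv x s + g.G (x s, t s) * deriv t s), ?_, fun s => ?_⟩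
    · simp only [hx0, ht0, hv0, hw0]
      rw [← g.p_eq z, ← g.q_eq z]
    · have d1 : HasDerivAt x (deriv x s) s := (hx1.1 s).hasDerivAt
      have d2 : HasDerivAt t (deriv t s) s := (ht1.1 s).hasDerivAt
      have d3 := (hp.differentiable (by simp) s).hasDerivAt
      have d4 := (hq.differentiable (by simp) s).hasDerivAt
      rw [hg.eq_x s] at d3
      rw [hg.eq_t s] at d4
      have := d1.prodMk (d2.prodMk (d3.prodMk d4))
      refine this.congr_deriv ?_
      simp only [X, g.v_of_momenta, g.w_of_momenta]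
  choose c hc0 hcd using key
  exact ⟨fun s z => c z s, fun z => hc0 z, fun z s => hcd z s⟩

theorem IsFlow.isGeodesic (h : g.IsFlow φ) (z : State) :
    g.IsGeodesic (fun s => (φ s z).1) (fun s => (φ s z).2.1) := by
  have hs : ContDiff ℝ ∞ (fun s => φ s z) := contDiff_of_integral g.contDiff_X (h.deriv z)
  have hdx : _root_.deriv (fun s => (φ s z).1) = fun s => g.v (φ s z) :=
    funext fun s => (h.hasDerivAt_x z s).deriv
  have hdt : _root_.deriv (fun s => (φ s z).2.1) = fun s => g.w (φ s z) :=
    funext fun s => (h.hasDerivAt_t z s).deriv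
  refine ⟨contDiff_fst.comp hs, (contDiff_fst.comp contDiff_snd).comp hs, fun s => ?_,
    fun s => ?_⟩
  · rw [hdx, hdt]
    have e : (fun r => g.E ((φ r z).1, (φ r z).2.1) * g.v (φ r z)
        + g.F ((φ r z).1, (φ r z).2.1) * g.w (φ r z)) = fun r => (φ r z).2.2.1 :=
      funext fun r => (g.p_eq (φ r z)).symm
    rw [e, (h.hasDerivAt_p z s).deriv]
    rfl
  · rw [hdx, hdt]
    have e : (fun r => g.F ((φ r z).1, (φ r z).2.1) * g.v (φ r z)
        + g.G ((φ r z).1, (φ r z).2.1) * g.w (φ r z)) = fun r => (φ r z).2.2.2 :=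
      funext fun r => (g.q_eq (φ r z)).symm
    rw [e, (h.hasDerivAt_q z s).deriv]
    rfl

end CylMetric

end Pool.Agent.CyG
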