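import Mathlib

set_option autoImplicit false

/-!
# Hitting times of a continuous family of strictly increasing functions
-/

namespace Pool.Agent.CyG

open Set Filter Topology

/-- For a jointly continuous family of strictly increasing functions `U a : ℝ → ℝ` the set of
pairs `(a, t)` with `t ∈ U a (ℝ)` is open, and the inverse `S a t` is jointly continuous on it. -/
theorem exists_hit {U : ℝ → ℝ → ℝ} (hU : Continuous fun p : ℝ × ℝ => U p.1 p.2)
    (hmono : ∀ a, StrictMono (U a)) :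
    ∃ S : ℝ → ℝ → ℝ, (∀ a s, S a (U a s) = s) ∧
      (∀ a t, (∃ s, U a s = t) → U a (S a t) = t) ∧
      IsOpen {p : ℝ × ℝ | ∃ s, U p.1 s = p.2} ∧
      ContinuousOn (fun p : ℝ × ℝ => S p.1 p.2) {p : ℝ × ℝ | ∃ s, U p.1 s = p.2} := by
  classical
  have hS1 : ∀ a s, Function.invFun (U a) (U a s) = s := fun a s =>
    Function.leftInverse_invFun (hmono a).injective s
  have hS2 : ∀ a t, (∃ s, U a s = t) → U a (Function.invFun (U a) t) = t := fun a t h =>
    Function.invFun_eq h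
  have key : ∀ a₀ s₀ ε, 0 < ε → ∀ᶠ p : ℝ × ℝ in 𝓝 (a₀, U a₀ s₀),
      ∃ s ∈ Ioo (s₀ - ε) (s₀ + ε), U p.1 s = p.2 := by
    intro a₀ s₀ ε hε
    have h1 : ∀ᶠ p : ℝ × ℝ in 𝓝 (a₀, U a₀ s₀), U p.1 (s₀ - ε) < p.2 := by
      have c1 : Continuous fun p : ℝ × ℝ => U p.1 (s₀ - ε) :=
        hU.comp (continuous_fst.prodMk continuous_const)
      exact c1.continuousAt.eventually_lt continuous_snd.continuousAt
        (hmono a₀ (by linarith : s₀ - ε < s₀))
    have h2 : ∀ᶠ p : ℝ × ℝ in 𝓝 (a₀, U a₀ s₀), p.2 < U p.1 (s₀ + ε) := by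
      have c1 : Continuous fun p : ℝ × ℝ => U p.1 (s₀ + ε) :=
        hU.comp (continuous_fst.prodMk continuous_const)
      exact continuous_snd.continuousAt.eventually_lt c1.continuousAt
        (hmono a₀ (by linarith : s₀ < s₀ + ε))
    filter_upwards [h1, h2] with p hp1 hp2
    have hc : ContinuousOn (U p.1) (Icc (s₀ - ε) (s₀ + ε)) :=
      (hU.comp (continuous_const.prodMk continuous_id)).continuousOn
    exact intermediate_value_Ioo (by linarith) hc ⟨hp1, hp2⟩
  refine ⟨fun a => Function.invFun (U a), hS1, hS2, ?_, ?_⟩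
  · rw [isOpen_iff_mem_nhds]
    rintro ⟨a₀, t₀⟩ ⟨s₀, hs₀⟩
    simp only at hs₀
    subst hs₀
    filter_upwards [key a₀ s₀ 1 one_pos] with p hp
    obtain ⟨s, -, hs⟩ := hp
    exact ⟨s, hs⟩
  · rintro ⟨a₀, t₀⟩ ⟨s₀, hs₀⟩
    simp only at hs₀
    subst hs₀
    refine ContinuousAt.continuousWithinAt ?_
    rw [Metric.continuousAt_iff']
    intro ε hε
    filter_upwards [key a₀ s₀ ε hε] with p hp
    obtain ⟨s, hs, hsp⟩ := hp
    have e1 : Function.invFun (U p.1) p.2 = s := by rw [← hsp]; exact hS1 _ _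
    have e2 : Function.invFun (U a₀) (U a₀ s₀) = s₀ := hS1 _ _
    simp only [e1, e2]
    rw [Real.dist_eq, abs_lt]
    constructor <;> linarith [hs.1, hs.2]

end Pool.Agent.CyG
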