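import Pool.Agent.CyG.Sign
import Pool.Agent.CyG.Compact

set_option autoImplicit false

/-!
# Geodesic levels
-/

namespace Pool.Agent.CyG

open Set Filter Topology
open scoped ContDiff

namespace CylMetric

variable {g : CylMetric} {φ : ℝ → State → State}

private theorem contDiff_bend (g : CylMetric) : ContDiff ℝ ∞ g.bend :=
  ((g.smooth_E.mul (contDiff_dt g.smooth_E)).add (g.smooth_F.mul (contDiff_dx g.smooth_E))).sub
    ((contDiff_const.mul g.smooth_E).mul (contDiff_dx g.smooth_F))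

private theorem w_eq (g : CylMetric) (z : State) : g.w z = g.y z / g.det (z.1, z.2.1) := rfl

/-- If a unit speed geodesic stays in one level `{t = t₀}` on `(-∞, 0]`, then `bend = 0` on this
level (`x` runs through all residues mod `1` since `|x'| = 1/√E` is bounded below). -/
theorem IsFlow.bend_eq_zero (h : g.IsFlow φ) {z : State} (hen : g.en z = 1)
    (hw : ∀ s ≤ 0, g.w (φ s z) = 0) (x : ℝ) : g.bend (x, z.2.1) = 0 := by
  set t₀ : ℝ := z.2.1 with ht₀
  -- `t` is constant on `(-∞, 0]`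
  have ht : ∀ s ≤ 0, (φ s z).2.1 = t₀ := by
    intro s hs
    rcases hs.eq_or_lt with hs0 | hs0
    · rw [hs0, h.zero]
    · obtain ⟨ξ, hξ, hξ'⟩ := exists_hasDerivAt_eq_slope (fun r => (φ r z).2.1)
        (fun r => g.w (φ r z)) hs0
        (fun r _ => (h.hasDerivAt_t z r).continuousAt.continuousWithinAt)
        (fun r _ => h.hasDerivAt_t z r)
      rw [hw ξ hξ.2.le, eq_comm, div_eq_zero_iff] at hξ'
      rcases hξ' with h1 | h1
      · rw [h.zero] at h1
        linarith
      · linarith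
  -- the bound of `E` on the level
  obtain ⟨M, hM1, hM⟩ : ∃ M : ℝ, 1 ≤ M ∧ ∀ a, g.E (a, t₀) ≤ M := by
    have hcE : Continuous fun a : ℝ => g.E (a, t₀) :=
      g.smooth_E.continuous.comp (continuous_id.prodMk continuous_const)
    obtain ⟨C, hC⟩ := (isCompact_Icc (a := (0 : ℝ)) (b := 1)).exists_bound_of_continuousOn
      hcE.continuousOn
    have hper : Function.Periodic (fun a : ℝ => g.E (a, t₀)) 1 := fun a => g.per_E a t₀
    refine ⟨max C 1, le_max_right _ _, fun a => ?_⟩
    obtain ⟨b, hb, hb'⟩ := hper.exists_mem_Ico₀ zero_lt_one a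
    rw [hb']
    exact ((le_abs_self _).trans (hC b ⟨hb.1, hb.2.le⟩)).trans (le_max_left _ _)
  have hM0 : 0 < M := by linarith
  have hv2 : ∀ s ≤ 0, g.E ((φ s z).1, t₀) * g.v (φ s z) ^ 2 = 1 := by
    intro s hs
    have h1 := h.en_flow s z
    rw [hen] at h1
    unfold en at h1
    rw [hw s hs, ht s hs] at h1
    nlinarith
  have hv0 : ∀ s ≤ 0, g.v (φ s z) ≠ 0 := by
    intro s hs h1
    have := hv2 s hs
    rw [h1] at this
    norm_num at this
  have hv : ∀ s ≤ 0, 1 / M ≤ |g.v (φ s z)| := by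
    intro s hs
    have h1 := hv2 s hs
    have h2 := hM ((φ s z).1)
    have h3 : 1 ≤ M * |g.v (φ s z)| ^ 2 := by
      rw [sq_abs]
      nlinarith [sq_nonneg (g.v (φ s z))]
    have h4 : (1 / M) ^ 2 ≤ |g.v (φ s z)| ^ 2 := by
      rw [div_pow, one_pow, div_le_iff₀ (by positivity)]
      nlinarith [sq_nonneg (g.v (φ s z)), sq_abs (g.v (φ s z))]
    exact le_of_sq_le_sq h4 (abs_nonneg _)
  -- every residue is attained at some negative time
  set s₁ : ℝ := - (2 * M) with hs₁
  have hs₁0 : s₁ < 0 := by rw [hs₁]; linarith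
  have hdist : 2 ≤ |(φ 0 z).1 - (φ s₁ z).1| := by
    obtain ⟨ξ, hξ, hξ'⟩ := exists_hasDerivAt_eq_slope (fun r => (φ r z).1)
        (fun r => g.v (φ r z)) hs₁0
        (fun r _ => (h.hasDerivAt_x z r).continuousAt.continuousWithinAt)
        (fun r _ => h.hasDerivAt_x z r)
    have h1 := hv ξ hξ.2.le
    rw [hξ', abs_div, abs_of_pos (show (0 : ℝ) < 0 - s₁ by linarith),
      div_le_div_iff₀ hM0 (by linarith)] at h1
    rw [hs₁] at h1 ⊢
    have h2 : (2 : ℝ) * M ≤ |(φ 0 z).1 - (φ (-(2 * M)) z).1| * M := by linarith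
    exact le_of_mul_le_mul_right h2 hM0
  obtain ⟨n, hn1, hn2⟩ : ∃ n : ℤ, min ((φ s₁ z).1) ((φ 0 z).1) < x - n ∧
      x - n < max ((φ s₁ z).1) ((φ 0 z).1) := by
    set a : ℝ := min ((φ s₁ z).1) ((φ 0 z).1) with ha
    set b : ℝ := max ((φ s₁ z).1) ((φ 0 z).1) with hb
    have hab : a + 2 ≤ b := by
      have := max_sub_min_eq_abs ((φ s₁ z).1) ((φ 0 z).1)
      linarith
    refine ⟨⌈x - a⌉ - 1, ?_, ?_⟩
    · have := Int.ceil_lt_add_one (x - a)
      push_cast
      linarith
    · have := Int.le_ceil (x - a)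
      push_cast
      linarith
  have hxc : Continuous fun s => (φ s z).1 := continuous_fst.comp (h.continuous_time z)
  obtain ⟨σ, hσ, hσx⟩ := intermediate_value_uIcc (a := s₁) (b := 0)
    (f := fun s => (φ s z).1) hxc.continuousOn
    (show x - n ∈ uIcc ((φ s₁ z).1) ((φ 0 z).1) from ⟨hn1.le, hn2.le⟩)
  rw [uIcc_of_le hs₁0.le] at hσ
  simp only at hσx
  have hσ0 : σ < 0 := by
    rcases hσ.2.eq_or_lt with h1 | h1
    · exfalso
      rw [h1] at hσx
      rw [hσx] at hn1 hn2
      rcases le_total ((φ s₁ z).1) (x - n) with h2 | h2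
      · rw [max_eq_right h2] at hn2
        exact lt_irrefl _ hn2
      · rw [min_eq_right h2] at hn1
        exact lt_irrefl _ hn1
    · exact h1
  -- the derivative of `y` at `σ`
  obtain ⟨β, -, hβ⟩ := exists_beta g
  have hd := hβ φ h z σ
  have hy0 : ∀ s ≤ 0, g.y (φ s z) = 0 := by
    intro s hs
    have h1 := hw s hs
    rw [w_eq, div_eq_zero_iff] at h1
    exact h1.resolve_right (g.det_ne _)
  have hev : (fun r => g.y (φ r z)) =ᶠ[𝓝 σ] fun _ => (0 : ℝ) := by
    filter_upwards [Iio_mem_nhds hσ0] with r hr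
    exact hy0 r (le_of_lt hr)
  have hd0 : HasDerivAt (fun r => g.y (φ r z)) 0 σ :=
    (hasDerivAt_const σ (0 : ℝ)).congr_of_eventuallyEq hev
  have h1 := hd.unique hd0
  rw [hy0 σ hσ0.le, mul_zero, add_zero, ht σ hσ0.le, hσx] at h1
  have h2 : g.bend (x - n, t₀) = 0 := by
    rcases mul_eq_zero.1 h1 with h3 | h3
    · linarith
    · exact absurd (pow_eq_zero_iff (two_ne_zero)|>.1 h3) (hv0 σ hσ0.le)
  have hper : Function.Periodic (fun a : ℝ => g.bend (a, t₀)) 1 := fun a => g.bend_per a t₀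
  have h3 := hper.sub_zsmul_eq (x := x) n
  simp only [zsmul_eq_mul, mul_one] at h3
  rw [← h3]
  exact h2

/-- A curve in the plane with `‖f'‖ ≤ K ‖f‖` on compact intervals which starts at `0` is `0`. -/
private theorem eq_zero_of_bound {f f' : ℝ → ℝ × ℝ} (hf : ∀ s, HasDerivAt f (f' s) s)
    (h0 : f 0 = 0) (hb : ∀ T, ∃ K, ∀ s ∈ Icc (-T) T, ‖f' s‖ ≤ K * ‖f s‖) (s : ℝ) : f s = 0 := by
  have hc : Continuous f := continuous_iff_continuousAt.2 fun s => (hf s).continuousAt
  rcases le_total 0 s with hs | hs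
  · obtain ⟨K, hK⟩ := hb s
    exact eq_zero_of_abs_deriv_le_mul_abs_self_of_eq_zero_right (f := f) (f' := f') (K := K)
      (a := 0) (b := s) hc.continuousOn (fun r _ => (hf r).hasDerivWithinAt) h0
      (fun r hr => hK r ⟨by linarith [hr.1], hr.2.le⟩) s ⟨hs, le_rfl⟩
  · obtain ⟨K, hK⟩ := hb (-s)
    have hrev : ∀ r, HasDerivAt (fun r => f (-r)) (- f' (-r)) r := by
      intro r
      have := (hf (-r)).scomp r (hasDerivAt_neg r)
      simpa [Function.comp_def] using this
    have := eq_zero_of_abs_deriv_le_mul_abs_self_of_eq_zero_right (f := fun r => f (-r))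
      (f' := fun r => - f' (-r)) (K := K)
      (a := 0) (b := -s) (hc.comp continuous_neg).continuousOn
      (fun r _ => (hrev r).hasDerivWithinAt) (by simpa using h0)
      (fun r hr => by
        rw [norm_neg]
        exact hK (-r) ⟨by linarith [hr.2], by linarith [hr.1]⟩) (-s) ⟨by linarith, le_rfl⟩
    simpa using this

/-- If `bend = 0` on the level of `z` and `z` is tangent to the level, then the geodesic stays in
the level (Gronwall for `(t - t₀, y)`). -/
theorem IsFlow.stay_level (h : g.IsFlow φ) {z : State} (hb : ∀ x, g.bend (x, z.2.1) = 0)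
    (h0 : g.w z = 0) (s : ℝ) : g.w (φ s z) = 0 ∧ (φ s z).2.1 = z.2.1 := by
  obtain ⟨β, hβc, hβ⟩ := exists_beta g
  set t₀ : ℝ := z.2.1 with ht₀
  have hy0 : g.y z = 0 := by
    rw [w_eq, div_eq_zero_iff] at h0
    exact h0.resolve_right (g.det_ne _)
  have hcz := h.continuous_time z
  have hf : ∀ r, HasDerivAt (fun r => ((φ r z).2.1 - t₀, g.y (φ r z)))
      (g.w (φ r z), g.bend ((φ r z).1, (φ r z).2.1) / 2 * g.v (φ r z) ^ 2
          + β (φ r z) * g.y (φ r z)) r := fun r =>
    ((h.hasDerivAt_t z r).sub_const t₀).prodMk (hβ φ h z r)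
  have hbound : ∀ T, ∃ K, ∀ r ∈ Icc (-T) T,
      ‖((g.w (φ r z), g.bend ((φ r z).1, (φ r z).2.1) / 2 * g.v (φ r z) ^ 2
          + β (φ r z) * g.y (φ r z)) : ℝ × ℝ)‖ ≤
        K * ‖(((φ r z).2.1 - t₀, g.y (φ r z)) : ℝ × ℝ)‖ := by
    intro T
    have hposc : Continuous fun r => ((φ r z).1, (φ r z).2.1) :=
      (continuous_fst.comp hcz).prodMk (continuous_fst.comp (continuous_snd.comp hcz))
    have hdetc : Continuous g.det :=
      ((g.smooth_E.continuous.mul g.smooth_G.continuous).sub (g.smooth_F.continuous.pow 2))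
    have hc1 : Continuous fun r => 1 / g.det ((φ r z).1, (φ r z).2.1) :=
      continuous_const.div (hdetc.comp hposc) (fun r => g.det_ne _)
    obtain ⟨D, hD⟩ := (isCompact_Icc (a := -T) (b := T)).exists_bound_of_continuousOn
      hc1.continuousOn
    have hc2 : Continuous fun r => g.v (φ r z) ^ 2 := (g.continuous_v.comp hcz).pow 2
    obtain ⟨V, hV⟩ := (isCompact_Icc (a := -T) (b := T)).exists_bound_of_continuousOn
      hc2.continuousOn
    have hc3 : Continuous fun r => β (φ r z) := hβc.comp hcz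
    obtain ⟨B, hB⟩ := (isCompact_Icc (a := -T) (b := T)).exists_bound_of_continuousOn
      hc3.continuousOn
    have hc4 : Continuous fun r => φ r z := hcz
    obtain ⟨R, hR⟩ := (isCompact_Icc (a := -T) (b := T)).exists_bound_of_continuousOn
      hc4.continuousOn
    obtain ⟨L, hL⟩ := lipschitzOn_ball ((contDiff_bend g).of_le (by simp)) (0 : ℝ × ℝ)
      (R + |t₀|)
    refine ⟨|D| + (L * |V| / 2 + |B|), fun r hr => ?_⟩
    have hDr := (hD r hr).trans (le_abs_self D)
    have hVr := (hV r hr).trans (le_abs_self V)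
    have hBr := (hB r hr).trans (le_abs_self B)
    have hRr := hR r hr
    set N : ℝ := ‖(((φ r z).2.1 - t₀, g.y (φ r z)) : ℝ × ℝ)‖ with hN
    have hN1 : |(φ r z).2.1 - t₀| ≤ N := norm_fst_le (((φ r z).2.1 - t₀, g.y (φ r z)) : ℝ × ℝ)
    have hN2 : |g.y (φ r z)| ≤ N := norm_snd_le (((φ r z).2.1 - t₀, g.y (φ r z)) : ℝ × ℝ)
    have hN0 : 0 ≤ N := norm_nonneg _
    have hx1 : |(φ r z).1| ≤ R := (norm_fst_le (φ r z)).trans hRr
    have ht1 : |(φ r z).2.1| ≤ R := by
      have h1 : |(φ r z).2.1| ≤ ‖(φ r z).2‖ := norm_fst_le (φ r z).2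
      exact (h1.trans (norm_snd_le (φ r z))).trans hRr
    have hR0 : 0 ≤ R := (abs_nonneg _).trans hx1
    have hbd : |g.bend ((φ r z).1, (φ r z).2.1)| ≤ L * |(φ r z).2.1 - t₀| := by
      have h1 : ((φ r z).1, (φ r z).2.1) ∈ Metric.closedBall (0 : ℝ × ℝ) (R + |t₀|) := by
        rw [mem_closedBall_zero_iff, Prod.norm_def]
        exact max_le (hx1.trans (by simp)) (ht1.trans (by simp))
      have h2 : ((φ r z).1, t₀) ∈ Metric.closedBall (0 : ℝ × ℝ) (R + |t₀|) := by
        rw [mem_closedBall_zero_iff, Prod.norm_def]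
        exact max_le (hx1.trans (by simp)) (by simp [hR0])
      have h3 := hL.dist_le_mul _ h1 _ h2
      rw [hb, Real.dist_eq, sub_zero, Prod.dist_eq] at h3
      simpa [Real.dist_eq] using h3
    rw [Prod.norm_def]
    refine max_le ?_ ?_
    · change |g.w (φ r z)| ≤ _
      rw [w_eq, div_eq_mul_one_div, abs_mul]
      rw [Real.norm_eq_abs] at hDr
      calc |g.y (φ r z)| * |1 / g.det ((φ r z).1, (φ r z).2.1)| ≤ N * |D| :=
            mul_le_mul hN2 hDr (abs_nonneg _) hN0
        _ = |D| * N := mul_comm _ _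
        _ ≤ (|D| + (L * |V| / 2 + |B|)) * N := by
            refine mul_le_mul_of_nonneg_right ?_ hN0
            have : 0 ≤ (L : ℝ) * |V| / 2 := by positivity
            linarith [abs_nonneg B]
    · change |g.bend ((φ r z).1, (φ r z).2.1) / 2 * g.v (φ r z) ^ 2
          + β (φ r z) * g.y (φ r z)| ≤ _
      rw [Real.norm_eq_abs] at hVr hBr
      calc |g.bend ((φ r z).1, (φ r z).2.1) / 2 * g.v (φ r z) ^ 2 + β (φ r z) * g.y (φ r z)|
          ≤ |g.bend ((φ r z).1, (φ r z).2.1) / 2 * g.v (φ r z) ^ 2|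
            + |β (φ r z) * g.y (φ r z)| := abs_add_le _ _
        _ = |g.bend ((φ r z).1, (φ r z).2.1)| / 2 * |g.v (φ r z) ^ 2|
            + |β (φ r z)| * |g.y (φ r z)| := by
            rw [abs_mul, abs_mul, abs_div, abs_two]
        _ ≤ (L * N) / 2 * |V| + |B| * N := by
            refine add_le_add ?_ ?_
            · refine mul_le_mul ?_ hVr (abs_nonneg _) (by positivity)
              refine div_le_div_of_nonneg_right (hbd.trans ?_) (by norm_num)
              exact mul_le_mul_of_nonneg_left hN1 L.2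
            · exact mul_le_mul hBr hN2 (abs_nonneg _) (abs_nonneg _)
        _ = (L * |V| / 2 + |B|) * N := by ring
        _ ≤ (|D| + (L * |V| / 2 + |B|)) * N := by
            refine mul_le_mul_of_nonneg_right ?_ hN0
            linarith [abs_nonneg D]
  have hzero := eq_zero_of_bound hf (by simp [h.zero, hy0, ht₀]) hbound s
  simp only [Prod.mk_eq_zero] at hzero
  refine ⟨?_, by linarith [hzero.1]⟩
  rw [w_eq, hzero.2, zero_div]

end CylMetric

end Pool.Agent.CyG
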