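import Pool.Agent.CyG.Family
import Pool.Agent.CyG.Level
import Pool.Agent.CyG.Cross

set_option autoImplicit false

/-!
# The limit of pairs of geodesics that do not meet
-/

namespace Pool.Agent.CyG

open Set Filter Topology
open scoped ContDiff

/-- Translation by an integer in the `x` direction. -/
private def tr (k : ℤ) (z : State) : State := (z.1 + k, z.2)

private theorem tr_succ (k : ℤ) (z : State) : tr (k + 1) z = shift (tr k z) := by
  unfold tr shift
  push_cast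
  rw [← add_assoc]

private theorem tr_pred (k : ℤ) (z : State) : shift (tr (k - 1) z) = tr k z := by
  rw [← tr_succ, sub_add_cancel]

private theorem tr_zero (z : State) : tr 0 z = z := by
  unfold tr
  rw [Int.cast_zero, add_zero]

private theorem shift_inj {z z' : State} (h : shift z = shift z') : z = z' := by
  unfold shift at h
  rw [Prod.mk.injEq] at h
  exact Prod.ext (add_right_cancel h.1) h.2

private theorem inv_tr {α : Type} (F : State → α) (hF : ∀ z, F (shift z) = F z) (k : ℤ)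
    (z : State) : F (tr k z) = F z := by
  induction k using Int.induction_on with
  | zero => rw [tr_zero]
  | succ i ih => rw [tr_succ, hF, ih]
  | pred i ih => rw [← hF, tr_pred, ih]

namespace CylMetric

variable {g : CylMetric} {φ : ℝ → State → State} {A : Set ℝ}

private theorem flow_tr (h : g.IsFlow φ) (s : ℝ) (k : ℤ) (z : State) :
    φ s (tr k z) = tr k (φ s z) := by
  induction k using Int.induction_on with
  | zero => rw [tr_zero, tr_zero]
  | succ i ih => rw [tr_succ, h.shift, ih, tr_succ]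
  | pred i ih =>
    refine shift_inj ?_
    rw [← h.shift, tr_pred, ih, tr_pred]

private theorem pair_tr (h : g.IsFlow φ) {r n : ℝ} {z₁ z₂ : State}
    (hp : g.IsPair φ A r n z₁ z₂) (k : ℤ) : g.IsPair φ A r n (tr k z₁) (tr k z₂) where
  en₁ := by rw [inv_tr g.en g.en_shift, hp.en₁]
  en₂ := by rw [inv_tr g.en g.en_shift, hp.en₂]
  t₁ := hp.t₁
  t₂ := hp.t₂
  x_eq := by
    have := hp.x_eq
    unfold tr
    simp only
    linarith
  up₁ := fun s hs => by
    rw [flow_tr h, inv_tr g.w g.w_shift]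
    exact hp.up₁ s hs
  up₂ := fun s hs => by
    rw [flow_tr h, inv_tr g.w g.w_shift]
    exact hp.up₂ s hs
  mem₁ := fun s hs => by
    rw [flow_tr h]
    exact hp.mem₁ s hs
  mem₂ := fun s hs => by
    rw [flow_tr h]
    exact hp.mem₂ s hs
  sep := fun s s' hs hs' hss => by
    rw [flow_tr h, flow_tr h] at hss ⊢
    have := hp.sep s s' hs hs' hss
    unfold tr
    simp only
    constructor
    · linarith [this.1]
    · linarith [this.2]

/-- The level is strictly increasing. -/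
private theorem level_mono (h : g.IsFlow φ) {z : State} (hw : ∀ s, 0 < g.w (φ s z)) :
    StrictMono (fun s => (φ s z).2.1) :=
  strictMono_of_deriv_pos fun s => by
    rw [(h.hasDerivAt_t z s).deriv]
    exact hw s

/-- Two geodesics which do not cross do not touch. -/
private theorem no_touch (h : g.IsFlow φ) {z z' : State} (hen : g.en z = 1) (hen' : g.en z' = 1)
    (hw : ∀ s, 0 < g.w (φ s z)) (hw' : ∀ s, 0 < g.w (φ s z')) (hlev : z.2.1 = z'.2.1)
    (hne : z ≠ z') (hle : ∀ s s', (φ s z).2.1 = (φ s' z').2.1 → (φ s z).1 ≤ (φ s' z').1)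
    (s s' : ℝ) (hss : (φ s z).2.1 = (φ s' z').2.1) : (φ s z).1 < (φ s' z').1 := by
  refine lt_of_le_of_ne (hle s s' hss) fun hx => ?_
  have hc : Continuous fun s => (φ s z).2.1 := (h.continuous_time z).snd.fst
  have hc' : Continuous fun s => (φ s z').2.1 := (h.continuous_time z').snd.fst
  rcases lt_trichotomy (g.v (φ s z) / g.w (φ s z)) (g.v (φ s' z') / g.w (φ s' z')) with
    hs | hs | hs
  · obtain ⟨σ₁, -, σ₂, -, h1, h2⟩ := cross_before hc hc' (h.hasDerivAt_t z s)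
      (h.hasDerivAt_x z s) (h.hasDerivAt_t z' s') (h.hasDerivAt_x z' s') (hw s) (hw' s') hss hx hs
      one_pos
    exact absurd h2 (not_lt.2 (hle _ _ h1))
  · have h1 : φ s z = φ s' z' := g.eq_of_slope (by rw [h.en_flow, hen]) (by rw [h.en_flow, hen'])
      (hw s) (hw' s') hx hss hs
    have h2 : z = φ (-s + s') z' := by
      rw [h.add, ← h1, ← h.add, neg_add_cancel, h.zero]
    have h3 : (φ (-s + s') z').2.1 = (φ 0 z').2.1 := by
      rw [← h2, hlev, h.zero]
    have h4 := (level_mono h hw').injective h3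
    rw [h4, h.zero] at h2
    exact hne h2
  · obtain ⟨σ₁, -, σ₂, -, h1, h2⟩ := cross_after hc' hc (h.hasDerivAt_t z' s')
      (h.hasDerivAt_x z' s') (h.hasDerivAt_t z s) (h.hasDerivAt_x z s) (hw' s') (hw s) hss.symm
      hx.symm hs one_pos
    exact absurd h2 (not_lt.2 (hle _ _ h1.symm))

/-- A limit of geodesics that go upwards goes upwards. -/
private theorem up_lim (h : g.IsFlow φ) (hA : g.Region A) {z : State}
    (hr : ∃ x, g.bend (x, z.2.1) ≠ 0) (hen : g.en z = 1)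
    (hw : ∀ s, 0 ≤ g.w (φ s z)) (hm : ∀ s, (φ s z).2.1 ∈ A) (s : ℝ) : 0 < g.w (φ s z) := by
  refine lt_of_le_of_ne (hw s) fun h0 => ?_
  have hb := h.w_eq_zero_back hA (z := φ s z) (fun r _ => by rw [← h.add]; exact hm _)
    (fun r _ => by rw [← h.add]; exact hw _) h0.symm
  have hz := h.bend_eq_zero (z := φ s z) (by rw [h.en_flow, hen]) hb
  have h1 := (h.stay_level (z := φ s z) hz h0.symm (-s)).2
  rw [← h.add, neg_add_cancel, h.zero] at h1
  obtain ⟨x, hx⟩ := hr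
  rw [h1] at hx
  exact hx (hz x)

theorem IsFlow.exists_limit (h : g.IsFlow φ) (hA : g.Region A) {r : ℝ}
    (hr : ∃ x, g.bend (x, r) ≠ 0) (hp : ∀ n : ℕ, ∃ z₁ z₂ : State, g.IsPair φ A r n z₁ z₂) :
    ∃ z₁ z₂ : State, g.en z₁ = 1 ∧ g.en z₂ = 1 ∧
      (∀ s, 0 < g.w (φ s z₁)) ∧ (∀ s, 0 < g.w (φ s z₂)) ∧
      (∀ s, (φ s z₁).2.1 ∈ A) ∧ (∀ s, (φ s z₂).2.1 ∈ A) ∧
      ∀ s s', (φ s z₁).2.1 = (φ s' z₂).2.1 →
        0 < (φ s' z₂).1 - (φ s z₁).1 ∧ (φ s' z₂).1 - (φ s z₁).1 < 1 := by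
  -- normalised pairs
  have hp' : ∀ n : ℕ, ∃ y : State × State, g.IsPair φ A r n y.1 y.2 ∧ y.1.1 ∈ Icc (0 : ℝ) 1 := by
    intro n
    obtain ⟨z₁, z₂, hz⟩ := hp n
    refine ⟨(tr (-⌊z₁.1⌋) z₁, tr (-⌊z₁.1⌋) z₂), pair_tr h hz _, ?_⟩
    unfold tr
    simp only
    push_cast
    constructor
    · linarith [Int.floor_le z₁.1]
    · linarith [Int.lt_floor_add_one z₁.1]
  choose y hy hy1 using hp'
  have hcomp : IsCompact ({z : State | z.1 ∈ Icc (0 : ℝ) 2 ∧ z.2.1 ∈ Icc r r ∧ g.en z = 1} ×ˢ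
      {z : State | z.1 ∈ Icc (0 : ℝ) 2 ∧ z.2.1 ∈ Icc r r ∧ g.en z = 1}) :=
    (g.isCompact_unit 0 2 r r).prod (g.isCompact_unit 0 2 r r)
  have hmem : ∀ n, y n ∈ ({z : State | z.1 ∈ Icc (0 : ℝ) 2 ∧ z.2.1 ∈ Icc r r ∧ g.en z = 1} ×ˢ
      {z : State | z.1 ∈ Icc (0 : ℝ) 2 ∧ z.2.1 ∈ Icc r r ∧ g.en z = 1}) := by
    intro n
    have h1 := hy1 n
    have h2 := (hy n).x_eq
    refine ⟨⟨⟨h1.1, by linarith [h1.2]⟩, ?_, (hy n).en₁⟩, ⟨⟨?_, ?_⟩, ?_, (hy n).en₂⟩⟩
    · rw [(hy n).t₁]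
      exact left_mem_Icc.2 le_rfl
    · linarith [h1.1]
    · linarith [h1.2]
    · rw [(hy n).t₂]
      exact left_mem_Icc.2 le_rfl
  obtain ⟨⟨z₁, z₂⟩, -, ψ, hψ, hlim⟩ := hcomp.tendsto_subseq hmem
  have hl1 : Tendsto (fun n => (y (ψ n)).1) atTop (𝓝 z₁) :=
    (continuous_fst.tendsto _).comp hlim
  have hl2 : Tendsto (fun n => (y (ψ n)).2) atTop (𝓝 z₂) :=
    (continuous_snd.tendsto _).comp hlim
  have hlarge : ∀ s : ℝ, ∀ᶠ n in atTop, -((ψ n : ℕ) : ℝ) ≤ s := by
    intro s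
    obtain ⟨N, hN⟩ := exists_nat_ge (-s)
    filter_upwards [eventually_ge_atTop N] with n hn
    have h1 : (N : ℝ) ≤ ψ n := by exact_mod_cast hn.trans (hψ.id_le n)
    linarith
  have hcw : ∀ s, Continuous fun z => g.w (φ s z) := fun s =>
    g.continuous_w.comp (h.continuous_state s)
  have hct : ∀ s, Continuous fun z => (φ s z).2.1 := fun s => (h.continuous_state s).snd.fst
  -- the limits
  have e1 : g.en z₁ = 1 := tendsto_nhds_unique ((g.continuous_en.tendsto z₁).comp hl1)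
    (tendsto_const_nhds.congr fun n => ((hy (ψ n)).en₁).symm)
  have e2 : g.en z₂ = 1 := tendsto_nhds_unique ((g.continuous_en.tendsto z₂).comp hl2)
    (tendsto_const_nhds.congr fun n => ((hy (ψ n)).en₂).symm)
  have t1 : z₁.2.1 = r := tendsto_nhds_unique (((continuous_fst.comp
    continuous_snd).tendsto z₁).comp hl1) (tendsto_const_nhds.congr fun n => ((hy (ψ n)).t₁).symm)
  have t2 : z₂.2.1 = r := tendsto_nhds_unique (((continuous_fst.comp
    continuous_snd).tendsto z₂).comp hl2) (tendsto_const_nhds.congr fun n => ((hy (ψ n)).t₂).symm)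
  have x12 : z₂.1 = z₁.1 + 1 / 2 := tendsto_nhds_unique ((continuous_fst.tendsto z₂).comp hl2)
    ((((continuous_fst.tendsto z₁).comp hl1).add_const (1 / 2)).congr fun n =>
      ((hy (ψ n)).x_eq).symm)
  have w1 : ∀ s, 0 ≤ g.w (φ s z₁) := fun s => by
    refine ge_of_tendsto (((hcw s).tendsto z₁).comp hl1) ?_
    filter_upwards [hlarge s] with n hn
    exact ((hy (ψ n)).up₁ s hn).le
  have w2 : ∀ s, 0 ≤ g.w (φ s z₂) := fun s => by
    refine ge_of_tendsto (((hcw s).tendsto z₂).comp hl2) ?_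
    filter_upwards [hlarge s] with n hn
    exact ((hy (ψ n)).up₂ s hn).le
  have m1 : ∀ s, (φ s z₁).2.1 ∈ A := fun s => by
    refine hA.closed.mem_of_tendsto (((hct s).tendsto z₁).comp hl1) ?_
    filter_upwards [hlarge s] with n hn
    exact (hy (ψ n)).mem₁ s hn
  have m2 : ∀ s, (φ s z₂).2.1 ∈ A := fun s => by
    refine hA.closed.mem_of_tendsto (((hct s).tendsto z₂).comp hl2) ?_
    filter_upwards [hlarge s] with n hn
    exact (hy (ψ n)).mem₂ s hn
  have u1 := up_lim h hA (z := z₁) (by rw [t1]; exact hr) e1 w1 m1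
  have u2 := up_lim h hA (z := z₂) (by rw [t2]; exact hr) e2 w2 m2
  -- the level of the approximants
  have key : ∀ (Z : ℕ → State) (z : State), Tendsto Z atTop (𝓝 z) → (∀ s, 0 < g.w (φ s z)) →
      ∀ (s δ : ℝ), 0 < δ → ∀ᶠ n in atTop, ∃ σ : ℝ, s - 1 ≤ σ ∧
        (φ σ (Z n)).2.1 = (φ s z).2.1 ∧ |(φ σ (Z n)).1 - (φ s z).1| < δ := by
    intro Z z hZ hw s δ hδ
    have hcont : Continuous fun p : ℝ × State => (φ p.1 p.2).1 := h.continuous.fst
    have h1 : ∀ᶠ p : ℝ × State in 𝓝 s ×ˢ 𝓝 z, |(φ p.1 p.2).1 - (φ s z).1| < δ := by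
      rw [← nhds_prod_eq]
      have := (hcont.tendsto (s, z)).eventually (Metric.ball_mem_nhds _ hδ)
      filter_upwards [this] with p hp
      exact hp
    obtain ⟨P, hP, Q, hQ, hPQ⟩ := eventually_prod_iff.1 h1
    obtain ⟨ε, hε, hε'⟩ := Metric.eventually_nhds_iff.1 hP
    set ε' : ℝ := min (ε / 2) 1 with hε'def
    have hε'0 : 0 < ε' := lt_min (by linarith) one_pos
    have hmono := level_mono h hw
    have h2 : ∀ᶠ n in atTop, (φ (s - ε') (Z n)).2.1 < (φ s z).2.1 :=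
      (((hct (s - ε')).tendsto z).comp hZ).eventually_lt_const (hmono (by linarith))
    have h3 : ∀ᶠ n in atTop, (φ s z).2.1 < (φ (s + ε') (Z n)).2.1 :=
      (((hct (s + ε')).tendsto z).comp hZ).eventually_const_lt (hmono (by linarith))
    filter_upwards [h2, h3, hZ.eventually hQ] with n n2 n3 n4
    obtain ⟨σ, hσ, hσ'⟩ := intermediate_value_Icc (by linarith : s - ε' ≤ s + ε')
      ((h.continuous_time (Z n)).snd.fst.continuousOn) ⟨n2.le, n3.le⟩
    refine ⟨σ, ?_, hσ', hPQ (hε' ?_) n4⟩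
    · have : ε' ≤ 1 := min_le_right _ _
      linarith [hσ.1]
    · have : ε' ≤ ε / 2 := min_le_left _ _
      rw [Real.dist_eq, abs_lt]
      constructor
      · linarith [hσ.1]
      · linarith [hσ.2]
  have hsep : ∀ s s', (φ s z₁).2.1 = (φ s' z₂).2.1 →
      0 ≤ (φ s' z₂).1 - (φ s z₁).1 ∧ (φ s' z₂).1 - (φ s z₁).1 ≤ 1 := by
    intro s s' hss
    have h1 : ∀ δ : ℝ, 0 < δ → -(2 * δ) ≤ (φ s' z₂).1 - (φ s z₁).1 ∧
        (φ s' z₂).1 - (φ s z₁).1 ≤ 1 + 2 * δ := by
      intro δ hδ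
      obtain ⟨n, ⟨σ, hσ1, hσ2, hσ3⟩, ⟨σ', hσ1', hσ2', hσ3'⟩, n3, n4⟩ :=
        ((key _ z₁ hl1 u1 s δ hδ).and ((key _ z₂ hl2 u2 s' δ hδ).and ((hlarge (s - 1)).and
          (hlarge (s' - 1))))).exists
      have h2 := (hy (ψ n)).sep σ σ' (n3.trans hσ1) (n4.trans hσ1') (by rw [hσ2, hσ2', hss])
      rw [abs_lt] at hσ3 hσ3'
      constructor
      · linarith [h2.1, hσ3.1, hσ3.2, hσ3'.1, hσ3'.2]
      · linarith [h2.2, hσ3.1, hσ3.2, hσ3'.1, hσ3'.2]
    constructor
    · refine le_of_forall_pos_le_add fun δ hδ => ?_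
      have := (h1 (δ / 2) (by linarith)).1
      linarith
    · refine le_of_forall_pos_le_add fun δ hδ => ?_
      have := (h1 (δ / 2) (by linarith)).2
      linarith
  refine ⟨z₁, z₂, e1, e2, u1, u2, m1, m2, fun s s' hss => ⟨?_, ?_⟩⟩
  · have h1 := no_touch h e1 e2 u1 u2 (t1.trans t2.symm) (fun hz => by
      rw [hz] at x12
      linarith) (fun s s' hss => by linarith [(hsep s s' hss).1]) s s' hss
    linarith
  · have h1 := no_touch h (z := z₂) (z' := CyG.shift z₁) e2 (by rw [g.en_shift, e1]) u2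
      (fun s => by rw [h.shift, g.w_shift]; exact u1 s) (t2.trans t1.symm) (fun hz => by
        have : z₂.1 = z₁.1 + 1 := by rw [hz]; rfl
        linarith) (fun s s' hss => by
        rw [h.shift] at hss ⊢
        have := (hsep s' s hss.symm).2
        change (φ s z₂).1 ≤ (φ s' z₁).1 + 1
        linarith) s' s (by rw [h.shift]; exact hss.symm)
    rw [h.shift] at h1
    have h2 : (φ s' z₂).1 < (φ s z₁).1 + 1 := h1
    linarith

end CylMetric

end Pool.Agent.CyG
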