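import Pool.Agent.CyG.Flow

set_option autoImplicit false

/-!
# The sign of `t'` along a geodesic in an upward bending region

Along a geodesic, `y = E q - F p = (E G - F²) t'` satisfies `y' = bend / 2 * x'² + β y` with a
continuous `β`.
-/

namespace Pool.Agent.CyG

open Set Filter Topology
open scoped ContDiff

namespace CylMetric

variable {g : CylMetric} {φ : ℝ → State → State} {A : Set ℝ}

/-- `E q - F p`. -/
def y (g : CylMetric) (z : State) : ℝ :=
  g.E (z.1, z.2.1) * z.2.2.2 - g.F (z.1, z.2.1) * z.2.2.1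

theorem y_eq (g : CylMetric) (z : State) : g.y z = g.det (z.1, z.2.1) * g.w z := by
  unfold y w
  rw [mul_div_cancel₀ _ (g.det_ne _)]

theorem exists_beta (g : CylMetric) : ∃ β : State → ℝ, Continuous β ∧
    ∀ (φ : ℝ → State → State), g.IsFlow φ → ∀ (z : State) (s : ℝ),
      HasDerivAt (fun r => g.y (φ r z))
        (g.bend ((φ s z).1, (φ s z).2.1) / 2 * g.v (φ s z) ^ 2
          + β (φ s z) * g.y (φ s z)) s := by
  refine ⟨fun z => ((dx g.E (z.1, z.2.1) * g.G (z.1, z.2.1)
      + dt g.E (z.1, z.2.1) * g.F (z.1, z.2.1)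
      - 2 * g.F (z.1, z.2.1) * dx g.F (z.1, z.2.1)) * g.v z
    + (dt g.E (z.1, z.2.1) * g.G (z.1, z.2.1) + g.E (z.1, z.2.1) * dt g.G (z.1, z.2.1) / 2
      - g.F (z.1, z.2.1) * dt g.F (z.1, z.2.1)
      - g.F (z.1, z.2.1) * dx g.G (z.1, z.2.1) / 2) * g.w z) / g.det (z.1, z.2.1), ?_, ?_⟩
  · have hpos : Continuous (fun z : State => (z.1, z.2.1)) := by fun_prop
    have h1 : ∀ f : ℝ × ℝ → ℝ, ContDiff ℝ ∞ f → Continuous (fun z : State => f (z.1, z.2.1)) :=
      fun f hf => hf.continuous.comp hpos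
    have hE := h1 _ g.smooth_E
    have hF := h1 _ g.smooth_F
    have hG := h1 _ g.smooth_G
    have hxE := h1 _ (contDiff_dx g.smooth_E)
    have hxF := h1 _ (contDiff_dx g.smooth_F)
    have hxG := h1 _ (contDiff_dx g.smooth_G)
    have htE := h1 _ (contDiff_dt g.smooth_E)
    have htF := h1 _ (contDiff_dt g.smooth_F)
    have htG := h1 _ (contDiff_dt g.smooth_G)
    have hv := g.continuous_v
    have hw := g.continuous_w
    have hdet := g.contDiff_det.continuous
    refine Continuous.div ?_ hdet (fun z => g.det_ne _)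
    exact ((((hxE.mul hG).add (htE.mul hF)).sub ((continuous_const.mul hF).mul hxF)).mul hv).add
      (((((htE.mul hG).add ((hE.mul htG).div_const 2)).sub (hF.mul htF)).sub
        ((hF.mul hxG).div_const 2)).mul hw)
  · intro φ h z s
    have hE := hasDerivAt_comp_curve g.smooth_E (h.hasDerivAt_x z s) (h.hasDerivAt_t z s)
    have hF := hasDerivAt_comp_curve g.smooth_F (h.hasDerivAt_x z s) (h.hasDerivAt_t z s)
    have hp := h.hasDerivAt_p z s
    have hq := h.hasDerivAt_q z s
    have hy := (hE.mul hq).sub (hF.mul hp)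
    refine hy.congr_deriv ?_
    have hne := g.det_ne ((φ s z).1, (φ s z).2.1)
    have hpp := g.p_eq (φ s z)
    have hqq := g.q_eq (φ s z)
    rw [g.y_eq (φ s z)]
    have hcancel : ∀ a b : ℝ, a / g.det ((φ s z).1, (φ s z).2.1) *
        (g.det ((φ s z).1, (φ s z).2.1) * b) = a * b := by
      intro a b
      rw [← mul_assoc, div_mul_cancel₀ _ hne]
    rw [hcancel, hpp, hqq]
    simp only [X, CylMetric.bend]
    ring

/-- The integrating factor: in the region the function `y e^{-∫β}` is monotone. -/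
theorem IsFlow.exists_factor (h : g.IsFlow φ) (z : State) : ∃ m : ℝ → ℝ, (∀ s, 0 < m s) ∧
    ∀ s, HasDerivAt (fun r => g.y (φ r z) * m r)
      (g.bend ((φ s z).1, (φ s z).2.1) / 2 * g.v (φ s z) ^ 2 * m s) s := by
  obtain ⟨β, hβ, hder⟩ := g.exists_beta
  have hb : Continuous fun s => β (φ s z) := hβ.comp (h.continuous_time z)
  have hB : ∀ s, HasDerivAt (fun r => ∫ τ in (0 : ℝ)..r, β (φ τ z)) (β (φ s z)) s := fun s =>
    intervalIntegral.integral_hasDerivAt_right (hb.intervalIntegrable _ _)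
      hb.aestronglyMeasurable.stronglyMeasurableAtFilter hb.continuousAt
  refine ⟨fun s => Real.exp (-∫ τ in (0 : ℝ)..s, β (φ τ z)), fun s => Real.exp_pos _,
    fun s => ?_⟩
  have h1 := (hder φ h z s).mul (hB s).neg.exp
  refine h1.congr_deriv ?_
  simp only [Pi.neg_apply]
  ring

theorem y_pos_iff (g : CylMetric) (z : State) : 0 < g.y z ↔ 0 < g.w z := by
  rw [g.y_eq]
  exact mul_pos_iff_of_pos_left (g.det_pos _)

theorem y_nonneg_iff (g : CylMetric) (z : State) : 0 ≤ g.y z ↔ 0 ≤ g.w z := by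
  rw [g.y_eq]
  exact mul_nonneg_iff_of_pos_left (g.det_pos _)

theorem y_eq_zero_iff (g : CylMetric) (z : State) : g.y z = 0 ↔ g.w z = 0 := by
  rw [g.y_eq]
  simp [g.det_ne]

theorem continuous_y (g : CylMetric) : Continuous g.y := by
  have : g.y = fun z => g.det (z.1, z.2.1) * g.w z := funext g.y_eq
  rw [this]
  exact g.contDiff_det.continuous.mul g.continuous_w

theorem IsFlow.w_pos (h : g.IsFlow φ) (hA : g.Region A) {z : State} (hz : z.2.1 ∈ A)
    (hw : 0 < g.w z) {s : ℝ} (hs : 0 ≤ s) : 0 < g.w (φ s z) := by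
  by_contra hcon
  have hcy : Continuous fun r => g.y (φ r z) := g.continuous_y.comp (h.continuous_time z)
  let B : Set ℝ := {r | 0 ≤ r ∧ g.y (φ r z) ≤ 0}
  have hBc : IsClosed B := isClosed_Ici.inter (isClosed_le hcy continuous_const)
  have hBne : B.Nonempty := ⟨s, hs, by
    rw [← not_lt, g.y_pos_iff]; exact hcon⟩
  have hBb : BddBelow B := ⟨0, fun r hr => hr.1⟩
  have hmem : sInf B ∈ B := hBc.csInf_mem hBne hBb
  set r := sInf B with hr
  have hlt : ∀ τ ∈ Ico 0 r, 0 < g.y (φ τ z) := by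
    intro τ hτ
    by_contra hτ'
    exact absurd (csInf_le hBb ⟨hτ.1, not_lt.1 hτ'⟩) (not_le.2 hτ.2)
  have hmem' : ∀ τ ∈ Icc 0 r, (φ τ z).2.1 ∈ A := by
    intro τ hτ
    have hmono : MonotoneOn (fun s => (φ s z).2.1) (Icc 0 r) := by
      refine monotoneOn_of_deriv_nonneg (convex_Icc _ _) ?_ ?_ ?_
      · exact (continuous_fst.comp (continuous_snd.comp (h.continuous_time z))).continuousOn
      · exact fun x _ => (h.hasDerivAt_t z x).differentiableAt.differentiableWithinAt
      · intro x hx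
        rw [interior_Icc] at hx
        rw [(h.hasDerivAt_t z x).deriv]
        exact ((g.y_pos_iff _).1 (hlt x ⟨hx.1.le, hx.2⟩)).le
    have := hmono ⟨le_rfl, hmem.1⟩ hτ hτ.1
    simp only [h.zero] at this
    exact hA.upper _ hz _ this
  obtain ⟨m, hm, hder⟩ := h.exists_factor z
  have hmono : MonotoneOn (fun s => g.y (φ s z) * m s) (Icc 0 r) := by
    refine monotoneOn_of_deriv_nonneg (convex_Icc _ _) ?_ ?_ ?_
    · exact fun x _ => (hder x).continuousAt.continuousWithinAt
    · exact fun x _ => (hder x).differentiableAt.differentiableWithinAt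
    · intro x hx
      rw [interior_Icc] at hx
      rw [(hder x).deriv]
      have h1 := hA.bend (φ x z).1 _ (hmem' x ⟨hx.1.le, hx.2.le⟩)
      have h2 := (hm x).le
      positivity
  have h1 := hmono ⟨le_rfl, hmem.1⟩ ⟨hmem.1, le_rfl⟩ hmem.1
  simp only [h.zero] at h1
  have h2 : 0 < g.y z * m 0 := mul_pos ((g.y_pos_iff z).2 hw) (hm 0)
  have h3 : g.y (φ r z) * m r ≤ 0 := mul_nonpos_of_nonpos_of_nonneg hmem.2 (hm r).le
  linarith

theorem IsFlow.t_strictMonoOn (h : g.IsFlow φ) (hA : g.Region A) {z : State} (hz : z.2.1 ∈ A)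
    (hw : 0 < g.w z) : StrictMonoOn (fun s => (φ s z).2.1) (Ici 0) := by
  refine strictMonoOn_of_deriv_pos (convex_Ici _) ?_ ?_
  · exact (continuous_fst.comp (continuous_snd.comp (h.continuous_time z))).continuousOn
  · intro x hx
    rw [interior_Ici] at hx
    rw [(h.hasDerivAt_t z x).deriv]
    exact h.w_pos hA hz hw (le_of_lt hx)

theorem IsFlow.t_mem (h : g.IsFlow φ) (hA : g.Region A) {z : State} (hz : z.2.1 ∈ A)
    (hw : 0 < g.w z) {s : ℝ} (hs : 0 ≤ s) : (φ s z).2.1 ∈ A := by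
  have := (h.t_strictMonoOn hA hz hw).monotoneOn (mem_Ici.2 le_rfl) (mem_Ici.2 hs) hs
  simp only [h.zero] at this
  exact hA.upper _ hz _ this

/-- If `t' ≥ 0` on `(-∞, 0]` and `t' = 0` at `0` then `t' = 0` on `(-∞, 0]`. -/
theorem IsFlow.w_eq_zero_back (h : g.IsFlow φ) (hA : g.Region A) {z : State}
    (hz : ∀ s ≤ 0, (φ s z).2.1 ∈ A) (hw : ∀ s ≤ 0, 0 ≤ g.w (φ s z)) (h0 : g.w z = 0) :
    ∀ s ≤ 0, g.w (φ s z) = 0 := by
  intro s hs
  obtain ⟨m, hm, hder⟩ := h.exists_factor z
  have hmono : MonotoneOn (fun s => g.y (φ s z) * m s) (Iic 0) := by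
    refine monotoneOn_of_deriv_nonneg (convex_Iic _) ?_ ?_ ?_
    · exact fun x _ => (hder x).continuousAt.continuousWithinAt
    · exact fun x _ => (hder x).differentiableAt.differentiableWithinAt
    · intro x hx
      rw [interior_Iic] at hx
      rw [(hder x).deriv]
      have h1 := hA.bend (φ x z).1 _ (hz x (le_of_lt hx))
      have h2 := (hm x).le
      positivity
  have h1 := hmono (mem_Iic.2 hs) (mem_Iic.2 le_rfl) hs
  simp only [h.zero] at h1
  rw [(g.y_eq_zero_iff z).2 h0, zero_mul] at h1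
  have h2 : 0 ≤ g.y (φ s z) := (g.y_nonneg_iff _).2 (hw s hs)
  have h3 : g.y (φ s z) = 0 := by
    by_contra hne
    have : 0 < g.y (φ s z) := lt_of_le_of_ne h2 (Ne.symm hne)
    have := mul_pos this (hm s)
    linarith
  exact (g.y_eq_zero_iff _).1 h3

end CylMetric

end Pool.Agent.CyG
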