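import Mathlib

set_option autoImplicit false

/-!
# A topological lemma on the strip `ℝ × [0, 1]` with the glide `(a, d) ↦ (a + d, 1 - d)`
-/

namespace Pool.Agent.CyG

open Set Filter Topology

/-- A continuous nowhere zero function on the plane has a continuous argument. -/
theorem exists_arg {h : ℝ × ℝ → ℂ} (hh : Continuous h) (h0 : ∀ z, h z ≠ 0) :
    ∃ θ : ℝ × ℝ → ℝ, Continuous θ ∧ ∀ z, h z = ‖h z‖ * Complex.exp (θ z * Complex.I) := by
  obtain ⟨L, ⟨-, hL⟩, -⟩ := Complex.isCoveringMapOn_exp.existsUnique_continuousMap_lifts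
    (A := ℝ × ℝ) ⟨h, hh⟩ (a₀ := (0, 0)) (e₀ := Complex.log (h (0, 0)))
    (Complex.exp_log (h0 _)) (fun a => h0 a)
  have hL' : ∀ z, Complex.exp (L z) = h z := fun z => congrFun hL z
  refine ⟨fun z => (L z).im, Complex.continuous_im.comp L.continuous, fun z => ?_⟩
  rw [← hL' z, Complex.norm_exp, Complex.ofReal_exp, ← Complex.exp_add, Complex.re_add_im]

/-- A continuous real function with integer values on the line is constant. -/
private theorem const_of_int {ψ : ℝ → ℝ} (hψ : Continuous ψ) (h : ∀ d, ∃ n : ℤ, ψ d = n)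
    (a b : ℝ) : ψ a = ψ b := by
  choose N hN using h
  have hc : Continuous N := by
    rw [Int.isClosedEmbedding_coe_real.isEmbedding.continuous_iff]
    have : ((fun n : ℤ => (n : ℝ)) ∘ N) = ψ := funext fun d => (hN d).symm
    rw [this]
    exact hψ
  rw [hN a, hN b, PreconnectedSpace.constant inferInstance hc]

/-- Let `f` be odd under the glide `ι (a, d) = (a + d, 1 - d)` and negative on `d = 0`, and let
`P`, `Q` be disjoint open sets which are exchanged by `ι`. Then some zero of `f` in the strip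
`0 ≤ d ≤ 1` is in neither of them. -/
theorem exists_zero_not_mem {f : ℝ → ℝ → ℝ} (hf : Continuous fun p : ℝ × ℝ => f p.1 p.2)
    (hodd : ∀ a d, f (a + d) (1 - d) = - f a d) (h0 : ∀ a, f a 0 < 0)
    {P Q : Set (ℝ × ℝ)} (hP : IsOpen P) (hQ : IsOpen Q) (hPQ : Disjoint P Q)
    (hι : ∀ a d, (a, d) ∈ P ↔ (a + d, 1 - d) ∈ Q) (hι' : ∀ a d, (a, d) ∈ Q ↔ (a + d, 1 - d) ∈ P) :
    ∃ a, ∃ d ∈ Icc (0 : ℝ) 1, f a d = 0 ∧ (a, d) ∉ P ∧ (a, d) ∉ Q := by
  by_contra hcon
  push Not at hcon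
  -- the zero set in the strip and its two parts
  set Z : Set (ℝ × ℝ) := {p | p.2 ∈ Icc (0 : ℝ) 1 ∧ f p.1 p.2 = 0} with hZ
  have hZc : IsClosed Z := by
    refine IsClosed.inter (isClosed_Icc.preimage continuous_snd) ?_
    exact isClosed_eq hf continuous_const
  set ZP : Set (ℝ × ℝ) := Z ∩ Qᶜ with hZP
  set ZQ : Set (ℝ × ℝ) := Z ∩ Pᶜ with hZQ
  have hZPc : IsClosed ZP := hZc.inter hQ.isClosed_compl
  have hZQc : IsClosed ZQ := hZc.inter hP.isClosed_compl
  have hcov : ∀ z ∈ Z, z ∈ ZP ∨ z ∈ ZQ := by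
    intro z hz
    by_cases h1 : z ∈ Q
    · refine Or.inr ⟨hz, fun h2 => ?_⟩
      exact (Set.disjoint_left.1 hPQ) h2 h1
    · exact Or.inl ⟨hz, h1⟩
  have hdisj : ∀ z, z ∈ ZP → z ∉ ZQ := by
    rintro ⟨a, d⟩ h1 h2
    exact h1.2 (hcon a d h1.1.1 h1.1.2 h2.2)
  set ι : ℝ × ℝ → ℝ × ℝ := fun p => (p.1 + p.2, 1 - p.2) with hιdef
  have hιc : Continuous ι := by
    rw [hιdef]
    fun_prop
  have hιι : ∀ z, ι (ι z) = z + (1, 0) := by
    rintro ⟨a, d⟩
    simp [hιdef]
  have hιZ : ∀ z ∈ Z, ι z ∈ Z := by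
    rintro ⟨a, d⟩ ⟨⟨h1, h2⟩, h3⟩
    simp only at h1 h2 h3
    refine ⟨⟨?_, ?_⟩, ?_⟩
    · simp only [hιdef]; linarith
    · simp only [hιdef]; linarith
    · simp only [hιdef]
      rw [hodd, h3, neg_zero]
  have hιP : ∀ z ∈ ZP, ι z ∈ ZQ := by
    rintro ⟨a, d⟩ hz
    exact ⟨hιZ _ hz.1, fun h => hz.2 ((hι' a d).2 h)⟩
  have hιQ : ∀ z ∈ ZQ, ι z ∈ ZP := by
    rintro ⟨a, d⟩ hz
    exact ⟨hιZ _ hz.1, fun h => hz.2 ((hι a d).2 h)⟩
  -- the inverse of the glide
  set κ : ℝ × ℝ → ℝ × ℝ := fun p => (p.1 - (1 - p.2), 1 - p.2) with hκdef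
  have hικ : ∀ z, ι (κ z) = z := by
    rintro ⟨a, d⟩
    simp [hιdef, hκdef]
  have hκZ : ∀ z ∈ Z, κ z ∈ Z := by
    rintro ⟨a, d⟩ ⟨⟨h1, h2⟩, h3⟩
    simp only at h1 h2 h3
    refine ⟨⟨?_, ?_⟩, ?_⟩
    · simp only [hκdef]; linarith
    · simp only [hκdef]; linarith
    · have := hodd (a - (1 - d)) (1 - d)
      simp only [sub_add_cancel, sub_sub_cancel] at this
      simp only [hκdef]
      linarith
  have hκP : ∀ z ∈ ZP, κ z ∈ ZQ := by
    intro z hz
    refine ⟨hκZ _ hz.1, fun h => hz.2 ?_⟩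
    have := (hι (κ z).1 (κ z).2).1 h
    have h2 : ι (κ z) ∈ Q := this
    rwa [hικ] at h2
  have hκQ : ∀ z ∈ ZQ, κ z ∈ ZP := by
    intro z hz
    refine ⟨hκZ _ hz.1, fun h => hz.2 ?_⟩
    have := (hι' (κ z).1 (κ z).2).1 h
    have h2 : ι (κ z) ∈ P := this
    rwa [hικ] at h2
  -- nonempty
  have hZne : Z.Nonempty := by
    have hcont : ContinuousOn (fun d => f 0 d) (Icc 0 1) :=
      (hf.comp (continuous_const.prodMk continuous_id)).continuousOn
    have h1 : f 0 1 = - f 0 0 := by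
      have := hodd 0 0
      simpa using this
    have h2 := h0 0
    obtain ⟨d, hd, hd0⟩ := intermediate_value_Icc (zero_le_one) hcont
      (show (0 : ℝ) ∈ Icc (f 0 0) (f 0 1) from ⟨h2.le, by rw [h1]; linarith⟩)
    exact ⟨(0, d), hd, hd0⟩
  have hZPne : ZP.Nonempty := by
    obtain ⟨z, hz⟩ := hZne
    rcases hcov z hz with h | h
    · exact ⟨z, h⟩
    · exact ⟨_, hιQ z h⟩
  have hZQne : ZQ.Nonempty := by
    obtain ⟨z, hz⟩ := hZPne
    exact ⟨_, hιP z hz⟩
  -- translation invariance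
  have htr : ∀ S : Set (ℝ × ℝ), S.Nonempty → (∀ z ∈ S, z + (1, 0) ∈ S) →
      (∀ z ∈ S, z - (1, 0) ∈ S) →
      ∀ z, Metric.infDist (z + (1, 0)) S = Metric.infDist z S := by
    intro S hS h1 h2 z
    apply le_antisymm
    · rw [Metric.le_infDist hS]
      intro y hy
      refine (Metric.infDist_le_dist_of_mem (h1 y hy)).trans ?_
      rw [dist_add_right]
    · rw [Metric.le_infDist hS]
      intro y hy
      refine (Metric.infDist_le_dist_of_mem (h2 y hy)).trans ?_
      rw [← dist_add_right _ _ ((1 : ℝ), (0 : ℝ)), sub_add_cancel]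
  have hκκ : ∀ z, κ (κ z) = z - (1, 0) := by
    rintro ⟨a, d⟩
    simp only [hκdef, Prod.mk_sub_mk, sub_zero, Prod.mk.injEq]
    constructor <;> ring
  have htP := htr ZP hZPne (fun z hz => by rw [← hιι]; exact hιQ _ (hιP _ hz))
    (fun z hz => by rw [← hκκ]; exact hκQ _ (hκP _ hz))
  have htQ := htr ZQ hZQne (fun z hz => by rw [← hιι]; exact hιP _ (hιQ _ hz))
    (fun z hz => by rw [← hκκ]; exact hκP _ (hκQ _ hz))
  set E : ℝ × ℝ → ℝ := fun z => Metric.infDist z ZQ - Metric.infDist z ZP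
    - Metric.infDist (ι z) ZQ + Metric.infDist (ι z) ZP with hE
  have hEc : Continuous E := by
    have h1 := Metric.continuous_infDist_pt ZQ
    have h2 := Metric.continuous_infDist_pt ZP
    exact ((h1.sub h2).sub (h1.comp hιc)).add (h2.comp hιc)
  have hEodd : ∀ z, E (ι z) = - E z := by
    intro z
    simp only [hE]
    rw [hιι, htQ, htP]
    ring
  have hposQ : ∀ z ∈ ZP, 0 < Metric.infDist z ZQ := fun z hz =>
    (hZQc.notMem_iff_infDist_pos hZQne).1 (hdisj z hz)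
  have hposP : ∀ z ∈ ZQ, 0 < Metric.infDist z ZP := fun z hz =>
    (hZPc.notMem_iff_infDist_pos hZPne).1 (fun h => hdisj z h hz)
  have hEP : ∀ z ∈ ZP, 0 < E z := by
    intro z hz
    have h1 := hposQ z hz
    have h2 := Metric.infDist_zero_of_mem hz
    have h3 := hιP z hz
    have h4 := hposP _ h3
    have h5 := Metric.infDist_zero_of_mem h3
    simp only [hE]
    rw [h2, h5]
    linarith
  have hEQ : ∀ z ∈ ZQ, E z < 0 := by
    intro z hz
    have h1 := hposP z hz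
    have h2 := Metric.infDist_zero_of_mem hz
    have h3 := hιQ z hz
    have h4 := hposQ _ h3
    have h5 := Metric.infDist_zero_of_mem h3
    simp only [hE]
    rw [h2, h5]
    linarith
  -- the complex function
  set cl : ℝ → ℝ := fun d => max 0 (min 1 d) with hcl
  have hclc : Continuous cl := by
    rw [hcl]
    fun_prop
  have hclm : ∀ d, cl d ∈ Icc (0 : ℝ) 1 := fun d =>
    ⟨le_max_left _ _, max_le zero_le_one (min_le_left _ _)⟩
  have hcle : ∀ d ∈ Icc (0 : ℝ) 1, cl d = d := fun d hd => by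
    simp only [hcl]
    rw [min_eq_right hd.2, max_eq_right hd.1]
  set h : ℝ × ℝ → ℂ := fun p => (f p.1 (cl p.2) : ℂ) + (E (p.1, cl p.2) : ℂ) * Complex.I with hh
  have hc1 : Continuous fun p : ℝ × ℝ => (p.1, cl p.2) :=
    continuous_fst.prodMk (hclc.comp continuous_snd)
  have hhc : Continuous h := by
    have h1 : Continuous fun p : ℝ × ℝ => f p.1 (cl p.2) := hf.comp hc1
    have h2 : Continuous fun p : ℝ × ℝ => E (p.1, cl p.2) := hEc.comp hc1
    exact (Complex.continuous_ofReal.comp h1).add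
      ((Complex.continuous_ofReal.comp h2).mul continuous_const)
  have hre : ∀ p, (h p).re = f p.1 (cl p.2) := fun p => by simp [hh]
  have him : ∀ p, (h p).im = E (p.1, cl p.2) := fun p => by simp [hh]
  have hh0 : ∀ z, h z ≠ 0 := by
    intro z hz
    have h1 : f z.1 (cl z.2) = 0 := by rw [← hre, hz, Complex.zero_re]
    have h2 : E (z.1, cl z.2) = 0 := by rw [← him, hz, Complex.zero_im]
    have h3 : (z.1, cl z.2) ∈ Z := ⟨hclm _, h1⟩
    rcases hcov _ h3 with h4 | h4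
    · exact (hEP _ h4).ne' h2
    · exact (hEQ _ h4).ne h2
  obtain ⟨θ, hθc, hθ⟩ := exists_arg hhc hh0
  have hodd' : ∀ d ∈ Icc (0 : ℝ) 1, ∀ a, h (a + d, 1 - d) = - h (a, d) := by
    intro d hd a
    have hd' : 1 - d ∈ Icc (0 : ℝ) 1 := ⟨by linarith [hd.2], by linarith [hd.1]⟩
    apply Complex.ext
    · rw [hre, Complex.neg_re, hre]
      simp only
      rw [hcle _ hd, hcle _ hd', hodd]
    · rw [him, Complex.neg_im, him]
      simp only
      rw [hcle _ hd, hcle _ hd']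
      exact hEodd (a, d)
  have hint : ∀ d ∈ Icc (0 : ℝ) 1, ∀ a, ∃ n : ℤ,
      θ (a + d, 1 - d) - θ (a, d) - Real.pi = n * (2 * Real.pi) := by
    intro d hd a
    have h1 := hodd' d hd a
    have h2 := hθ (a + d, 1 - d)
    have h3 := hθ (a, d)
    have hn : ‖h (a + d, 1 - d)‖ = ‖h (a, d)‖ := by rw [h1, norm_neg]
    have hne : (‖h (a, d)‖ : ℂ) ≠ 0 := by
      rw [Ne, Complex.ofReal_eq_zero, norm_eq_zero]
      exact hh0 _
    have h4 : Complex.exp (θ (a + d, 1 - d) * Complex.I) = - Complex.exp (θ (a, d) * Complex.I) := by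
      apply mul_left_cancel₀ hne
      rw [mul_neg, ← h3, ← h1, ← hn, ← h2]
    have h5 : Complex.exp (θ (a + d, 1 - d) * Complex.I) =
        Complex.exp (θ (a, d) * Complex.I + Real.pi * Complex.I) := by
      rw [h4, Complex.exp_add, Complex.exp_pi_mul_I, mul_neg_one]
    obtain ⟨n, hn'⟩ := Complex.exp_eq_exp_iff_exists_int.1 h5
    refine ⟨n, ?_⟩
    have h6 := congrArg Complex.im hn'
    simp only [Complex.add_im, Complex.mul_im, Complex.ofReal_re, Complex.I_im, mul_one,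
      Complex.ofReal_im, Complex.I_re, mul_zero, add_zero, Complex.intCast_re,
      Complex.intCast_im, Complex.mul_re, zero_mul, sub_zero] at h6
    norm_num at h6
    linarith
  -- the constant
  have hpi : (0 : ℝ) < 2 * Real.pi := by positivity
  set ψ : ℝ → ℝ := fun d => (θ (cl d, 1 - cl d) - θ (0, cl d) - Real.pi) / (2 * Real.pi) with hψ
  have hψc : Continuous ψ := by
    have h1 : Continuous fun d => θ (cl d, 1 - cl d) :=
      hθc.comp (hclc.prodMk (continuous_const.sub hclc))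
    have h2 : Continuous fun d => θ (0, cl d) := hθc.comp (continuous_const.prodMk hclc)
    exact ((h1.sub h2).sub continuous_const).div_const _
  have hψi : ∀ d, ∃ n : ℤ, ψ d = n := by
    intro d
    obtain ⟨n, hn⟩ := hint (cl d) (hclm d) 0
    rw [zero_add] at hn
    refine ⟨n, ?_⟩
    simp only [hψ]
    rw [hn, mul_div_cancel_right₀ _ hpi.ne']
  obtain ⟨n, hn⟩ := hψi 0
  have hn1 : ψ 1 = n := by rw [← hn]; exact const_of_int hψc hψi 1 0
  have hc0 : cl 0 = 0 := hcle 0 ⟨le_rfl, zero_le_one⟩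
  have hc1' : cl 1 = 1 := hcle 1 ⟨zero_le_one, le_rfl⟩
  simp only [hψ] at hn hn1
  rw [hc0, sub_zero, div_eq_iff hpi.ne'] at hn
  rw [hc1', sub_self, div_eq_iff hpi.ne'] at hn1
  -- along `d = 0`
  set φ : ℝ → ℝ := fun a => θ (a, 0) / (2 * Real.pi) with hφ
  have hφc : Continuous φ :=
    (hθc.comp (continuous_id.prodMk continuous_const)).div_const _
  have hφ1 : φ 1 = φ 0 + (2 * n + 1) := by
    simp only [hφ]
    rw [div_eq_iff hpi.ne', add_mul, div_mul_cancel₀ _ hpi.ne']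
    linarith
  have hφn : ∀ a, ∀ m : ℤ, φ a ≠ m := by
    intro a m hm
    simp only [hφ] at hm
    rw [div_eq_iff hpi.ne'] at hm
    have h1 := hθ (a, 0)
    rw [hm] at h1
    have h2 : Complex.exp (((m * (2 * Real.pi) : ℝ) : ℂ) * Complex.I) = 1 := by
      rw [Complex.exp_eq_one_iff]
      exact ⟨m, by push_cast; ring⟩
    rw [h2, mul_one] at h1
    have h3 := congrArg Complex.re h1
    rw [hre, Complex.ofReal_re] at h3
    simp only at h3
    rw [hc0] at h3
    have := h0 a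
    have h4 := norm_nonneg (h (a, 0))
    linarith
  rcases le_or_gt 0 n with hn0 | hn0
  · have hn0' : (0 : ℝ) ≤ n := by exact_mod_cast hn0
    have h1 : (⌈φ 0⌉ : ℝ) ∈ Icc (φ 0) (φ 1) := by
      refine ⟨Int.le_ceil _, ?_⟩
      have := (Int.ceil_lt_add_one (φ 0)).le
      rw [hφ1]
      linarith
    obtain ⟨a, -, ha⟩ := intermediate_value_Icc (zero_le_one) hφc.continuousOn h1
    exact hφn a _ ha
  · have hn0' : (n : ℝ) ≤ -1 := by exact_mod_cast Int.le_sub_one_of_lt hn0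
    have h1 : (⌈φ 1⌉ : ℝ) ∈ Icc (φ 1) (φ 0) := by
      refine ⟨Int.le_ceil _, ?_⟩
      have := (Int.ceil_lt_add_one (φ 1)).le
      rw [hφ1] at this ⊢
      linarith
    obtain ⟨a, -, ha⟩ := intermediate_value_Icc' (zero_le_one) hφc.continuousOn h1
    exact hφn a _ ha

end Pool.Agent.CyG
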