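import Pool.Agent.CyG.Family
import Pool.Agent.CyG.Sign
import Pool.Agent.CyG.Cross
import Pool.Agent.CyG.Hit
import Pool.Agent.CyG.Top

set_option autoImplicit false

/-!
# A pair of geodesics of a start family that do not meet, with difference `1/2` on the level `r`
-/

namespace Pool.Agent.CyG

open Set Filter Topology
open scoped ContDiff

/-- The topological part: a continuous equivariant family of curves `(Y a s, U a s)` with `U a`
strictly increasing, which start as the vertical lines, contains two members whose horizontal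
distance is `1/2` on the level `r` and stays in `(0, 1)` on all common levels. -/
private theorem exists_pair_aux {U Y : ℝ → ℝ → ℝ} (hU : Continuous fun p : ℝ × ℝ => U p.1 p.2)
    (hY : Continuous fun p : ℝ × ℝ => Y p.1 p.2) (hmono : ∀ a, StrictMono (U a)) {ℓ r : ℝ}
    (hU0 : ∀ a s, s ≤ 0 → U a s = ℓ + s) (hY0 : ∀ a s, s ≤ 0 → Y a s = a)
    (hUp : ∀ a s, U (a + 1) s = U a s) (hYp : ∀ a s, Y (a + 1) s = Y a s + 1)
    (hr : ∀ a, ∃ s, U a s = r)
    (hC : ∀ a d s₁ s₂, 0 < d → d < 1 → 0 < s₁ → 0 < s₂ → U a s₁ = U (a + d) s₂ →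
      Y a s₁ = Y (a + d) s₂ →
      (∀ ε > 0, ∃ σ₁ ∈ Ioo (s₁ - ε) s₁, ∃ σ₂ ∈ Ioo (s₂ - ε) s₂,
        U a σ₁ = U (a + d) σ₂ ∧ Y (a + d) σ₂ < Y a σ₁) ∨
      (∀ ε > 0, ∃ σ₁ ∈ Ioo s₁ (s₁ + ε), ∃ σ₂ ∈ Ioo s₂ (s₂ + ε),
        U a σ₁ = U (a + d) σ₂ ∧ Y (a + d) σ₂ < Y a σ₁)) :
    ∃ a d, 0 < d ∧ d < 1 ∧
      (∀ s₁ s₂, U a s₁ = r → U (a + d) s₂ = r → Y (a + d) s₂ - Y a s₁ = 1 / 2) ∧
      ∀ s₁ s₂, U a s₁ = U (a + d) s₂ →
        0 < Y (a + d) s₂ - Y a s₁ ∧ Y (a + d) s₂ - Y a s₁ < 1 := by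
  obtain ⟨S, hS1, -, hopen, hScont⟩ := exists_hit hU hmono
  obtain ⟨Dom, hDom⟩ : ∃ D : Set (ℝ × ℝ), D = {p : ℝ × ℝ | ∃ s, U p.1 s = p.2} := ⟨_, rfl⟩
  rw [← hDom] at hopen hScont
  obtain ⟨X, hX⟩ : ∃ X : ℝ → ℝ → ℝ, X = fun a t => Y a (S a t) := ⟨_, rfl⟩
  have hXcont : ContinuousOn (fun p : ℝ × ℝ => X p.1 p.2) Dom := by
    rw [hX]
    exact hY.comp_continuousOn (continuousOn_fst.prodMk hScont)
  have hXval : ∀ a s, X a (U a s) = Y a s := by
    intro a s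
    rw [hX]
    simp only [hS1]
  have hmem : ∀ a t, (a, t) ∈ Dom ↔ ∃ s, U a s = t := by
    intro a t
    rw [hDom]
    exact Iff.rfl
  have hUc : ∀ a, Continuous (U a) := fun a =>
    hU.comp (continuous_const.prodMk continuous_id)
  have hdown : ∀ a t t', (a, t) ∈ Dom → t' ≤ t → (a, t') ∈ Dom := by
    intro a t t' h htt
    rw [hmem] at h ⊢
    obtain ⟨s, hs⟩ := h
    have := mem_range_of_exists_le_of_exists_ge (hUc a) (c := t')
      ⟨min (t' - ℓ) 0, by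
        rw [hU0 _ _ (min_le_right _ _)]
        have := min_le_left (t' - ℓ) 0
        linarith⟩ ⟨s, by rw [hs]; exact htt⟩
    exact this
  have hUl : ∀ a t, t ≤ ℓ → U a (t - ℓ) = t := by
    intro a t ht
    rw [hU0 _ _ (by linarith)]
    ring
  have hDl : ∀ a t, t ≤ ℓ → (a, t) ∈ Dom := fun a t ht => (hmem a t).2 ⟨t - ℓ, hUl a t ht⟩
  have hXl : ∀ a t, t ≤ ℓ → X a t = a := by
    intro a t ht
    rw [← hUl a t ht, hXval, hY0 _ _ (by linarith)]
  have hDp : ∀ a t, (a + 1, t) ∈ Dom ↔ (a, t) ∈ Dom := by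
    intro a t
    rw [hmem, hmem]
    simp only [hUp]
  have hXp : ∀ a t, (a, t) ∈ Dom → X (a + 1) t = X a t + 1 := by
    intro a t h
    rw [hmem] at h
    obtain ⟨s, rfl⟩ := h
    have h1 := hXval (a + 1) s
    rw [hUp] at h1
    rw [h1, hYp, hXval]
  have hDr : ∀ a, (a, r) ∈ Dom := fun a => (hmem a r).2 (hr a)
  -- the common domain of two curves
  obtain ⟨D2, hD2⟩ : ∃ D : Set ((ℝ × ℝ) × ℝ),
      D = {q | (q.1.1, q.2) ∈ Dom ∧ (q.1.1 + q.1.2, q.2) ∈ Dom} := ⟨_, rfl⟩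
  have hm1 : Continuous fun q : (ℝ × ℝ) × ℝ => (q.1.1, q.2) := by fun_prop
  have hm2 : Continuous fun q : (ℝ × ℝ) × ℝ => (q.1.1 + q.1.2, q.2) := by fun_prop
  have hD2o : IsOpen D2 := by
    rw [hD2]
    exact (hopen.preimage hm1).inter (hopen.preimage hm2)
  have hD2m : ∀ a d t, ((a, d), t) ∈ D2 ↔ (a, t) ∈ Dom ∧ (a + d, t) ∈ Dom := by
    intro a d t
    rw [hD2]
    exact Iff.rfl
  have hD2down : ∀ p t t', (p, t) ∈ D2 → t' ≤ t → (p, t') ∈ D2 := by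
    rintro ⟨a, d⟩ t t' h htt
    rw [hD2m] at h ⊢
    exact ⟨hdown _ _ _ h.1 htt, hdown _ _ _ h.2 htt⟩
  obtain ⟨δ, hδ⟩ : ∃ δ : (ℝ × ℝ) × ℝ → ℝ, δ = fun q => X (q.1.1 + q.1.2) q.2 - X q.1.1 q.2 :=
    ⟨_, rfl⟩
  have hδc : ContinuousOn δ D2 := by
    rw [hδ]
    refine ContinuousOn.sub ?_ ?_
    · exact hXcont.comp hm2.continuousOn (fun q hq => by rw [hD2] at hq; exact hq.2)
    · exact hXcont.comp hm1.continuousOn (fun q hq => by rw [hD2] at hq; exact hq.1)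
  have hδca : ∀ q ∈ D2, ContinuousAt δ q := fun q hq => hδc.continuousAt (hD2o.mem_nhds hq)
  have hδv : ∀ a d t, δ ((a, d), t) = X (a + d) t - X a t := by
    intro a d t
    rw [hδ]
  have hδl : ∀ a d t, t ≤ ℓ → δ ((a, d), t) = d := by
    intro a d t ht
    rw [hδv, hXl _ _ ht, hXl _ _ ht]
    ring
  -- the glide
  have hgl : ∀ a d t, ((a, d), t) ∈ D2 ↔ ((a + d, 1 - d), t) ∈ D2 := by
    intro a d t
    rw [hD2m, hD2m]
    have h1 : a + d + (1 - d) = a + 1 := by ring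
    rw [h1, hDp]
    exact and_comm
  have hglδ : ∀ a d t, ((a, d), t) ∈ D2 → δ ((a + d, 1 - d), t) = 1 - δ ((a, d), t) := by
    intro a d t h
    rw [hD2m] at h
    have h1 : a + d + (1 - d) = a + 1 := by ring
    rw [hδv, hδv, h1, hXp _ _ h.1]
    ring
  obtain ⟨P, hP⟩ : ∃ P : Set (ℝ × ℝ), P = {p | 0 < p.2 ∧ p.2 < 1 ∧ ∃ t, ℓ ≤ t ∧ (p, t) ∈ D2 ∧
      δ (p, t) < 0 ∧ ∀ t' ∈ Icc ℓ t, δ (p, t') < 1} := ⟨_, rfl⟩
  obtain ⟨Q, hQ⟩ : ∃ Q : Set (ℝ × ℝ), Q = {p | 0 < p.2 ∧ p.2 < 1 ∧ ∃ t, ℓ ≤ t ∧ (p, t) ∈ D2 ∧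
      1 < δ (p, t) ∧ ∀ t' ∈ Icc ℓ t, 0 < δ (p, t')} := ⟨_, rfl⟩
  have hPo : IsOpen P := by
    rw [isOpen_iff_mem_nhds]
    intro p₀ h
    rw [hP] at h
    obtain ⟨h1, h2, t₀, h3, h4, h5, h6⟩ := h
    have e1 : ∀ᶠ p : ℝ × ℝ in 𝓝 p₀, 0 < p.2 := continuous_snd.continuousAt.eventually_const_lt h1
    have e2 : ∀ᶠ p : ℝ × ℝ in 𝓝 p₀, p.2 < 1 := continuous_snd.continuousAt.eventually_lt_const h2
    have hc : Continuous fun p : ℝ × ℝ => (p, t₀) := continuous_id.prodMk continuous_const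
    have e3 : ∀ᶠ p : ℝ × ℝ in 𝓝 p₀, (p, t₀) ∈ D2 :=
      hc.continuousAt.eventually (hD2o.mem_nhds h4)
    have e4 : ∀ᶠ p : ℝ × ℝ in 𝓝 p₀, δ (p, t₀) < 0 :=
      (hc.continuousAt (x := p₀)).eventually ((hδca _ h4).eventually_lt_const h5)
    have e5 : ∀ᶠ p : ℝ × ℝ in 𝓝 p₀, ∀ t' ∈ Icc ℓ t₀, δ (p, t') < 1 := by
      refine isCompact_Icc.eventually_forall_of_forall_eventually (fun t' ht' => ?_)
      exact (hδca _ (hD2down _ _ _ h4 ht'.2)).eventually_lt_const (h6 t' ht')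
    filter_upwards [e1, e2, e3, e4, e5] with p f1 f2 f3 f4 f5
    rw [hP]
    exact ⟨f1, f2, t₀, h3, f3, f4, f5⟩
  have hQo : IsOpen Q := by
    rw [isOpen_iff_mem_nhds]
    intro p₀ h
    rw [hQ] at h
    obtain ⟨h1, h2, t₀, h3, h4, h5, h6⟩ := h
    have e1 : ∀ᶠ p : ℝ × ℝ in 𝓝 p₀, 0 < p.2 := continuous_snd.continuousAt.eventually_const_lt h1
    have e2 : ∀ᶠ p : ℝ × ℝ in 𝓝 p₀, p.2 < 1 := continuous_snd.continuousAt.eventually_lt_const h2
    have hc : Continuous fun p : ℝ × ℝ => (p, t₀) := continuous_id.prodMk continuous_const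
    have e3 : ∀ᶠ p : ℝ × ℝ in 𝓝 p₀, (p, t₀) ∈ D2 :=
      hc.continuousAt.eventually (hD2o.mem_nhds h4)
    have e4 : ∀ᶠ p : ℝ × ℝ in 𝓝 p₀, 1 < δ (p, t₀) :=
      (hc.continuousAt (x := p₀)).eventually ((hδca _ h4).eventually_const_lt h5)
    have e5 : ∀ᶠ p : ℝ × ℝ in 𝓝 p₀, ∀ t' ∈ Icc ℓ t₀, 0 < δ (p, t') := by
      refine isCompact_Icc.eventually_forall_of_forall_eventually (fun t' ht' => ?_)
      exact (hδca _ (hD2down _ _ _ h4 ht'.2)).eventually_const_lt (h6 t' ht')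
    filter_upwards [e1, e2, e3, e4, e5] with p f1 f2 f3 f4 f5
    rw [hQ]
    exact ⟨f1, f2, t₀, h3, f3, f4, f5⟩
  have hPQ : Disjoint P Q := by
    rw [Set.disjoint_left]
    rintro p hp hq
    rw [hP] at hp
    rw [hQ] at hq
    obtain ⟨-, -, t₁, h3, h4, h5, h6⟩ := hp
    obtain ⟨-, -, t₂, k3, k4, k5, k6⟩ := hq
    rcases le_total t₁ t₂ with h | h
    · exact absurd (k6 t₁ ⟨h3, h⟩) (not_lt.2 h5.le)
    · exact absurd (h6 t₂ ⟨k3, h⟩) (not_lt.2 k5.le)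
  have hι : ∀ a d, (a, d) ∈ P ↔ (a + d, 1 - d) ∈ Q := by
    intro a d
    rw [hP, hQ]
    constructor
    · rintro ⟨h1, h2, t, h3, h4, h5, h6⟩
      refine ⟨by dsimp only at h2 ⊢; linarith, by dsimp only at h1 ⊢; linarith, t, h3,
        (hgl a d t).1 h4, ?_, fun t' ht' => ?_⟩
      · rw [hglδ a d t h4]
        linarith
      · rw [hglδ a d t' (hD2down _ _ _ h4 ht'.2)]
        have := h6 t' ht'
        linarith
    · rintro ⟨h1, h2, t, h3, h4, h5, h6⟩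
      have h4' := (hgl a d t).2 h4
      refine ⟨by dsimp only at h2 ⊢; linarith, by dsimp only at h1 ⊢; linarith, t, h3,
        h4', ?_, fun t' ht' => ?_⟩
      · rw [hglδ a d t h4'] at h5
        linarith
      · have := h6 t' ht'
        rw [hglδ a d t' (hD2down _ _ _ h4' ht'.2)] at this
        linarith
  have hι' : ∀ a d, (a, d) ∈ Q ↔ (a + d, 1 - d) ∈ P := by
    intro a d
    rw [hP, hQ]
    constructor
    · rintro ⟨h1, h2, t, h3, h4, h5, h6⟩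
      refine ⟨by dsimp only at h2 ⊢; linarith, by dsimp only at h1 ⊢; linarith, t, h3,
        (hgl a d t).1 h4, ?_, fun t' ht' => ?_⟩
      · rw [hglδ a d t h4]
        linarith
      · rw [hglδ a d t' (hD2down _ _ _ h4 ht'.2)]
        have := h6 t' ht'
        linarith
    · rintro ⟨h1, h2, t, h3, h4, h5, h6⟩
      have h4' := (hgl a d t).2 h4
      refine ⟨by dsimp only at h2 ⊢; linarith, by dsimp only at h1 ⊢; linarith, t, h3,
        h4', ?_, fun t' ht' => ?_⟩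
      · rw [hglδ a d t h4'] at h5
        linarith
      · have := h6 t' ht'
        rw [hglδ a d t' (hD2down _ _ _ h4' ht'.2)] at this
        linarith
  -- the function on the level `r`
  have hf : Continuous fun p : ℝ × ℝ => X (p.1 + p.2) r - X p.1 r - 1 / 2 := by
    have h1 : Continuous fun a : ℝ => X a r := by
      have : Continuous fun a : ℝ => ((a, r) : ℝ × ℝ) := by fun_prop
      rw [← continuousOn_univ]
      exact hXcont.comp this.continuousOn (fun a _ => hDr a)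
    exact ((h1.comp (continuous_fst.add continuous_snd)).sub (h1.comp continuous_fst)).sub
      continuous_const
  obtain ⟨a, d, hd, hfd, hnP, hnQ⟩ := exists_zero_not_mem
    (f := fun a d => X (a + d) r - X a r - 1 / 2) hf
    (fun a d => by
      have h1 : a + d + (1 - d) = a + 1 := by ring
      simp only [h1, hXp _ _ (hDr a)]
      ring) (fun a => by simp only [add_zero, sub_self]; norm_num) hPo hQo hPQ hι hι'
  have hd0 : 0 < d := by
    rcases hd.1.lt_or_eq with h | h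
    · exact h
    · exfalso
      rw [← h] at hfd
      simp only [add_zero, sub_self] at hfd
      norm_num at hfd
  have hd1 : d < 1 := by
    rcases hd.2.lt_or_eq with h | h
    · exact h
    · exfalso
      rw [h] at hfd
      simp only [hXp _ _ (hDr a)] at hfd
      norm_num at hfd
  -- the key lemma at a first contact
  have key : ∀ a d t₀, 0 < d → d < 1 → ℓ < t₀ → ((a, d), t₀) ∈ D2 →
      (∀ t, ℓ ≤ t → t < t₀ → 0 < δ ((a, d), t) ∧ δ ((a, d), t) < 1) → δ ((a, d), t₀) = 0 →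
      (a, d) ∈ P := by
    intro a d t₀ hd0 hd1 ht₀ hD hlt h0
    have hD' := hD
    rw [hD2m, hmem, hmem] at hD'
    obtain ⟨⟨s₁, hs₁⟩, ⟨s₂, hs₂⟩⟩ := hD'
    have hs₁0 : 0 < s₁ := by
      by_contra hcon
      rw [hU0 a s₁ (not_lt.1 hcon)] at hs₁
      linarith [not_lt.1 hcon]
    have hs₂0 : 0 < s₂ := by
      by_contra hcon
      rw [hU0 _ s₂ (not_lt.1 hcon)] at hs₂
      linarith [not_lt.1 hcon]
    have hYeq : Y a s₁ = Y (a + d) s₂ := by
      rw [← hXval, ← hXval, hs₁, hs₂]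
      rw [hδv] at h0
      linarith
    rcases hC a d s₁ s₂ hd0 hd1 hs₁0 hs₂0 (hs₁.trans hs₂.symm) hYeq with hb | ha
    · exfalso
      obtain ⟨σ₁, hσ₁, σ₂, hσ₂, hu, hy⟩ := hb (min s₁ s₂) (lt_min hs₁0 hs₂0)
      have hσ₁0 : 0 < σ₁ := by
        have := hσ₁.1
        have := min_le_left s₁ s₂
        linarith
      have hlev : U a σ₁ < t₀ := by
        rw [← hs₁]
        exact hmono a hσ₁.2
      have hlev' : ℓ ≤ U a σ₁ := by
        have h1 := hU0 a 0 le_rfl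
        have h2 := hmono a hσ₁0
        linarith
      have h1 := (hlt _ hlev' hlev).1
      rw [hδv, hXval, hu, hXval] at h1
      linarith
    · -- continuity of `δ` at `t₀`
      have hcont : ∀ᶠ t in 𝓝 t₀, δ ((a, d), t) < 1 := by
        have hc : Continuous fun t : ℝ => (((a, d) : ℝ × ℝ), t) :=
          continuous_const.prodMk continuous_id
        exact (hc.continuousAt (x := t₀)).eventually
          ((hδca _ hD).eventually_lt_const (by rw [h0]; norm_num))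
      obtain ⟨η, hη, hηt⟩ := Metric.eventually_nhds_iff.1 hcont
      have hUη : ∀ᶠ s in 𝓝 s₁, U a s < t₀ + η :=
        (hUc a).continuousAt.eventually_lt_const (by rw [hs₁]; linarith)
      obtain ⟨ε, hε, hεs⟩ := Metric.eventually_nhds_iff.1 hUη
      obtain ⟨σ₁, hσ₁, σ₂, hσ₂, hu, hy⟩ := ha ε hε
      have hlev : t₀ < U a σ₁ := by
        rw [← hs₁]
        exact hmono a hσ₁.1
      have hlev2 : U a σ₁ < t₀ + η := by
        apply hεs
        rw [Real.dist_eq, abs_lt]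
        constructor <;> linarith [hσ₁.1, hσ₁.2]
      rw [hP]
      refine ⟨hd0, hd1, U a σ₁, by linarith, ?_, ?_, ?_⟩
      · rw [hD2m, hmem, hmem]
        exact ⟨⟨σ₁, rfl⟩, ⟨σ₂, hu.symm⟩⟩
      · have e1 : X a (U a σ₁) = Y a σ₁ := hXval _ _
        have e2 : X (a + d) (U a σ₁) = Y (a + d) σ₂ := by rw [hu, hXval]
        rw [hδv, e1, e2]
        linarith
      · intro t' ht'
        rcases lt_or_ge t' t₀ with h | h
        · exact (hlt t' ht'.1 h).2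
        · apply hηt
          rw [Real.dist_eq, abs_lt]
          constructor <;> linarith [ht'.2]
  -- the distance stays in `(0, 1)`
  have main : ∀ t, ((a, d), t) ∈ D2 → 0 < δ ((a, d), t) ∧ δ ((a, d), t) < 1 := by
    intro t₁ ht₁
    rcases le_or_gt t₁ ℓ with hle | hgt
    · rw [hδl _ _ _ hle]
      exact ⟨hd0, hd1⟩
    by_contra hcon
    have hcI : ContinuousOn (fun t => δ ((a, d), t)) (Icc ℓ t₁) := by
      have hc : Continuous fun t : ℝ => (((a, d) : ℝ × ℝ), t) :=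
        continuous_const.prodMk continuous_id
      exact hδc.comp hc.continuousOn (fun t ht => hD2down _ _ _ ht₁ ht.2)
    obtain ⟨B, hB⟩ : ∃ B : Set ℝ, B = Icc ℓ t₁ ∩ (fun t => δ ((a, d), t)) ⁻¹' (Ioo 0 1)ᶜ :=
      ⟨_, rfl⟩
    have hBc : IsCompact B := by
      rw [hB]
      exact isCompact_Icc.of_isClosed_subset
        (hcI.preimage_isClosed_of_isClosed isClosed_Icc isOpen_Ioo.isClosed_compl)
        inter_subset_left
    have hBm : ∀ t, t ∈ B ↔ (ℓ ≤ t ∧ t ≤ t₁) ∧ ¬ (0 < δ ((a, d), t) ∧ δ ((a, d), t) < 1) := by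
      intro t
      rw [hB]
      exact Iff.rfl
    have hBne : B.Nonempty := ⟨t₁, (hBm t₁).2 ⟨⟨hgt.le, le_rfl⟩, hcon⟩⟩
    obtain ⟨t₀, ht₀B, ht₀min⟩ := hBc.exists_isLeast hBne
    have ht₀ := (hBm t₀).1 ht₀B
    have hℓt₀ : ℓ < t₀ := by
      rcases ht₀.1.1.lt_or_eq with h | h
      · exact h
      · exfalso
        apply ht₀.2
        rw [← h, hδl _ _ _ le_rfl]
        exact ⟨hd0, hd1⟩
    have hlt : ∀ t, ℓ ≤ t → t < t₀ → 0 < δ ((a, d), t) ∧ δ ((a, d), t) < 1 := by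
      intro t h1 h2
      by_contra h3
      have := ht₀min ((hBm t).2 ⟨⟨h1, h2.le.trans ht₀.1.2⟩, h3⟩)
      linarith
    have hD0 : ((a, d), t₀) ∈ D2 := hD2down _ _ _ ht₁ ht₀.1.2
    have hcI0 : ContinuousOn (fun t => δ ((a, d), t)) (Icc ℓ t₀) :=
      hcI.mono (Icc_subset_Icc le_rfl ht₀.1.2)
    have h01 : δ ((a, d), t₀) = 0 ∨ δ ((a, d), t₀) = 1 := by
      rcases le_or_gt (δ ((a, d), t₀)) 0 with h | h
      · left
        have h1 : (0 : ℝ) ∈ (fun t => δ ((a, d), t)) '' Icc ℓ t₀ := by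
          apply intermediate_value_Icc' hℓt₀.le hcI0
          exact ⟨h, by simp only [hδl _ _ _ le_rfl]; exact hd0.le⟩
        obtain ⟨t, ht, hte⟩ := h1
        rcases ht.2.lt_or_eq with h2 | h2
        · have := (hlt t ht.1 h2).1
          simp only at hte
          linarith
        · rw [← h2]
          exact hte
      · right
        have h' : 1 ≤ δ ((a, d), t₀) := by
          by_contra h3
          exact ht₀.2 ⟨h, not_le.1 h3⟩
        have h1 : (1 : ℝ) ∈ (fun t => δ ((a, d), t)) '' Icc ℓ t₀ := by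
          apply intermediate_value_Icc hℓt₀.le hcI0
          exact ⟨by simp only [hδl _ _ _ le_rfl]; exact hd1.le, h'⟩
        obtain ⟨t, ht, hte⟩ := h1
        rcases ht.2.lt_or_eq with h2 | h2
        · have := (hlt t ht.1 h2).2
          simp only at hte
          linarith
        · rw [← h2]
          exact hte
    rcases h01 with h | h
    · exact hnP (key a d t₀ hd0 hd1 hℓt₀ hD0 hlt h)
    · apply hnQ
      rw [hι']
      refine key (a + d) (1 - d) t₀ (by linarith) (by linarith) hℓt₀ ((hgl _ _ _).1 hD0) ?_ ?_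
      · intro t h1 h2
        rw [hglδ _ _ _ (hD2down _ _ _ hD0 h2.le)]
        have := hlt t h1 h2
        constructor <;> linarith [this.1, this.2]
      · rw [hglδ _ _ _ hD0, h]
        ring
  refine ⟨a, d, hd0, hd1, fun s₁ s₂ h1 h2 => ?_, fun s₁ s₂ h => ?_⟩
  · have e1 : X a r = Y a s₁ := by rw [← h1, hXval]
    have e2 : X (a + d) r = Y (a + d) s₂ := by rw [← h2, hXval]
    simp only [e1, e2] at hfd
    linarith
  · have hD : ((a, d), U a s₁) ∈ D2 := by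
      rw [hD2m, hmem, hmem]
      exact ⟨⟨s₁, rfl⟩, ⟨s₂, h.symm⟩⟩
    have e1 : X a (U a s₁) = Y a s₁ := hXval _ _
    have e2 : X (a + d) (U a s₁) = Y (a + d) s₂ := by rw [h, hXval]
    have := main _ hD
    rw [hδv, e1, e2] at this
    exact this

namespace CylMetric

variable {g : CylMetric} {φ : ℝ → State → State} {A : Set ℝ}

theorem IsFlow.exists_pair (h : g.IsFlow φ) (hA : g.Region A) {ℓ r n : ℝ} {ζ : ℝ → State}
    (hζ : g.IsFamily φ A ℓ r n ζ) : ∃ z₁ z₂ : State, g.IsPair φ A r n z₁ z₂ := by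
  obtain ⟨U, hUd⟩ : ∃ U : ℝ → ℝ → ℝ, U = fun a s => (φ (max s 0) (ζ a)).2.1 + min s 0 :=
    ⟨_, rfl⟩
  obtain ⟨Y, hYd⟩ : ∃ Y : ℝ → ℝ → ℝ, Y = fun a s => (φ (max s 0) (ζ a)).1 := ⟨_, rfl⟩
  have hm : ∀ a, (ζ a).2.1 ∈ A := fun a => by rw [hζ.t_eq a]; exact hζ.mem
  have hφc : Continuous fun p : ℝ × ℝ => φ (max p.2 0) (ζ p.1) :=
    h.continuous.comp ((continuous_snd.max continuous_const).prodMk (hζ.cont.comp continuous_fst))
  have hUc : Continuous fun p : ℝ × ℝ => U p.1 p.2 := by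
    rw [hUd]
    exact (continuous_fst.comp (continuous_snd.comp hφc)).add (continuous_snd.min continuous_const)
  have hYc : Continuous fun p : ℝ × ℝ => Y p.1 p.2 := by
    rw [hYd]
    exact continuous_fst.comp hφc
  have hUpos : ∀ a s, 0 ≤ s → U a s = (φ s (ζ a)).2.1 := by
    intro a s hs
    rw [hUd]
    simp only [max_eq_left hs, min_eq_right hs, add_zero]
  have hYpos : ∀ a s, 0 ≤ s → Y a s = (φ s (ζ a)).1 := by
    intro a s hs
    rw [hYd]
    simp only [max_eq_left hs]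
  have hUneg : ∀ a s, s ≤ 0 → U a s = ℓ + s := by
    intro a s hs
    rw [hUd]
    simp only [max_eq_right hs, min_eq_left hs, h.zero, hζ.t_eq]
  have hYneg : ∀ a s, s ≤ 0 → Y a s = a := by
    intro a s hs
    rw [hYd]
    simp only [max_eq_right hs, h.zero, hζ.x_eq]
  have hmono : ∀ a, StrictMono (U a) := by
    intro a s s' hss
    rcases le_or_gt s' 0 with h1 | h1
    · rw [hUneg _ _ h1, hUneg _ _ (hss.le.trans h1)]
      linarith
    · have hs := h.t_strictMonoOn hA (hm a) (hζ.up a)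
      have h2 : (φ (max s 0) (ζ a)).2.1 < (φ s' (ζ a)).2.1 :=
        hs (le_max_right s 0) h1.le (max_lt hss h1)
      rw [hUpos _ _ h1.le, hUd]
      have := min_le_right s 0
      simp only
      linarith
  have hper : ∀ a s, φ s (ζ (a + 1)) = CyG.shift (φ s (ζ a)) := by
    intro a s
    rw [hζ.per, h.shift]
  have hUp : ∀ a s, U (a + 1) s = U a s := by
    intro a s
    rw [hUd]
    simp only [hper]
    rfl
  have hYp : ∀ a s, Y (a + 1) s = Y a s + 1 := by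
    intro a s
    rw [hYd]
    simp only [hper]
    rfl
  have hr : ∀ a, ∃ s, U a s = r := by
    intro a
    obtain ⟨s, hs, -, hsr⟩ := hζ.reach a
    exact ⟨s, by rw [hUpos _ _ hs]; exact hsr⟩
  -- different members of the family do not meet with the same velocity
  have hne : ∀ a b s₁ s₂, a ≠ b → 0 ≤ s₁ → 0 ≤ s₂ → φ s₁ (ζ a) ≠ φ s₂ (ζ b) := by
    have aux : ∀ a b s₁ s₂, a ≠ b → 0 ≤ s₁ → 0 ≤ s₂ → s₂ ≤ s₁ → φ s₁ (ζ a) ≠ φ s₂ (ζ b) := by
      intro a b s₁ s₂ hab hs₁ hs₂ hss he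
      have h1 : φ (s₁ - s₂) (ζ a) = ζ b := by
        have e1 : φ (-s₂) (φ s₁ (ζ a)) = φ (s₁ - s₂) (ζ a) := by
          rw [← h.add]
          congr 1
          ring
        have e2 : φ (-s₂) (φ s₂ (ζ b)) = ζ b := by
          rw [← h.add, neg_add_cancel, h.zero]
        rw [← e1, he, e2]
      have h2 : (φ (s₁ - s₂) (ζ a)).2.1 = (φ 0 (ζ a)).2.1 := by
        rw [h1, h.zero, hζ.t_eq, hζ.t_eq]
      have h3 : s₁ - s₂ = 0 := by
        have hs := h.t_strictMonoOn hA (hm a) (hζ.up a)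
        exact hs.injOn (mem_Ici.2 (sub_nonneg.2 hss)) (mem_Ici.2 le_rfl) h2
      rw [h3, h.zero] at h1
      apply hab
      rw [← hζ.x_eq a, h1, hζ.x_eq]
    intro a b s₁ s₂ hab hs₁ hs₂
    rcases le_total s₂ s₁ with h1 | h1
    · exact aux a b s₁ s₂ hab hs₁ hs₂ h1
    · exact (aux b a s₂ s₁ hab.symm hs₂ hs₁ h1).symm
  have hen : ∀ a s, g.en (φ s (ζ a)) = 1 := by
    intro a s
    rw [h.en_flow, hζ.en_eq]
  have hwp : ∀ a s, 0 ≤ s → 0 < g.w (φ s (ζ a)) := fun a s hs =>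
    h.w_pos hA (hm a) (hζ.up a) hs
  have hC : ∀ a d s₁ s₂, 0 < d → d < 1 → 0 < s₁ → 0 < s₂ → U a s₁ = U (a + d) s₂ →
      Y a s₁ = Y (a + d) s₂ →
      (∀ ε > 0, ∃ σ₁ ∈ Ioo (s₁ - ε) s₁, ∃ σ₂ ∈ Ioo (s₂ - ε) s₂,
        U a σ₁ = U (a + d) σ₂ ∧ Y (a + d) σ₂ < Y a σ₁) ∨
      (∀ ε > 0, ∃ σ₁ ∈ Ioo s₁ (s₁ + ε), ∃ σ₂ ∈ Ioo s₂ (s₂ + ε),
        U a σ₁ = U (a + d) σ₂ ∧ Y (a + d) σ₂ < Y a σ₁) := by
    intro a d s₁ s₂ hd0 hd1 hs₁ hs₂ hu hy
    rw [hUpos _ _ hs₁.le, hUpos _ _ hs₂.le] at hu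
    rw [hYpos _ _ hs₁.le, hYpos _ _ hs₂.le] at hy
    have hsl : g.v (φ s₁ (ζ a)) / g.w (φ s₁ (ζ a)) ≠
        g.v (φ s₂ (ζ (a + d))) / g.w (φ s₂ (ζ (a + d))) := by
      intro hs
      exact hne a (a + d) s₁ s₂ (by linarith) hs₁.le hs₂.le
        (g.eq_of_slope (hen _ _) (hen _ _) (hwp _ _ hs₁.le) (hwp _ _ hs₂.le) hy hu hs)
    have hct : ∀ b, Continuous fun s => (φ s (ζ b)).2.1 := fun b =>
      continuous_fst.comp (continuous_snd.comp (h.continuous_time (ζ b)))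
    rcases lt_or_gt_of_ne hsl with hlt | hgt
    · left
      intro ε hε
      obtain ⟨σ₁, hσ₁, σ₂, hσ₂, h1, h2⟩ := cross_before (hct a) (hct (a + d))
        (h.hasDerivAt_t (ζ a) s₁) (h.hasDerivAt_x (ζ a) s₁)
        (h.hasDerivAt_t (ζ (a + d)) s₂) (h.hasDerivAt_x (ζ (a + d)) s₂)
        (hwp _ _ hs₁.le) (hwp _ _ hs₂.le) hu hy hlt (lt_min hε (lt_min hs₁ hs₂))
      have m1 : min ε (min s₁ s₂) ≤ ε := min_le_left _ _
      have m2 : min ε (min s₁ s₂) ≤ s₁ := (min_le_right _ _).trans (min_le_left _ _)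
      have m3 : min ε (min s₁ s₂) ≤ s₂ := (min_le_right _ _).trans (min_le_right _ _)
      have p1 : 0 ≤ σ₁ := by linarith [hσ₁.1]
      have p2 : 0 ≤ σ₂ := by linarith [hσ₂.1]
      refine ⟨σ₁, ⟨by linarith [hσ₁.1], hσ₁.2⟩, σ₂, ⟨by linarith [hσ₂.1], hσ₂.2⟩, ?_, ?_⟩
      · rw [hUpos _ _ p1, hUpos _ _ p2]
        exact h1
      · rw [hYpos _ _ p1, hYpos _ _ p2]
        exact h2
    · right
      intro ε hε
      obtain ⟨σ₂, hσ₂, σ₁, hσ₁, h1, h2⟩ := cross_after (hct (a + d)) (hct a)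
        (h.hasDerivAt_t (ζ (a + d)) s₂) (h.hasDerivAt_x (ζ (a + d)) s₂)
        (h.hasDerivAt_t (ζ a) s₁) (h.hasDerivAt_x (ζ a) s₁)
        (hwp _ _ hs₂.le) (hwp _ _ hs₁.le) hu.symm hy.symm hgt hε
      have p1 : 0 ≤ σ₁ := by linarith [hσ₁.1]
      have p2 : 0 ≤ σ₂ := by linarith [hσ₂.1]
      refine ⟨σ₁, hσ₁, σ₂, hσ₂, ?_, ?_⟩
      · rw [hUpos _ _ p1, hUpos _ _ p2]
        exact h1.symm
      · rw [hYpos _ _ p1, hYpos _ _ p2]
        exact h2
  obtain ⟨a, d, hd0, hd1, hhalf, hsep⟩ :=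
    exists_pair_aux hUc hYc hmono hUneg hYneg hUp hYp hr hC
  obtain ⟨T₁, hT₁0, hT₁n, hT₁r⟩ := hζ.reach a
  obtain ⟨T₂, hT₂0, hT₂n, hT₂r⟩ := hζ.reach (a + d)
  refine ⟨φ T₁ (ζ a), φ T₂ (ζ (a + d)), hen _ _, hen _ _, hT₁r, hT₂r, ?_, ?_, ?_, ?_, ?_, ?_⟩
  · have := hhalf T₁ T₂ (by rw [hUpos _ _ hT₁0]; exact hT₁r) (by rw [hUpos _ _ hT₂0]; exact hT₂r)
    rw [hYpos _ _ hT₁0, hYpos _ _ hT₂0] at this
    linarith
  · intro s hs
    rw [← h.add]
    exact hwp _ _ (by linarith)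
  · intro s hs
    rw [← h.add]
    exact hwp _ _ (by linarith)
  · intro s hs
    rw [← h.add]
    exact h.t_mem hA (hm _) (hζ.up _) (by linarith)
  · intro s hs
    rw [← h.add]
    exact h.t_mem hA (hm _) (hζ.up _) (by linarith)
  · intro s s' hs hs' he
    rw [← h.add, ← h.add] at he ⊢
    have := hsep (s + T₁) (s' + T₂)
      (by rw [hUpos _ _ (by linarith), hUpos _ _ (by linarith)]; exact he)
    rw [hYpos _ _ (by linarith), hYpos _ _ (by linarith)] at this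
    exact this

end CylMetric

end Pool.Agent.CyG
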