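import Pool.Agent.CyG.FlowEx
import Pool.Agent.CyG.FamUniv
import Pool.Agent.CyG.FamLevel
import Pool.Agent.CyG.Pair
import Pool.Agent.CyG.Limit

set_option autoImplicit false

/-!
# Two disjoint embedded geodesic lines
-/

namespace Pool.Agent.CyG

open Set Filter Topology
open scoped ContDiff

namespace CylMetric

variable {g : CylMetric} {φ : ℝ → State → State} {A : Set ℝ}

theorem IsFlow.isLine (h : g.IsFlow φ) {z : State} (hen : g.en z = 1) :
    g.IsLine (fun s => (((φ s z).1 : AddCircle (1 : ℝ)), (φ s z).2.1)) := by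
  refine ⟨fun s => (φ s z).1, fun s => (φ s z).2.1, h.isGeodesic z, fun s => ?_, fun s => rfl⟩
  rw [(h.hasDerivAt_x z s).deriv, (h.hasDerivAt_t z s).deriv, ← hen, ← h.en_flow s z]
  rfl

theorem IsFlow.isEmbedding (h : g.IsFlow φ) {z : State} (hw : ∀ s, 0 < g.w (φ s z)) :
    StrictMono (fun s => (φ s z).2.1) ∧
    IsEmbedding (fun s => (((φ s z).1 : AddCircle (1 : ℝ)), (φ s z).2.1)) := by
  have hmono : StrictMono (fun s => (φ s z).2.1) := by
    refine strictMono_of_deriv_pos fun s => ?_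
    rw [(h.hasDerivAt_t z s).deriv]
    exact hw s
  refine ⟨hmono, ?_⟩
  have hcont : Continuous (fun s => (((φ s z).1 : AddCircle (1 : ℝ)), (φ s z).2.1)) := by
    have h1 := h.continuous_time z
    exact ((AddCircle.continuous_mk' 1).comp (continuous_fst.comp h1)).prodMk
      ((continuous_fst.comp continuous_snd).comp h1)
  have hemb : IsEmbedding (fun s => (φ s z).2.1) := by
    refine hmono.isEmbedding_of_ordConnected ?_
    have : IsPreconnected (range fun s => (φ s z).2.1) :=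
      isPreconnected_range ((continuous_fst.comp continuous_snd).comp (h.continuous_time z))
    exact this.ordConnected
  exact IsEmbedding.of_comp hcont continuous_snd hemb

theorem main_of_level (h : g.IsFlow φ) (hA : g.Region A) {r : ℝ}
    (hr : ∃ x, g.bend (x, r) ≠ 0)
    (hfam : ∀ n : ℝ, ∃ (ℓ : ℝ) (ζ : ℝ → State), g.IsFamily φ A ℓ r n ζ) :
    ∃ c₁ c₂ : ℝ → AddCircle (1 : ℝ) × ℝ, g.IsLine c₁ ∧ g.IsLine c₂ ∧
      IsEmbedding c₁ ∧ IsEmbedding c₂ ∧ Disjoint (range c₁) (range c₂) ∧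
      StrictMono (fun s => (c₁ s).2) ∧ StrictMono (fun s => (c₂ s).2) ∧
      (∀ s, (c₁ s).2 ∈ A) ∧ (∀ s, (c₂ s).2 ∈ A) := by
  obtain ⟨z₁, z₂, e₁, e₂, u₁, u₂, m₁, m₂, hsep⟩ := h.exists_limit hA hr (fun n => by
    obtain ⟨ℓ, ζ, hζ⟩ := hfam n
    exact h.exists_pair hA hζ)
  refine ⟨_, _, h.isLine e₁, h.isLine e₂, (h.isEmbedding u₁).2, (h.isEmbedding u₂).2, ?_,
    (h.isEmbedding u₁).1, (h.isEmbedding u₂).1, m₁, m₂⟩
  rw [Set.disjoint_left]
  rintro _ ⟨s, rfl⟩ ⟨s', hs'⟩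
  simp only [Prod.mk.injEq] at hs'
  obtain ⟨hx, ht⟩ := hs'
  obtain ⟨h1, h2⟩ := hsep s s' ht.symm
  rw [← sub_eq_zero, ← AddCircle.coe_sub, AddCircle.coe_eq_zero_iff] at hx
  obtain ⟨k, hk⟩ := hx
  simp only [zsmul_eq_mul, mul_one] at hk
  rw [← hk] at h1 h2
  have h3 : (0 : ℤ) < k := by exact_mod_cast h1
  have h4 : k < (1 : ℤ) := by exact_mod_cast h2
  omega

/-- The main theorem. -/
theorem main (hc : g.Complete) (hA : A = univ ∨ ∃ τ : ℝ, A = Ici τ ∧ ∀ x, g.bend (x, τ) = 0)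
    (hb : ∀ x, ∀ t ∈ A, 0 ≤ g.bend (x, t)) (hne : ∃ x, ∃ t ∈ A, g.bend (x, t) ≠ 0) :
    ∃ c₁ c₂ : ℝ → AddCircle (1 : ℝ) × ℝ, g.IsLine c₁ ∧ g.IsLine c₂ ∧
      IsEmbedding c₁ ∧ IsEmbedding c₂ ∧ Disjoint (range c₁) (range c₂) ∧
      StrictMono (fun s => (c₁ s).2) ∧ StrictMono (fun s => (c₂ s).2) ∧
      (∀ s, (c₁ s).2 ∈ A) ∧ (∀ s, (c₂ s).2 ∈ A) := by
  obtain ⟨φ, h⟩ := exists_flow hc
  obtain ⟨x₀, r, hrA, hxr⟩ := hne
  -- the geodesic levels below `r`
  let Γ : Set ℝ := {t | t ∈ A ∧ t < r ∧ ∀ x, g.bend (x, t) = 0}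
  have hbc : Continuous g.bend := by
    have h1 := (contDiff_dt g.smooth_E).continuous
    have h2 := (contDiff_dx g.smooth_E).continuous
    have h3 := (contDiff_dx g.smooth_F).continuous
    have h4 := g.smooth_E.continuous
    have h5 := g.smooth_F.continuous
    exact ((h4.mul h1).add (h5.mul h2)).sub ((continuous_const.mul h4).mul h3)
  have hAc : IsClosed A := by
    rcases hA with rfl | ⟨τ, rfl, -⟩
    · exact isClosed_univ
    · exact isClosed_Ici
  have hAu : ∀ t ∈ A, ∀ t', t ≤ t' → t' ∈ A := by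
    rcases hA with rfl | ⟨τ, rfl, -⟩
    · intro t _ t' _; trivial
    · intro t ht t' htt'; exact le_trans ht htt'
  rcases Γ.eq_empty_or_nonempty with hΓ | hΓ
  · have hAuniv : A = univ := by
      rcases hA with h1 | ⟨τ, rfl, hτ⟩
      · exact h1
      · exfalso
        have : τ ∈ Γ := by
          refine ⟨le_refl τ, lt_of_le_of_ne hrA ?_, hτ⟩
          rintro rfl
          exact hxr (hτ x₀)
        rw [hΓ] at this
        exact this
    subst hAuniv
    have hR : g.Region univ := ⟨isClosed_univ, fun _ _ _ _ => trivial, hb⟩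
    refine main_of_level h hR ⟨x₀, hxr⟩ (fun n => h.exists_family_univ hR (fun t ht => ?_) n)
    rcases eq_or_lt_of_le ht with rfl | hlt
    · exact ⟨x₀, hxr⟩
    · by_contra hcon
      push Not at hcon
      have : t ∈ Γ := ⟨trivial, hlt, hcon⟩
      rw [hΓ] at this
      exact this
  · have hΓb : BddAbove Γ := ⟨r, fun t ht => ht.2.1.le⟩
    set α := sSup Γ with hα
    have hαmem : α ∈ closure Γ := csSup_mem_closure hΓ hΓb
    have hcl : closure Γ ⊆ {t | t ∈ A ∧ t ≤ r ∧ ∀ x, g.bend (x, t) = 0} := by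
      refine closure_minimal (fun t ht => ⟨ht.1, ht.2.1.le, ht.2.2⟩) ?_
      have h1 : {t | t ∈ A ∧ t ≤ r ∧ ∀ x, g.bend (x, t) = 0} =
          A ∩ (Iic r ∩ ⋂ x : ℝ, {t | g.bend (x, t) = 0}) := by
        ext t
        simp only [mem_inter_iff, mem_Iic, mem_iInter, mem_setOf_eq]
      rw [h1]
      refine hAc.inter (isClosed_Iic.inter (isClosed_iInter fun x => isClosed_eq ?_
        continuous_const))
      exact hbc.comp (continuous_const.prodMk continuous_id)
    obtain ⟨hαA, hαr, hα0⟩ := hcl hαmem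
    have hlt : α < r := by
      refine lt_of_le_of_ne hαr ?_
      intro he
      rw [he] at hα0
      exact hxr (hα0 x₀)
    have hR : g.Region (Ici α) := ⟨isClosed_Ici, fun t ht t' htt' => le_trans ht htt',
      fun x t ht => hb x t (hAu α hαA t ht)⟩
    have hΓ' : ∀ t, α < t → t ≤ r → ∃ x, g.bend (x, t) ≠ 0 := by
      intro t h1 h2
      rcases eq_or_lt_of_le h2 with rfl | h2
      · exact ⟨x₀, hxr⟩
      · by_contra hcon
        push Not at hcon
        have : t ∈ Γ := ⟨hAu α hαA t h1.le, h2, hcon⟩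
        exact absurd (le_csSup hΓb this) (not_le.2 h1)
    obtain ⟨c₁, c₂, l₁, l₂, e₁, e₂, hd, s₁, s₂, m₁, m₂⟩ := main_of_level h hR ⟨x₀, hxr⟩
      (fun n => ⟨α, h.exists_family_level hR hα0 hlt hΓ' n⟩)
    exact ⟨c₁, c₂, l₁, l₂, e₁, e₂, hd, s₁, s₂, fun s => hAu α hαA _ (m₁ s),
      fun s => hAu α hαA _ (m₂ s)⟩

end CylMetric

end Pool.Agent.CyG
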