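import Pool.Agent.CyG.FlatMain

set_option autoImplicit false

/-!
# Two disjoint embedded geodesic lines: the complete statement
-/

namespace Pool.Agent.CyG

open Set Filter Topology
open scoped ContDiff

namespace CylMetric

variable {g : CylMetric} {φ : ℝ → State → State} {A : Set ℝ}

theorem IsFlow.exists_lines (h : g.IsFlow φ) {z₁ z₂ : State} (e₁ : g.en z₁ = 1)
    (e₂ : g.en z₂ = 1) (u₁ : ∀ s, 0 < g.w (φ s z₁)) (u₂ : ∀ s, 0 < g.w (φ s z₂))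
    (hsep : ∀ s s', (φ s z₁).2.1 = (φ s' z₂).2.1 →
        0 < (φ s' z₂).1 - (φ s z₁).1 ∧ (φ s' z₂).1 - (φ s z₁).1 < 1) :
    ∃ c₁ c₂ : ℝ → AddCircle (1 : ℝ) × ℝ, g.IsLine c₁ ∧ g.IsLine c₂ ∧
      IsEmbedding c₁ ∧ IsEmbedding c₂ ∧ Disjoint (range c₁) (range c₂) ∧
      StrictMono (fun s => (c₁ s).2) ∧ StrictMono (fun s => (c₂ s).2) := by
  refine ⟨_, _, h.isLine e₁, h.isLine e₂, (h.isEmbedding u₁).2, (h.isEmbedding u₂).2, ?_,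
    (h.isEmbedding u₁).1, (h.isEmbedding u₂).1⟩
  rw [Set.disjoint_left]
  rintro _ ⟨s, rfl⟩ ⟨s', hs'⟩
  simp only [Prod.mk.injEq] at hs'
  obtain ⟨hx, ht⟩ := hs'
  obtain ⟨h1, h2⟩ := hsep s s' ht.symm
  rw [← sub_eq_zero, ← AddCircle.coe_sub, AddCircle.coe_eq_zero_iff] at hx
  obtain ⟨k, hk⟩ := hx
  simp only [zsmul_eq_mul, mul_one] at hk
  rw [← hk] at h1 h2
  have h3 : (0 : ℤ) < k := by exact_mod_cast h1
  have h4 : k < (1 : ℤ) := by exact_mod_cast h2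
  omega

/-- The main theorem. -/
theorem main₂ (hc : g.Complete)
    (hA : A = univ ∨ ∃ τ : ℝ, A = Ici τ ∧ (∀ x, g.bend (x, τ) = 0) ∧
      ∃ x, ∃ t ∈ A, g.bend (x, t) ≠ 0)
    (hb : ∀ x, ∀ t ∈ A, 0 ≤ g.bend (x, t)) :
    ∃ c₁ c₂ : ℝ → AddCircle (1 : ℝ) × ℝ, g.IsLine c₁ ∧ g.IsLine c₂ ∧
      IsEmbedding c₁ ∧ IsEmbedding c₂ ∧ Disjoint (range c₁) (range c₂) ∧
      StrictMono (fun s => (c₁ s).2) ∧ StrictMono (fun s => (c₂ s).2) ∧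
      (∀ s, (c₁ s).2 ∈ A) ∧ (∀ s, (c₂ s).2 ∈ A) := by
  by_cases hne : ∃ x, ∃ t ∈ A, g.bend (x, t) ≠ 0
  · refine main hc ?_ hb hne
    rcases hA with h1 | ⟨τ, h1, h2, -⟩
    · exact Or.inl h1
    · exact Or.inr ⟨τ, h1, h2⟩
  · have hAu : A = univ := by
      rcases hA with h1 | ⟨τ, h1, h2, h3⟩
      · exact h1
      · exact absurd h3 hne
    subst hAu
    push Not at hne
    obtain ⟨φ, h⟩ := exists_flow hc
    obtain ⟨z₁, z₂, e₁, e₂, u₁, u₂, hsep⟩ := h.exists_flat (fun p => hne p.1 p.2 trivial)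
    obtain ⟨c₁, c₂, l₁, l₂, i₁, i₂, hd, m₁, m₂⟩ := h.exists_lines e₁ e₂ u₁ u₂ hsep
    exact ⟨c₁, c₂, l₁, l₂, i₁, i₂, hd, m₁, m₂, fun _ => trivial, fun _ => trivial⟩

end CylMetric

end Pool.Agent.CyG
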